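import Pool.Agent.Elton955.Defs
open Filter Finset Topology

namespace Elton955.Compl
open Elton955



theorem compl_exists (W act : Finset ℕ → Prop)
    (hwf : WellFounded (fun e' e : Finset ℕ => Ini e e' ∧ e ≠ e' ∧ ¬ W e))
    (w : ℕ) (e : Finset ℕ) :
    ∃ e', Ini e e' ∧ (W e' ∨ act e') ∧ ∀ x ∈ e', x ∉ e →
      (∃ j, x = 2 * Nat.pair w j + 1) ∧ ¬ W (bel e' x) ∧ ¬ act (bel e' x) := by
  induction e using hwf.induction with
  | _ e ih =>
    by_cases hWa : W e ∨ act e
    · exact ⟨e, ⟨Finset.Subset.refl e, fun x hx hx' => absurd hx hx'⟩, hWa,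
        fun x hx hx' => absurd hx hx'⟩
    · rw [not_or] at hWa
      obtain ⟨hW, hA⟩ := hWa
      have hlt : ∀ y ∈ e, y < 2 * Nat.pair w (e.sup id) + 1 := by
        intro y hy
        have h1 : y ≤ e.sup id := Finset.le_sup (f := id) hy
        have h2 : e.sup id ≤ Nat.pair w (e.sup id) := Nat.right_le_pair _ _
        omega
      obtain ⟨nx, hnx⟩ : ∃ nx, nx = 2 * Nat.pair w (e.sup id) + 1 := ⟨_, rfl⟩
      rw [← hnx] at hlt
      have hnot : nx ∉ e := fun h => lt_irrefl _ (hlt nx h)
      have hI : Ini e (insert nx e) := by
        refine ⟨Finset.subset_insert _ _, fun x hx hx' y hy => ?_⟩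
        rcases Finset.mem_insert.1 hx with h | h
        · rw [h]; exact hlt y hy
        · exact absurd h hx'
      have hne : e ≠ insert nx e := fun h => hnot (by rw [h]; exact Finset.mem_insert_self _ _)
      obtain ⟨e', hI', hWa', hrest⟩ := ih (insert nx e) ⟨hI, hne, hW⟩
      have hsub : e ⊆ e' := (Finset.subset_insert _ _).trans hI'.1
      refine ⟨e', ⟨hsub, fun x hx hx' y hy => ?_⟩, hWa', fun x hx hx' => ?_⟩
      · by_cases hx1 : x ∈ insert nx e
        · rcases Finset.mem_insert.1 hx1 with h | h
          · rw [h]; exact hlt y hy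
          · exact absurd h hx'
        · exact hI'.2 x hx hx1 y (Finset.mem_insert_of_mem hy)
      · by_cases hx1 : x ∈ insert nx e
        · have hxn : x = nx := by
            rcases Finset.mem_insert.1 hx1 with h | h
            · exact h
            · exact absurd h hx'
          have hbel : bel e' x = e := by
            ext z
            simp only [bel, Finset.mem_filter]
            constructor
            · rintro ⟨hz, hzx⟩
              by_cases hz1 : z ∈ insert nx e
              · rcases Finset.mem_insert.1 hz1 with h | h
                · omega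
                · exact h
              · have := hI'.2 z hz hz1 nx (Finset.mem_insert_self _ _)
                omega
            · intro hz
              exact ⟨hsub hz, by rw [hxn]; exact hlt z hz⟩
          rw [hbel]
          exact ⟨⟨e.sup id, by rw [hxn, hnx]⟩, hW, hA⟩
        · exact hrest x hx hx1

end Elton955.Compl
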