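import Pool.Agent.Elton955.Defs
open Filter Finset Topology

namespace Elton955.Leaf
open Elton955



/-- a nonprincipal ultrafilter -/
noncomputable abbrev HU : Ultrafilter ℕ := hyperfilter ℕ

theorem HU_le : (HU : Filter ℕ) ≤ atTop := by
  rw [← Nat.cofinite_eq_atTop]
  exact hyperfilter_le_cofinite

theorem HU_gt (N : ℕ) : ∀ᶠ n in (HU : Filter ℕ), N < n :=
  (eventually_gt_atTop N).filter_mono HU_le

theorem HU_gt_all (u : Finset ℕ) : ∀ᶠ n in (HU : Filter ℕ), ∀ x ∈ u, x < n := by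
  rw [Finset.eventually_all]
  exact fun x _ => HU_gt x

/-- stable states -/
def Stab (σ : Finset ℕ → Finset ℕ) (u : Finset ℕ) : Prop :=
  ∃ S : Set (Finset ℕ), u ∈ S ∧ ∀ v ∈ S, v.Nonempty ∧ σ v = σ u ∧
    ∀ᶠ n in (HU : Filter ℕ), insert n v ∈ S

/-- stable states of a given level -/
def StabA (σ : Finset ℕ → Finset ℕ) (lv : Finset ℕ → ℕ) (a : ℕ) (u : Finset ℕ) : Prop :=
  Stab σ u ∧ lv (σ u) = a

theorem Stab.ne {σ : Finset ℕ → Finset ℕ} {u : Finset ℕ} (h : Stab σ u) : u.Nonempty := by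
  obtain ⟨S, hS, h⟩ := h
  exact (h u hS).1

theorem Stab.pers {σ : Finset ℕ → Finset ℕ} {u : Finset ℕ} (h : Stab σ u) :
    ∀ᶠ n in (HU : Filter ℕ), Stab σ (insert n u) ∧ σ (insert n u) = σ u := by
  obtain ⟨S, hS, h⟩ := h
  filter_upwards [(h u hS).2.2] with n hn
  have h1 := (h _ hn).2.1
  refine ⟨⟨S, hn, fun v hv => ?_⟩, h1⟩
  rw [h1]
  exact h v hv

theorem StabA.pers {σ : Finset ℕ → Finset ℕ} {lv : Finset ℕ → ℕ} {a : ℕ} {u : Finset ℕ}
    (h : StabA σ lv a u) :
    ∀ᶠ n in (HU : Filter ℕ), StabA σ lv a (insert n u) ∧ σ (insert n u) = σ u := by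
  filter_upwards [h.1.pers] with n hn
  exact ⟨⟨hn.1, by rw [hn.2]; exact h.2⟩, hn.2⟩

/-- states that have a level -/
inductive Lev (σ : Finset ℕ → Finset ℕ) (lv : Finset ℕ → ℕ) (a : ℕ) : Finset ℕ → Prop
  | stab (u : Finset ℕ) : StabA σ lv a u → Lev σ lv a u
  | step (u : Finset ℕ) (A : Set ℕ) : A ∈ (HU : Filter ℕ) → u.Nonempty →
      (∀ n ∈ A, Lev σ lv a (insert n u)) → Lev σ lv a u

theorem Lev.ne {σ : Finset ℕ → Finset ℕ} {lv : Finset ℕ → ℕ} {a : ℕ} {u : Finset ℕ}
    (h : Lev σ lv a u) : u.Nonempty := by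
  cases h with
  | stab u h => exact h.1.ne
  | step u A hA hu _ => exact hu

theorem Lev.pers {σ : Finset ℕ → Finset ℕ} {lv : Finset ℕ → ℕ} {a : ℕ} {u : Finset ℕ}
    (h : Lev σ lv a u) : ∀ᶠ n in (HU : Filter ℕ), Lev σ lv a (insert n u) := by
  cases h with
  | stab u h =>
    filter_upwards [h.pers] with n hn
    exact Lev.stab _ hn.1
  | step u A hA hu h => exact Filter.mem_of_superset hA h

theorem Lev.le {σ : Finset ℕ → Finset ℕ} {lv : Finset ℕ → ℕ} {a : ℕ} {u : Finset ℕ} {L : ℕ}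
    (hlv : ∀ e, lv e ≤ L) (h : Lev σ lv a u) : a ≤ L := by
  induction h with
  | stab u h => rw [← h.2]; exact hlv _
  | step u A hA hu h ih =>
    obtain ⟨n, hn⟩ := Filter.nonempty_of_mem hA
    exact ih n hn

theorem Lev.E1 {σ : Finset ℕ → Finset ℕ} {lv : Finset ℕ → ℕ} {a : ℕ} {u : Finset ℕ}
    (h : Lev σ lv a u) : ∀ Φ : Finset ℕ → Prop, Φ ∅ →
      (∀ z, Φ z → ∀ᶠ n in (HU : Filter ℕ), Φ (insert n z)) →
      ∃ z, Φ z ∧ StabA σ lv a (u ∪ z) := by
  induction h with
  | stab u h =>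
    intro Φ h0 _
    exact ⟨∅, h0, by rw [Finset.union_empty]; exact h⟩
  | step u A hA hu h ih =>
    intro Φ h0 hΦ
    have h1 : ∀ᶠ n in (HU : Filter ℕ), n ∈ A ∧ Φ (insert n ∅) := by
      have h2 : ∀ᶠ n in (HU : Filter ℕ), n ∈ A := hA
      exact h2.and (hΦ ∅ h0)
    obtain ⟨n, hnA, hn⟩ := h1.exists
    obtain ⟨z, hz, hz2⟩ := ih n hnA (fun z => Φ (insert n z)) hn (by
      intro z hz
      filter_upwards [hΦ _ hz] with m hm
      rw [Finset.insert_comm]
      exact hm)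
    refine ⟨insert n z, hz, ?_⟩
    rw [Finset.union_insert, ← Finset.insert_union]
    exact hz2

theorem Lev.E2 {σ : Finset ℕ → Finset ℕ} {lv : Finset ℕ → ℕ} {a : ℕ}
    (T : Finset (Finset ℕ)) : (∀ t ∈ T, Lev σ lv a t) → ∀ Φ : Finset ℕ → Prop, Φ ∅ →
      (∀ z, Φ z → ∀ᶠ n in (HU : Filter ℕ), Φ (insert n z)) →
      ∃ z, Φ z ∧ ∀ t ∈ T, StabA σ lv a (t ∪ z) := by
  induction T using Finset.induction_on with
  | empty =>
    intro _ Φ h0 _
    exact ⟨∅, h0, by simp⟩
  | insert t0 T ht0 ih =>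
    intro hT Φ h0 hΦ
    have hT' : ∀ t ∈ T, Lev σ lv a t := fun t ht => hT t (Finset.mem_insert_of_mem ht)
    obtain ⟨z1, ⟨hz1, hz1'⟩, hz1''⟩ := ih hT' (fun z => Φ z ∧ Lev σ lv a (t0 ∪ z))
      ⟨h0, by rw [Finset.union_empty]; exact hT t0 (Finset.mem_insert_self _ _)⟩ (by
        rintro z ⟨hz, hz'⟩
        filter_upwards [hΦ z hz, hz'.pers] with n hn hn'
        refine ⟨hn, ?_⟩
        rw [Finset.union_insert]
        exact hn')
    obtain ⟨y, ⟨hy, hy'⟩, hy''⟩ := hz1'.E1 (fun y => Φ (z1 ∪ y) ∧ ∀ t ∈ T, StabA σ lv a (t ∪ z1 ∪ y))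
      ⟨by rw [Finset.union_empty]; exact hz1, fun t ht => by
        rw [Finset.union_empty]; exact hz1'' t ht⟩ (by
        rintro y ⟨hy, hy'⟩
        have h2 : ∀ᶠ n in (HU : Filter ℕ), ∀ t ∈ T, StabA σ lv a (insert n (t ∪ z1 ∪ y)) := by
          rw [Finset.eventually_all]
          intro t ht
          filter_upwards [(hy' t ht).pers] with n hn
          exact hn.1
        filter_upwards [hΦ _ hy, h2] with n hn hn'
        refine ⟨?_, fun t ht => ?_⟩
        · rw [Finset.union_insert]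
          exact hn
        · rw [Finset.union_insert]
          exact hn' t ht)
    refine ⟨z1 ∪ y, hy, ?_⟩
    intro t ht
    rw [← Finset.union_assoc]
    rcases Finset.mem_insert.1 ht with rfl | ht
    · exact hy''
    · exact hy' t ht

theorem exists_lev (σ : Finset ℕ → Finset ℕ) (W : Finset ℕ → Prop)
    (lv : Finset ℕ → ℕ) (L : ℕ)
    (hwf : WellFounded (fun e' e : Finset ℕ => Ini e e' ∧ e ≠ e' ∧ ¬ W e))
    (hlv : ∀ e, lv e ≤ L)
    (hext : ∀ u n, u.Nonempty → (∀ x ∈ u, x < n) → Ini (σ u) (σ (insert n u)))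
    (hnW : ∀ u, u.Nonempty → ¬ W (σ u)) (u : Finset ℕ) (hu : u.Nonempty) :
    ∃ a, Lev σ lv a u := by
  by_contra hcon
  obtain ⟨Bad, hBad⟩ : ∃ Bad : Set (Finset ℕ), Bad = {u | u.Nonempty ∧ ∀ a, ¬ Lev σ lv a u} :=
    ⟨_, rfl⟩
  have huB : u ∈ Bad := by
    rw [hBad]
    push Not at hcon
    exact ⟨hu, hcon⟩
  have hB1 : ∀ v ∈ Bad, ∀ᶠ n in (HU : Filter ℕ), insert n v ∈ Bad := by
    intro v hv
    by_contra hc
    rw [← Ultrafilter.eventually_not] at hc
    have h1 : ∀ᶠ n in (HU : Filter ℕ), ∃ a ∈ Set.Iic L, Lev σ lv a (insert n v) := by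
      filter_upwards [hc] with n hn
      by_contra hc2
      apply hn
      rw [hBad]
      refine ⟨Finset.insert_nonempty _ _, fun a ha => hc2 ⟨a, ha.le hlv, ha⟩⟩
    rw [Ultrafilter.eventually_exists_mem_iff (Set.finite_Iic L)] at h1
    obtain ⟨a, -, ha⟩ := h1
    rw [hBad] at hv
    exact hv.2 a (Lev.step v _ ha hv.1 fun n hn => hn)
  obtain ⟨e, ⟨w, hwB, rfl⟩, hmin⟩ := hwf.has_min (σ '' Bad) ⟨σ u, u, huB, rfl⟩
  have hne : ∀ v ∈ Bad, v.Nonempty := by
    intro v hv
    rw [hBad] at hv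
    exact hv.1
  have hmin' : ∀ v ∈ Bad, Ini (σ w) (σ v) → σ v = σ w := by
    intro v hv hI
    by_contra hc
    exact hmin (σ v) ⟨v, hv, rfl⟩ ⟨hI, fun h => hc h.symm, hnW w (hne w hwB)⟩
  have hst : Stab σ w := by
    refine ⟨{v | v ∈ Bad ∧ σ v = σ w}, ⟨hwB, rfl⟩, ?_⟩
    rintro v ⟨hvB, hvσ⟩
    refine ⟨hne v hvB, hvσ, ?_⟩
    filter_upwards [hB1 v hvB, HU_gt_all v] with n hn hn'
    refine ⟨hn, hmin' _ hn ?_⟩
    rw [← hvσ]
    exact hext v n (hne v hvB) hn'
  rw [hBad] at hwB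
  exact hwB.2 _ (Lev.stab w ⟨hst, rfl⟩)

/-- all final segments have level `a` -/
def GoodU (σ : Finset ℕ → Finset ℕ) (lv : Finset ℕ → ℕ) (a : ℕ) (u : Finset ℕ) : Prop :=
  ∀ k, (u.filter (fun x => k ≤ x)).Nonempty → Lev σ lv a (u.filter (fun x => k ≤ x))

theorem GoodU.pers {σ : Finset ℕ → Finset ℕ} {lv : Finset ℕ → ℕ} {a : ℕ}
    (ha : ∀ᶠ n in (HU : Filter ℕ), Lev σ lv a {n}) {u : Finset ℕ} (h : GoodU σ lv a u) :
    ∀ᶠ n in (HU : Filter ℕ), GoodU σ lv a (insert n u) := by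
  obtain ⟨B, hB⟩ : ∃ B, ∀ x ∈ u, x < B := ⟨u.sup id + 1, fun x hx =>
    Nat.lt_succ_of_le (Finset.le_sup (f := id) hx)⟩
  have h1 : ∀ᶠ n in (HU : Filter ℕ), ∀ k ∈ Finset.range B,
      (u.filter (fun x => k ≤ x)).Nonempty → Lev σ lv a (insert n (u.filter (fun x => k ≤ x))) := by
    rw [Finset.eventually_all]
    intro k _
    by_cases hk : (u.filter (fun x => k ≤ x)).Nonempty
    · filter_upwards [(h k hk).pers] with n hn _
      exact hn
    · exact Filter.Eventually.of_forall fun n hn => absurd hn hk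
  filter_upwards [h1, ha] with n hn han
  intro k hk
  rw [Finset.filter_insert] at hk ⊢
  split_ifs at hk ⊢ with hkn
  · by_cases hk' : (u.filter (fun x => k ≤ x)).Nonempty
    · refine hn k (Finset.mem_range.2 ?_) hk'
      obtain ⟨x, hx⟩ := hk'
      rw [Finset.mem_filter] at hx
      exact lt_of_le_of_lt hx.2 (hB x hx.1)
    · rw [Finset.not_nonempty_iff_eq_empty] at hk'
      rw [hk']
      exact han
  · exact h k hk


theorem leaf_exists_aux (σ : Finset ℕ → Finset ℕ) (W : Finset ℕ → Prop)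
    (V : Finset ℕ → ℝ) (lv : Finset ℕ → ℕ) (L : ℕ) (θ : ℕ → ℝ)
    (hθ : ∀ w, 0 < θ w)
    (hwf : WellFounded (fun e' e : Finset ℕ => Ini e e' ∧ e ≠ e' ∧ ¬ W e))
    (hlv : ∀ e, lv e ≤ L)
    (hext : ∀ u n, u.Nonempty → (∀ x ∈ u, x < n) → Ini (σ u) (σ (insert n u)))
    (hnW : ∀ u, u.Nonempty → ¬ W (σ u))
    (hpos : ∀ u, u.Nonempty → 0 < V (σ u))
    (hmin : ∀ (u : Finset ℕ) (N : ℕ), u.Nonempty → (∀ x ∈ u, N ≤ x) → V (σ u) ≤ 1 / ((N : ℝ) + 1))
    (hinc : ∀ v w n, 2 ≤ v.card → (∀ y ∈ v, w < y) → (∀ x ∈ v, x < n) →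
      (∀ x ∈ σ v, x < 2 * n) → (∀ x ∈ σ (insert w v), x < 2 * n) →
      lv (σ (insert w v)) ≤ lv (σ v) → V (σ v) ≤ θ w * V (σ (insert w v)) →
      σ (insert n (insert w v)) ≠ σ (insert w v)) : False := by
  classical
  have hex := exists_lev σ W lv L hwf hlv hext hnW
  -- the level of singletons
  obtain ⟨a, -, ha⟩ : ∃ a ∈ Set.Iic L, ∀ᶠ n in (HU : Filter ℕ), Lev σ lv a {n} := by
    rw [← Ultrafilter.eventually_exists_mem_iff (Set.finite_Iic L)]
    refine Filter.Eventually.of_forall fun n => ?_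
    obtain ⟨a, ha⟩ := hex {n} (Finset.singleton_nonempty n)
    exact ⟨a, ha.le hlv, ha⟩
  have hG0 : GoodU σ lv a ∅ := by
    intro k hk
    simp at hk
  have hfil0 : ∀ u : Finset ℕ, u.filter (fun x => 0 ≤ x) = u := by
    intro u
    exact Finset.filter_true_of_mem fun x _ => Nat.zero_le x
  -- a good state with two elements
  obtain ⟨n0, hn0⟩ := (hG0.pers ha).exists
  obtain ⟨n0', hn0', hn0lt⟩ := ((hn0.pers ha).and (HU_gt n0)).exists
  have hu0ne : (insert n0' (insert n0 (∅ : Finset ℕ))).Nonempty := Finset.insert_nonempty _ _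
  have hu0L : Lev σ lv a (insert n0' (insert n0 (∅ : Finset ℕ))) := by
    have h1 := hn0' 0 (by rw [hfil0]; exact hu0ne)
    rwa [hfil0] at h1
  obtain ⟨z0, hz0, hz0'⟩ := hu0L.E1
    (fun z => GoodU σ lv a ((insert n0' (insert n0 (∅ : Finset ℕ))) ∪ z))
    (by rw [Finset.union_empty]; exact hn0') (by
      intro z hz
      filter_upwards [hz.pers ha] with n hn
      rw [Finset.union_insert]
      exact hn)
  obtain ⟨u, hu⟩ : ∃ u, u = (insert n0' (insert n0 (∅ : Finset ℕ))) ∪ z0 := ⟨_, rfl⟩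
  rw [← hu] at hz0 hz0'
  have hune : u.Nonempty := hz0'.1.ne
  have hvpos := hpos u hune
  have hPpos : 0 < ∏ j ∈ u, θ j := Finset.prod_pos fun j _ => hθ j
  -- choose N
  have hlim : ∀ᶠ N : ℕ in (HU : Filter ℕ), (1 : ℝ) / ((N : ℝ) + 1) < (∏ j ∈ u, θ j) * V (σ u) :=
    (tendsto_one_div_add_atTop_nhds_zero_nat.eventually_lt_const (mul_pos hPpos hvpos)).filter_mono
      HU_le
  obtain ⟨N, hNu, hNG, ⟨hNS, hNσ⟩, hNV⟩ :=
    ((HU_gt_all u).and ((hz0.pers ha).and (hz0'.pers.and hlim))).exists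
  obtain ⟨n1, hn1N, hn1G, hn1S, hn1σ⟩ := ((HU_gt N).and ((hNG.pers ha).and hNS.pers)).exists
  obtain ⟨U, hU⟩ : ∃ U, U = insert n1 (insert N u) := ⟨_, rfl⟩
  rw [← hU] at hn1G hn1S hn1σ
  have hNU : N ∈ U := by rw [hU]; simp
  have hn1U : n1 ∈ U := by rw [hU]; simp
  -- the family of final segments
  obtain ⟨z, ⟨hz1, hz2, hz3⟩, hzT⟩ := Lev.E2 (σ := σ) (lv := lv) (a := a)
    ((Finset.range (N + 1)).image (fun k => U.filter (fun x => k ≤ x))) (by
      intro t ht
      obtain ⟨k, hk, rfl⟩ := Finset.mem_image.1 ht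
      rw [Finset.mem_range] at hk
      exact hn1G k ⟨N, Finset.mem_filter.2 ⟨hNU, by omega⟩⟩)
    (fun z => (∀ x ∈ z, n1 < x) ∧ StabA σ lv a (U ∪ z) ∧ σ (U ∪ z) = σ u)
    ⟨by simp, by rw [Finset.union_empty]; exact hn1S,
      by rw [Finset.union_empty, hn1σ, hNσ]⟩ (by
      rintro z ⟨hz1, hz2, hz3⟩
      filter_upwards [HU_gt n1, hz2.pers] with n hn hn'
      refine ⟨?_, ?_, ?_⟩
      · intro x hx
        rcases Finset.mem_insert.1 hx with rfl | hx
        · exact hn
        · exact hz1 x hx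
      · rw [Finset.union_insert]
        exact hn'.1
      · rw [Finset.union_insert, hn'.2]
        exact hz3)
  obtain ⟨T, hT⟩ : ∃ T : ℕ → Finset ℕ, T = fun k => U.filter (fun x => k ≤ x) ∪ z := ⟨_, rfl⟩
  have hTS : ∀ k, k ≤ N → StabA σ lv a (T k) := by
    intro k hk
    rw [hT]
    exact hzT _ (Finset.mem_image.2 ⟨k, Finset.mem_range.2 (by omega), rfl⟩)
  have hmemT : ∀ k x, x ∈ T k ↔ (x ∈ U ∧ k ≤ x) ∨ x ∈ z := by
    intro k x
    rw [hT]
    simp only [Finset.mem_union, Finset.mem_filter]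
  have hT0 : σ (T 0) = σ u := by
    rw [hT]
    show σ (U.filter (fun x => 0 ≤ x) ∪ z) = σ u
    rw [hfil0]
    exact hz3
  -- generic n
  have hgen : ∀ᶠ n in (HU : Filter ℕ), ∀ k ∈ Finset.range (N + 1),
      σ (insert n (T k)) = σ (T k) ∧ (∀ x ∈ T k, x < n) ∧ (∀ x ∈ σ (T k), x < n) := by
    rw [Finset.eventually_all]
    intro k hk
    rw [Finset.mem_range] at hk
    filter_upwards [(hTS k (by omega)).pers, HU_gt_all (T k), HU_gt_all (σ (T k))] with n h1 h2 h3
    exact ⟨h1.2, h2, h3⟩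
  obtain ⟨n, hn⟩ := hgen.exists
  have hn' : ∀ k, k ≤ N → σ (insert n (T k)) = σ (T k) ∧ (∀ x ∈ T k, x < n) ∧
      (∀ x ∈ σ (T k), x < n) := fun k hk => hn k (Finset.mem_range.2 (by omega))
  have hzgt : ∀ x ∈ z, N < x := fun x hx => hn1N.trans (hz1 x hx)
  have hcard : ∀ k, k ≤ N → 2 ≤ (T k).card := by
    intro k hk
    have h1 : ({N, n1} : Finset ℕ) ⊆ T k := by
      intro x hx
      rw [Finset.mem_insert, Finset.mem_singleton] at hx
      rw [hmemT]
      rcases hx with rfl | rfl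
      · exact Or.inl ⟨hNU, hk⟩
      · exact Or.inl ⟨hn1U, by omega⟩
    have h2 := Finset.card_le_card h1
    rwa [Finset.card_pair (by omega)] at h2
  have hUmem : ∀ k, k < N → (k ∈ U ↔ k ∈ u) := by
    intro k hk
    rw [hU, Finset.mem_insert, Finset.mem_insert]
    constructor
    · rintro (h | h | h)
      · omega
      · omega
      · exact h
    · intro h
      exact Or.inr (Or.inr h)
  have hstep : ∀ k, k ≤ N → (∏ j ∈ u.filter (fun j => j < k), θ j) * V (σ u) ≤ V (σ (T k)) := by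
    intro k
    induction k with
    | zero =>
      intro _
      rw [hT0]
      simp
    | succ k ih =>
      intro hk
      have ih' := ih (by omega)
      by_cases hku : k ∈ u
      · have hTk : T k = insert k (T (k + 1)) := by
          ext x
          rw [Finset.mem_insert, hmemT, hmemT]
          constructor
          · rintro (⟨h1, h2⟩ | h)
            · rcases Nat.eq_or_lt_of_le h2 with h3 | h3
              · exact Or.inl h3.symm
              · exact Or.inr (Or.inl ⟨h1, h3⟩)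
            · exact Or.inr (Or.inr h)
          · rintro (rfl | ⟨h1, h2⟩ | h)
            · exact Or.inl ⟨(hUmem x (by omega)).2 hku, le_rfl⟩
            · exact Or.inl ⟨h1, by omega⟩
            · exact Or.inr h
        have h1 : θ k * V (σ (T k)) ≤ V (σ (T (k + 1))) := by
          by_contra hc
          push Not at hc
          have hk1 := hn' (k + 1) hk
          have hk0 := hn' k (by omega)
          refine hinc (T (k + 1)) k n (hcard (k + 1) hk) ?_ hk1.2.1 ?_ ?_ ?_ ?_ ?_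
          · intro y hy
            rw [hmemT] at hy
            rcases hy with ⟨_, hy⟩ | hy
            · omega
            · have := hzgt y hy
              omega
          · intro x hx
            have := hk1.2.2 x hx
            omega
          · intro x hx
            rw [← hTk] at hx
            have := hk0.2.2 x hx
            omega
          · rw [← hTk, (hTS k (by omega)).2, (hTS (k + 1) hk).2]
          · rw [← hTk]
            exact hc.le
          · rw [← hTk]
            exact hk0.1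
        have h2 : u.filter (fun j => j < k + 1) = insert k (u.filter (fun j => j < k)) := by
          ext x
          simp only [Finset.mem_filter, Finset.mem_insert]
          constructor
          · rintro ⟨h3, h4⟩
            rcases Nat.lt_succ_iff_lt_or_eq.1 h4 with h5 | h5
            · exact Or.inr ⟨h3, h5⟩
            · exact Or.inl h5
          · rintro (rfl | ⟨h3, h4⟩)
            · exact ⟨hku, Nat.lt_succ_self _⟩
            · exact ⟨h3, by omega⟩
        rw [h2, Finset.prod_insert (by simp), mul_assoc]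
        exact (mul_le_mul_of_nonneg_left ih' (hθ k).le).trans h1
      · have hTk : T (k + 1) = T k := by
          ext x
          rw [hmemT, hmemT]
          constructor
          · rintro (⟨h1, h2⟩ | h)
            · exact Or.inl ⟨h1, by omega⟩
            · exact Or.inr h
          · rintro (⟨h1, h2⟩ | h)
            · rcases Nat.eq_or_lt_of_le h2 with h3 | h3
              · exact absurd ((hUmem k (by omega)).1 (h3 ▸ h1)) hku
              · exact Or.inl ⟨h1, h3⟩
            · exact Or.inr h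
        have h2 : u.filter (fun j => j < k + 1) = u.filter (fun j => j < k) := by
          ext x
          simp only [Finset.mem_filter]
          constructor
          · rintro ⟨h3, h4⟩
            rcases Nat.lt_succ_iff_lt_or_eq.1 h4 with h5 | h5
            · exact ⟨h3, h5⟩
            · exact absurd (h5 ▸ h3) hku
          · rintro ⟨h3, h4⟩
            exact ⟨h3, by omega⟩
        rw [h2, hTk]
        exact ih'
  have hfin := hstep N le_rfl
  have hfil : u.filter (fun j => j < N) = u := Finset.filter_true_of_mem hNu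
  rw [hfil] at hfin
  have hTN : (T N).Nonempty := ⟨N, (hmemT N N).2 (Or.inl ⟨hNU, le_rfl⟩)⟩
  have hmN := hmin (T N) N hTN (by
    intro x hx
    rw [hmemT] at hx
    rcases hx with ⟨_, hx⟩ | hx
    · exact hx
    · exact (hzgt x hx).le)
  linarith

end Elton955.Leaf
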