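import Pool.Agent.Elton955.Defs
open Filter Finset Topology

namespace Elton955.Props
open Elton955






theorem Ini.refl (e : Finset ℕ) : Ini e e := ⟨Finset.Subset.refl e, fun x hx hx' => absurd hx hx'⟩

theorem _root_.Elton955.Ini.trans' {A B C : Finset ℕ} (h1 : Ini A B) (h2 : Ini B C) : Ini A C := by
  refine ⟨h1.1.trans h2.1, fun x hx hxA y hy => ?_⟩
  by_cases hxB : x ∈ B
  · exact h1.2 x hxB hxA y hy
  · exact h2.2 x hx hxB y (h1.1 hy)

theorem mem_bel {e : Finset ℕ} {n x : ℕ} : x ∈ bel e n ↔ x ∈ e ∧ x < n := by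
  unfold bel; rw [Finset.mem_filter]

theorem bel_Ini {A C : Finset ℕ} (h : Ini A C) {x : ℕ} (hx : x ∈ A) : bel C x = bel A x := by
  ext y
  rw [mem_bel, mem_bel]
  constructor
  · rintro ⟨h1, h2⟩
    refine ⟨?_, h2⟩
    by_contra hy
    exact absurd (h.2 y h1 hy x hx) (by omega)
  · rintro ⟨h1, h2⟩
    exact ⟨h.1 h1, h2⟩

theorem bel_insert_Ini {A C : Finset ℕ} {a : ℕ} (h : Ini (insert a A) C) (ha : ∀ x ∈ A, x < a) :
    bel C a = A := by
  ext y
  rw [mem_bel]
  constructor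
  · rintro ⟨h1, h2⟩
    by_contra hy
    have h3 : y ∉ insert a A := by
      rw [Finset.mem_insert]
      rintro (rfl | h4)
      · omega
      · exact hy h4
    exact absurd (h.2 y h1 h3 a (Finset.mem_insert_self a A)) (by omega)
  · intro hy
    exact ⟨h.1 (Finset.mem_insert_of_mem hy), ha y hy⟩

theorem Ini_insert {A : Finset ℕ} {a : ℕ} (ha : ∀ x ∈ A, x < a) : Ini A (insert a A) := by
  refine ⟨Finset.subset_insert a A, fun x hx hxA y hy => ?_⟩
  rcases Finset.mem_insert.mp hx with rfl | h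
  · exact ha y hy
  · exact absurd h hxA

theorem Inl_imp {W : Finset ℕ → Prop} {V : Finset ℕ → ℝ} {lv : Finset ℕ → ℕ} {θ : ℕ → ℝ}
    {σ : Finset ℕ → Finset ℕ} {n : ℕ} {u : Finset ℕ} (h : Inl W V lv θ σ n u) :
    (∀ x ∈ σ u, x < 2 * n) ∧ ¬ W (σ u) ∧ Act V lv (σ u) := by
  rcases h with ⟨w, v, rfl, h1, h2, h3, h4, h5, h6, h7, h8, h9⟩ | ⟨w, h1, h2, h3, h4, h5, h6, h7, h8, h9⟩
  · exact ⟨h4, h6, h8⟩
  · exact ⟨h3, h5, h7⟩

theorem bel_insert_max {u : Finset ℕ} {n : ℕ} (h : ∀ x ∈ u, x < n) : bel (insert n u) n = u := by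
  ext y
  rw [mem_bel, Finset.mem_insert]
  constructor
  · rintro ⟨rfl | h1, h2⟩
    · omega
    · exact h1
  · intro hy
    exact ⟨Or.inr hy, h y hy⟩

theorem bel_insert_lt {u : Finset ℕ} {n k : ℕ} (h : k < n) : bel (insert n u) k = bel u k := by
  ext y
  rw [mem_bel, mem_bel, Finset.mem_insert]
  constructor
  · rintro ⟨rfl | h1, h2⟩
    · omega
    · exact ⟨h1, h2⟩
  · rintro ⟨h1, h2⟩
    exact ⟨Or.inr h1, h2⟩

theorem sInf_insert_max {u : Finset ℕ} {n : ℕ} (hu : u.Nonempty) (h : ∀ x ∈ u, x < n) :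
    sInf ((insert n u : Finset ℕ) : Set ℕ) = sInf (u : Set ℕ) := by
  have hu' : (u : Set ℕ).Nonempty := hu
  have h1 : sInf (u : Set ℕ) ∈ (u : Set ℕ) := Nat.sInf_mem hu'
  apply le_antisymm
  · apply Nat.sInf_le
    rw [Finset.mem_coe, Finset.mem_insert]
    exact Or.inr h1
  · have h2 : sInf ((insert n u : Finset ℕ) : Set ℕ) ∈ ((insert n u : Finset ℕ) : Set ℕ) :=
      Nat.sInf_mem ⟨n, by simp⟩
    rw [Finset.mem_coe, Finset.mem_insert] at h2
    rcases h2 with h2 | h2
    · rw [h2]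
      exact (h _ h1).le
    · exact Nat.sInf_le h2

theorem sInf_single (n : ℕ) : sInf (({n} : Finset ℕ) : Set ℕ) = n := by
  rw [Finset.coe_singleton, csInf_singleton]

/-- induction over nonempty sets, adding the maximum -/
theorem ne_ind {p : Finset ℕ → Prop} (h1 : ∀ n, p {n})
    (h2 : ∀ n (u : Finset ℕ), u.Nonempty → (∀ x ∈ u, x < n) → p u → p (insert n u)) :
    ∀ u : Finset ℕ, u.Nonempty → p u := by
  intro u
  induction u using Finset.induction_on_max with
  | empty => intro h; exact absurd rfl h.ne_empty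
  | insert a s hs ih =>
    intro _
    rcases s.eq_empty_or_nonempty with rfl | hne
    · have := h1 a
      rwa [← insert_empty_eq] at this
    · exact h2 a s hne hs (ih hne)

/-- structural properties of the states -/
theorem sigma_props (W : Finset ℕ → Prop) (V : Finset ℕ → ℝ) (lv : Finset ℕ → ℕ) (θ : ℕ → ℝ)
    (σ : Finset ℕ → Finset ℕ) (cp : ℕ → Finset ℕ → Finset ℕ)
    (hW0 : ¬ W ∅) (hA0 : ¬ Act V lv ∅)
    (hcp : ∀ w e, Ini e (cp w e) ∧ (W (cp w e) ∨ Act V lv (cp w e)) ∧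
      ∀ x ∈ cp w e, x ∉ e → (∃ j, x = 2 * Nat.pair w j + 1) ∧ ¬ W (bel (cp w e) x) ∧
        ¬ Act V lv (bel (cp w e) x))
    (hs1 : ∀ n, σ {n} = cp n {2 * n})
    (hs2 : ∀ u n, u.Nonempty → (∀ x ∈ u, x < n) → Inl W V lv θ σ n u →
      σ (insert n u) = cp (sInf (u : Set ℕ)) (insert (2 * n) (σ u)))
    (hs3 : ∀ u n, u.Nonempty → (∀ x ∈ u, x < n) → ¬ Inl W V lv θ σ n u →
      σ (insert n u) = σ u) :
    -- q1: end-extension
    (∀ u n, u.Nonempty → (∀ x ∈ u, x < n) → Ini (σ u) (σ (insert n u))) ∧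
    -- q2
    (∀ u, u.Nonempty → W (σ u) ∨ Act V lv (σ u)) ∧
    -- q3
    (∀ u, u.Nonempty → ∀ x ∈ σ u, ¬ W (bel (σ u) x)) ∧
    -- q4
    (∀ u, u.Nonempty → (σ u).Nonempty ∧ ∀ x ∈ σ u, 2 * sInf (u : Set ℕ) ≤ x) ∧
    -- q5
    (∀ u, u.Nonempty → ∀ x ∈ σ u,
      ((x = 2 * sInf (u : Set ℕ) ∨ ∃ j, x = 2 * Nat.pair (sInf (u : Set ℕ)) j + 1) ∧
        ¬ Act V lv (bel (σ u) x)) ∨
      ∃ n ∈ u, (bel u n).Nonempty ∧ x = 2 * n ∧ Inl W V lv θ σ n (bel u n) ∧
        bel (σ u) x = σ (bel u n)) ∧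
    -- q6
    (∀ u n, n ∈ u → (bel u n).Nonempty → Inl W V lv θ σ n (bel u n) →
      2 * n ∈ σ u ∧ bel (σ u) (2 * n) = σ (bel u n)) := by
  have q1 : ∀ u n, u.Nonempty → (∀ x ∈ u, x < n) → Ini (σ u) (σ (insert n u)) := by
    intro u n hu hn
    by_cases h : Inl W V lv θ σ n u
    · rw [hs2 u n hu hn h]
      exact (Ini_insert (Inl_imp h).1).trans' (hcp _ _).1
    · rw [hs3 u n hu hn h]
      exact Ini.refl _
  have hI1 : ∀ n, Ini (insert (2 * n) ∅) (σ {n}) := by
    intro n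
    rw [hs1, insert_empty_eq]
    exact (hcp n {2 * n}).1
  have hI2 : ∀ n (u : Finset ℕ), u.Nonempty → (∀ x ∈ u, x < n) → Inl W V lv θ σ n u →
      Ini (insert (2 * n) (σ u)) (σ (insert n u)) := by
    intro n u hu hn h
    rw [hs2 u n hu hn h]
    exact (hcp _ _).1
  have hb1 : ∀ n, bel (σ {n}) (2 * n) = ∅ := fun n =>
    bel_insert_Ini (hI1 n) (fun x hx => absurd hx (Finset.notMem_empty x))
  have hb2 : ∀ n (u : Finset ℕ), u.Nonempty → (∀ x ∈ u, x < n) → Inl W V lv θ σ n u →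
      bel (σ (insert n u)) (2 * n) = σ u := fun n u hu hn h =>
    bel_insert_Ini (hI2 n u hu hn h) (Inl_imp h).1
  -- new elements
  have hc1 : ∀ n, ∀ x ∈ σ {n}, x ≠ 2 * n → (∃ j, x = 2 * Nat.pair n j + 1) ∧
      ¬ W (bel (σ {n}) x) ∧ ¬ Act V lv (bel (σ {n}) x) := by
    intro n x hx hxn
    rw [hs1] at hx ⊢
    exact (hcp n {2 * n}).2.2 x hx (by rwa [Finset.mem_singleton])
  have hc2 : ∀ n (u : Finset ℕ), u.Nonempty → (∀ x ∈ u, x < n) → Inl W V lv θ σ n u →
      ∀ x ∈ σ (insert n u), x ≠ 2 * n → x ∉ σ u →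
      (∃ j, x = 2 * Nat.pair (sInf (u : Set ℕ)) j + 1) ∧
      ¬ W (bel (σ (insert n u)) x) ∧ ¬ Act V lv (bel (σ (insert n u)) x) := by
    intro n u hu hn h x hx hxn hxu
    rw [hs2 u n hu hn h] at hx ⊢
    refine (hcp _ _).2.2 x hx ?_
    rw [Finset.mem_insert]
    rintro (h1 | h1)
    · exact hxn h1
    · exact hxu h1
  refine ⟨q1, ?_, ?_, ?_, ?_, ?_⟩
  · -- q2
    apply ne_ind
    · intro n
      rw [hs1]
      exact (hcp _ _).2.1
    · intro n u hu hn ih
      by_cases h : Inl W V lv θ σ n u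
      · rw [hs2 u n hu hn h]
        exact (hcp _ _).2.1
      · rw [hs3 u n hu hn h]
        exact ih
  · -- q3
    apply ne_ind
    · intro n x hx
      by_cases hxn : x = 2 * n
      · rw [hxn, hb1]; exact hW0
      · exact (hc1 n x hx hxn).2.1
    · intro n u hu hn ih x hx
      by_cases h : Inl W V lv θ σ n u
      · by_cases hxu : x ∈ σ u
        · rw [bel_Ini (q1 u n hu hn) hxu]
          exact ih x hxu
        · by_cases hxn : x = 2 * n
          · rw [hxn, hb2 n u hu hn h]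
            exact (Inl_imp h).2.1
          · exact (hc2 n u hu hn h x hx hxn hxu).2.1
      · rw [hs3 u n hu hn h] at hx ⊢
        exact ih x hx
  · -- q4
    apply ne_ind
    · intro n
      rw [sInf_single]
      have h2n : 2 * n ∈ σ {n} := (hI1 n).1 (Finset.mem_insert_self _ _)
      refine ⟨⟨2 * n, h2n⟩, fun x hx => ?_⟩
      by_cases hxn : x = 2 * n
      · omega
      · have := (hI1 n).2 x hx (by
          rw [insert_empty_eq, Finset.mem_singleton]; exact hxn) (2 * n)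
          (Finset.mem_insert_self _ _)
        omega
    · intro n u hu hn ih
      rw [sInf_insert_max hu hn]
      have hm : sInf (u : Set ℕ) ∈ (u : Set ℕ) := Nat.sInf_mem hu
      have hmn := hn _ hm
      by_cases h : Inl W V lv θ σ n u
      · refine ⟨?_, fun x hx => ?_⟩
        · obtain ⟨y, hy⟩ := ih.1
          exact ⟨y, (q1 u n hu hn).1 hy⟩
        · by_cases hxu : x ∈ σ u
          · exact ih.2 x hxu
          · by_cases hxn : x = 2 * n
            · omega
            · have := (hI2 n u hu hn h).2 x hx (by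
                rw [Finset.mem_insert]
                rintro (h1 | h1)
                · exact hxn h1
                · exact hxu h1) (2 * n) (Finset.mem_insert_self _ _)
              omega
      · rw [hs3 u n hu hn h]
        exact ih
  · -- q5
    apply ne_ind
    · intro n x hx
      left
      rw [sInf_single]
      by_cases hxn : x = 2 * n
      · exact ⟨Or.inl hxn, by rw [hxn, hb1]; exact hA0⟩
      · exact ⟨Or.inr (hc1 n x hx hxn).1, (hc1 n x hx hxn).2.2⟩
    · intro n u hu hn ih x hx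
      rw [sInf_insert_max hu hn]
      -- old elements
      have hold : x ∈ σ u → bel (σ (insert n u)) x = bel (σ u) x →
          ((x = 2 * sInf (u : Set ℕ) ∨ ∃ j, x = 2 * Nat.pair (sInf (u : Set ℕ)) j + 1) ∧
            ¬ Act V lv (bel (σ (insert n u)) x)) ∨
          ∃ k ∈ insert n u, (bel (insert n u) k).Nonempty ∧ x = 2 * k ∧
            Inl W V lv θ σ k (bel (insert n u) k) ∧
            bel (σ (insert n u)) x = σ (bel (insert n u) k) := by
        intro hxu hb
        rcases ih x hxu with h1 | ⟨k, hk, h1, h2, h3, h4⟩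
        · left
          rw [hb]; exact h1
        · right
          refine ⟨k, Finset.mem_insert_of_mem hk, ?_⟩
          rw [bel_insert_lt (hn k hk), hb]
          exact ⟨h1, h2, h3, h4⟩
      by_cases h : Inl W V lv θ σ n u
      · by_cases hxu : x ∈ σ u
        · exact hold hxu (bel_Ini (q1 u n hu hn) hxu)
        · by_cases hxn : x = 2 * n
          · right
            refine ⟨n, Finset.mem_insert_self n u, ?_⟩
            rw [bel_insert_max hn, hxn]
            exact ⟨hu, rfl, h, hb2 n u hu hn h⟩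
          · left
            exact ⟨Or.inr (hc2 n u hu hn h x hx hxn hxu).1, (hc2 n u hu hn h x hx hxn hxu).2.2⟩
      · have hxu : x ∈ σ u := by rwa [hs3 u n hu hn h] at hx
        exact hold hxu (bel_Ini (q1 u n hu hn) hxu)
  · -- q6
    intro u
    induction u using Finset.induction_on_max with
    | empty => intro n hn; exact absurd hn (Finset.notMem_empty n)
    | insert a s hs ih =>
      intro n hn hne hInl
      rcases Finset.mem_insert.mp hn with rfl | hns
      · rw [bel_insert_max hs] at hne hInl ⊢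
        exact ⟨(hI2 n s hne hs hInl).1 (Finset.mem_insert_self _ _), hb2 n s hne hs hInl⟩
      · rw [bel_insert_lt (hs n hns)] at hne hInl ⊢
        obtain ⟨h1, h2⟩ := ih n hns hne hInl
        have h3 := q1 s a ⟨n, hns⟩ hs
        exact ⟨h3.1 h1, by rw [bel_Ini h3 h1, h2]⟩

end Elton955.Props
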