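import Pool.Agent.Elton955.Defs
open Filter Finset Topology

namespace Elton955.Rec
open Elton955



/-- stages of the recursion -/
def recSt (G : (Finset ℕ → Finset ℕ) → ℕ → Finset ℕ → Finset ℕ) : ℕ → Finset ℕ → Finset ℕ
  | 0, _ => ∅
  | N + 1, u => if N ∈ u then G (recSt G N) N (u.filter (· < N)) else recSt G N u

theorem recSt_mono (G : (Finset ℕ → Finset ℕ) → ℕ → Finset ℕ → Finset ℕ) (N : ℕ) (v : Finset ℕ)
    (hv : ∀ x ∈ v, x < N) (M : ℕ) (hM : N ≤ M) : recSt G M v = recSt G N v := by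
  induction M, hM using Nat.le_induction with
  | base => rfl
  | succ M hM ih =>
    rw [recSt, if_neg, ih]
    intro h
    exact absurd (hv M h) (by omega)

theorem recSt_eq (G : (Finset ℕ → Finset ℕ) → ℕ → Finset ℕ → Finset ℕ) (N : ℕ) (v : Finset ℕ)
    (hv : ∀ x ∈ v, x < N) : recSt G (v.sup id + 1) v = recSt G N v := by
  have h1 : ∀ x ∈ v, x < v.sup id + 1 := fun x hx =>
    Nat.lt_succ_of_le (Finset.le_sup (f := id) hx)
  rcases v.eq_empty_or_nonempty with rfl | hne
  · rw [recSt_mono G 0 ∅ (by simp) _ (Nat.zero_le _), recSt_mono G 0 ∅ (by simp) N (Nat.zero_le _)]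
  · obtain ⟨x, hx⟩ := hne
    have h2 : v.sup id < N := by
      rw [Finset.sup_lt_iff (Nat.zero_lt_of_lt (hv x hx))]
      exact hv
    exact (recSt_mono G _ v h1 N h2).symm

/-- recursion on the maximum of a finite set -/
theorem exists_rec (G : (Finset ℕ → Finset ℕ) → ℕ → Finset ℕ → Finset ℕ)
    (hG : ∀ (s s' : Finset ℕ → Finset ℕ) (n : ℕ) (u : Finset ℕ), (∀ x ∈ u, x < n) →
      (∀ v : Finset ℕ, (∀ x ∈ v, x < n) → s v = s' v) → G s n u = G s' n u) :
    ∃ s : Finset ℕ → Finset ℕ, s ∅ = ∅ ∧ ∀ u n, (∀ x ∈ u, x < n) → s (insert n u) = G s n u := by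
  refine ⟨fun u => recSt G (u.sup id + 1) u, ?_, ?_⟩
  · show recSt G _ ∅ = ∅
    rw [recSt_mono G 0 ∅ (by simp) _ (Nat.zero_le _)]
    rfl
  · intro u n hu
    show recSt G _ (insert n u) = _
    rw [recSt_eq G (n + 1) (insert n u) (by
      intro x hx
      rcases Finset.mem_insert.1 hx with rfl | hx
      · exact Nat.lt_succ_self _
      · exact (hu x hx).trans (Nat.lt_succ_self _))]
    rw [recSt, if_pos (Finset.mem_insert_self n u)]
    have h1 : (insert n u).filter (· < n) = u := by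
      ext x
      rw [Finset.mem_filter, Finset.mem_insert]
      constructor
      · rintro ⟨rfl | hx, hlt⟩
        · exact absurd hlt (lt_irrefl _)
        · exact hx
      · intro hx
        exact ⟨Or.inr hx, hu x hx⟩
    rw [h1]
    exact hG _ _ n u hu fun v hv => (recSt_eq G n v hv).symm

end Elton955.Rec
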