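import Pool.Agent.Elton955.Defs
open Filter Finset Topology

namespace Elton955.Sum
open Elton955






theorem mem_bel {e : Finset ℕ} {n x : ℕ} : x ∈ bel e n ↔ x ∈ e ∧ x < n := by
  simp [bel]

theorem inl_card (W : Finset ℕ → Prop) (V : Finset ℕ → ℝ) (lv : Finset ℕ → ℕ) (θ : ℕ → ℝ)
    (σ : Finset ℕ → Finset ℕ) (n : ℕ) (u : Finset ℕ) (h : Inl W V lv θ σ n u) :
    2 ≤ u.card ∧ Act V lv (σ u) := by
  rcases h with ⟨w, v, rfl, h1, h2, h3, h4, h5, h6, h7, h8, h9⟩ | ⟨w, h1, h2, h3, h4, h5, h6, h7, h8, h9⟩
  · exact ⟨h2.trans (Finset.card_le_card (Finset.subset_insert _ _)), h8⟩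
  · exact ⟨h2, h7⟩

theorem cl_sum (W : Finset ℕ → Prop) (V : Finset ℕ → ℝ) (lv : Finset ℕ → ℕ) (θ : ℕ → ℝ)
    (σ : Finset ℕ → Finset ℕ) (c : ℕ → ℝ) (B D ε : ℝ)
    (hc : ∀ l, 0 ≤ c l ∧ c l ≤ B) (hθ : ∀ w, 0 < θ w)
    (hθs : ∀ N, ∑ w ∈ range N, θ w * D * B ≤ ε)
    (hD : ∀ e, (∀ n ∈ e, ¬ W (bel e n)) →
      ∑ n ∈ e, (open Classical in if Act V lv (bel e n) then V (bel e n) else 0) ≤ D)
    (q3 : ∀ u, u.Nonempty → ∀ x ∈ σ u, ¬ W (bel (σ u) x))
    (q5 : ∀ u, u.Nonempty → ∀ x ∈ σ u,
      ((x = 2 * sInf (u : Set ℕ) ∨ ∃ j, x = 2 * Nat.pair (sInf (u : Set ℕ)) j + 1) ∧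
        ¬ Act V lv (bel (σ u) x)) ∨
      ∃ n ∈ u, (bel u n).Nonempty ∧ x = 2 * n ∧ Inl W V lv θ σ n (bel u n) ∧
        bel (σ u) x = σ (bel u n))
    (q6 : ∀ u n, n ∈ u → (bel u n).Nonempty → Inl W V lv θ σ n (bel u n) →
      2 * n ∈ σ u ∧ bel (σ u) (2 * n) = σ (bel u n))
    (u : Finset ℕ) (hu : u.Nonempty) (huW : W (σ u)) :
    ∃ T S : Finset ℕ, W T ∧ (∀ n ∈ T, ¬ W (bel T n)) ∧ (∀ n ∈ S, ¬ W (bel S n)) ∧
      (∀ n ∈ T, n ∈ S → Act V lv (bel T n) ∧ Act V lv (bel S n)) ∧
      (∑ n ∈ T, (open Classical in if Act V lv (bel T n) then V (bel T n) * c (lv (bel T n)) else 0)) - ε ≤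
        ∑ n ∈ T ∩ S, (if lv (bel T n) ≤ lv (bel S n) then V (bel T n) * c (lv (bel T n)) else 0) := by
  classical
  have hε : 0 ≤ ε := by simpa using hθs 0
  have hB : 0 ≤ B := (hc 0).1.trans (hc 0).2
  obtain ⟨w0, hw0⟩ : ∃ w0, w0 = sInf (u : Set ℕ) := ⟨_, rfl⟩
  have hw0u : w0 ∈ u := by
    rw [hw0]
    have : sInf (u : Set ℕ) ∈ (u : Set ℕ) := Nat.sInf_mem (by simpa using hu)
    simpa using this
  have hw0le : ∀ y ∈ u, w0 ≤ y := fun y hy => by
    rw [hw0]; exact Nat.sInf_le (by simpa using hy)
  obtain ⟨u1, hu1⟩ : ∃ u1, u1 = u.erase w0 := ⟨_, rfl⟩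
  by_cases hne : u1.Nonempty
  · -- main case
    obtain ⟨w1, hw1⟩ : ∃ w1, w1 = sInf (u1 : Set ℕ) := ⟨_, rfl⟩
    have hw1u : w1 ∈ u1 := by
      rw [hw1]
      have : sInf (u1 : Set ℕ) ∈ (u1 : Set ℕ) := Nat.sInf_mem (by simpa using hne)
      simpa using this
    have hw1le : ∀ y ∈ u1, w1 ≤ y := fun y hy => by
      rw [hw1]; exact Nat.sInf_le (by simpa using hy)
    have hw01 : w0 ≠ w1 := by
      intro h
      rw [hu1] at hw1u
      exact (Finset.mem_erase.1 hw1u).1 h.symm
    have hw0n : w0 ∉ u1 := by rw [hu1]; exact Finset.notMem_erase _ _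
    have hTS : ∀ n ∈ σ u, n ∈ σ u1 → Act V lv (bel (σ u) n) ∧ Act V lv (bel (σ u1) n) := by
      intro x hxT hxS
      have h1 := q5 u hu x hxT
      have h2 := q5 u1 hne x hxS
      rw [← hw0] at h1
      rw [← hw1] at h2
      rcases h1 with ⟨h1, h1'⟩ | ⟨n, hn, hbn, hxn, hInl, hbel⟩
      · exfalso
        rcases h2 with ⟨h2, h2'⟩ | ⟨n', hn', hbn', hxn', hInl', hbel'⟩
        · rcases h1 with h1 | ⟨j, h1⟩
          · rcases h2 with h2 | ⟨j', h2⟩
            · apply hw01; omega
            · omega
          · rcases h2 with h2 | ⟨j', h2⟩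
            · omega
            · have h3 : Nat.pair w0 j = Nat.pair w1 j' := by omega
              exact hw01 (Nat.pair_eq_pair.1 h3).1
        · rcases h1 with h1 | ⟨j, h1⟩
          · have h3 : n' = w0 := by omega
            rw [h3] at hn'
            exact hw0n hn'
          · omega
      · obtain ⟨hcard, hact⟩ := inl_card W V lv θ σ n _ hInl
        rw [hbel]
        refine ⟨hact, ?_⟩
        rcases h2 with ⟨h2, h2'⟩ | ⟨n', hn', hbn', hxn', hInl', hbel'⟩
        · exfalso
          rcases h2 with h2 | ⟨j', h2⟩
          · have h3 : n = w1 := by omega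
            have h4 : bel u n ⊆ {w0} := by
              intro y hy
              rw [mem_bel] at hy
              rw [Finset.mem_singleton]
              by_contra hyw
              have h5 : y ∈ u1 := by rw [hu1]; exact Finset.mem_erase.2 ⟨hyw, hy.1⟩
              have h6 := hw1le y h5
              omega
            have h5 := Finset.card_le_card h4
            rw [Finset.card_singleton] at h5
            omega
          · omega
        · obtain ⟨hcard', hact'⟩ := inl_card W V lv θ σ n' _ hInl'
          rw [hbel']
          exact hact'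
    refine ⟨σ u, σ u1, huW, q3 u hu, q3 u1 hne, hTS, ?_⟩
    -- the comparison
    let g : ℕ → ℕ → ℝ := fun w x =>
      if Act V lv (bel (σ (insert w u)) x) then V (bel (σ (insert w u)) x) else 0
    have hg0 : ∀ w x, 0 ≤ g w x := by
      intro w x
      show 0 ≤ if Act V lv (bel (σ (insert w u)) x) then V (bel (σ (insert w u)) x) else 0
      split_ifs with h
      · exact h.2.le
      · exact le_refl _
    let R : ℕ → ℝ := fun x =>
      if lv (bel (σ u) x) ≤ lv (bel (σ u1) x) then V (bel (σ u) x) * c (lv (bel (σ u) x)) else 0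
    have hR0 : ∀ x ∈ σ u, x ∈ σ u1 → 0 ≤ R x := by
      intro x hx hx'
      show 0 ≤ if lv (bel (σ u) x) ≤ lv (bel (σ u1) x) then V (bel (σ u) x) * c (lv (bel (σ u) x)) else 0
      split_ifs with h
      · exact mul_nonneg (hTS x hx hx').1.2.le (hc _).1
      · exact le_refl _
    have hterm0 : ∀ w x, 0 ≤ θ w * B * (if x ∈ σ (insert w u) then g w x else 0) := by
      intro w x
      apply mul_nonneg (mul_nonneg (hθ w).le hB)
      split_ifs
      · exact hg0 w x
      · exact le_refl _
    have hsum0 : ∀ x, 0 ≤ ∑ w ∈ range w0, θ w * B * (if x ∈ σ (insert w u) then g w x else 0) :=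
      fun x => Finset.sum_nonneg fun w _ => hterm0 w x
    have hpt : ∀ x ∈ σ u, (if Act V lv (bel (σ u) x) then V (bel (σ u) x) * c (lv (bel (σ u) x)) else 0)
        ≤ (if x ∈ σ u1 then R x else 0) +
          ∑ w ∈ range w0, θ w * B * (if x ∈ σ (insert w u) then g w x else 0) := by
      intro x hx
      by_cases hact : Act V lv (bel (σ u) x)
      · rw [if_pos hact]
        rcases q5 u hu x hx with ⟨-, h1'⟩ | ⟨n, hn, hbn, hxn, hInl, hbel⟩
        · exact absurd hact h1'
        · have hw0n' : w0 < n := by
            obtain ⟨y, hy⟩ := hbn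
            rw [mem_bel] at hy
            exact (hw0le y hy.1).trans_lt hy.2
          have hw0b : w0 ∈ bel u n := mem_bel.2 ⟨hw0u, hw0n'⟩
          rcases hInl with ⟨w, v, hwv, hInc⟩ | ⟨w, hInc⟩
          · -- case A
            have hInc' := hInc
            obtain ⟨h1, h2, h3, h4, h5, h6, h7, h8, h9, h10⟩ := hInc
            have hwu : w ∈ bel u n := by rw [hwv]; exact Finset.mem_insert_self _ _
            have hww0 : w = w0 := by
              rw [hwv, Finset.mem_insert] at hw0b
              rcases hw0b with h | h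
              · exact h.symm
              · have h11 := h1 w0 h
                have h12 := hw0le w (mem_bel.1 hwu).1
                omega
            have hwnv : w ∉ v := fun h => lt_irrefl _ (h1 w h)
            have hv : v = bel u1 n := by
              ext y
              rw [mem_bel, hu1, Finset.mem_erase]
              constructor
              · intro hy
                have h11 : y ∈ bel u n := by rw [hwv]; exact Finset.mem_insert_of_mem hy
                rw [mem_bel] at h11
                refine ⟨⟨?_, h11.1⟩, h11.2⟩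
                rintro rfl
                exact hwnv (hww0 ▸ hy)
              · rintro ⟨⟨hy1, hy2⟩, hy3⟩
                have h11 : y ∈ bel u n := mem_bel.2 ⟨hy2, hy3⟩
                rw [hwv, Finset.mem_insert] at h11
                rcases h11 with h11 | h11
                · exact absurd (h11.trans hww0) hy1
                · exact h11
            have hnu1 : n ∈ u1 := by
              rw [hu1]; exact Finset.mem_erase.2 ⟨by omega, hn⟩
            have hvne : (bel u1 n).Nonempty := by
              rw [← hv]
              apply Finset.card_pos.1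
              omega
            have hInl1 : Inl W V lv θ σ n (bel u1 n) := by
              right
              refine ⟨w, ?_⟩
              rw [← hv]
              exact hInc'
            obtain ⟨k1, k2⟩ := q6 u1 n hnu1 hvne hInl1
            have hxS : x ∈ σ u1 := by rw [hxn]; exact k1
            rw [if_pos hxS]
            have hRx : R x = V (bel (σ u) x) * c (lv (bel (σ u) x)) := by
              show (if lv (bel (σ u) x) ≤ lv (bel (σ u1) x) then
                V (bel (σ u) x) * c (lv (bel (σ u) x)) else 0) = _
              rw [if_pos]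
              rw [hbel, hxn, k2, hwv, ← hv]
              exact h9
            rw [hRx]
            have := hsum0 x
            linarith
          · -- case B
            have hInc' := hInc
            obtain ⟨h1, h2, h3, h4, h5, h6, h7, h8, h9, h10⟩ := hInc
            have hww0 : w < w0 := h1 w0 hw0b
            have hbP : bel (insert w u) n = insert w (bel u n) := by
              ext y
              rw [mem_bel, Finset.mem_insert, Finset.mem_insert, mem_bel]
              constructor
              · rintro ⟨h | h, h'⟩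
                · exact Or.inl h
                · exact Or.inr ⟨h, h'⟩
              · rintro (h | ⟨h, h'⟩)
                · exact ⟨Or.inl h, by omega⟩
                · exact ⟨Or.inr h, h'⟩
            obtain ⟨k1, k2⟩ := q6 (insert w u) n (Finset.mem_insert_of_mem hn)
              (by rw [hbP]; exact Finset.insert_nonempty _ _)
              (by
                left
                exact ⟨w, bel u n, hbP, hInc'⟩)
            have hxP : x ∈ σ (insert w u) := by rw [hxn]; exact k1
            have hbx : bel (σ (insert w u)) x = σ (insert w (bel u n)) := by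
              rw [hxn, k2, hbP]
            have hgx : g w x = V (σ (insert w (bel u n))) := by
              show (if Act V lv (bel (σ (insert w u)) x) then V (bel (σ (insert w u)) x) else 0) = _
              rw [hbx, if_pos h8]
            have hle : V (bel (σ u) x) * c (lv (bel (σ u) x)) ≤
                θ w * B * (if x ∈ σ (insert w u) then g w x else 0) := by
              rw [if_pos hxP, hgx, hbel]
              have e1 : V (σ (bel u n)) * c (lv (σ (bel u n))) ≤ V (σ (bel u n)) * B :=
                mul_le_mul_of_nonneg_left (hc _).2 h7.2.le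
              have e2 : V (σ (bel u n)) * B ≤ (θ w * V (σ (insert w (bel u n)))) * B :=
                mul_le_mul_of_nonneg_right h10 hB
              calc _ ≤ _ := e1
                _ ≤ _ := e2
                _ = _ := by ring
            have hsingle : θ w * B * (if x ∈ σ (insert w u) then g w x else 0) ≤
                ∑ w ∈ range w0, θ w * B * (if x ∈ σ (insert w u) then g w x else 0) :=
              Finset.single_le_sum (f := fun w => θ w * B * (if x ∈ σ (insert w u) then g w x else 0))
                (fun w _ => hterm0 w x) (Finset.mem_range.2 hww0)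
            have hRn : 0 ≤ (if x ∈ σ u1 then R x else 0) := by
              split_ifs with h
              · exact hR0 x hx h
              · exact le_refl _
            linarith
      · rw [if_neg hact]
        have hRn : 0 ≤ (if x ∈ σ u1 then R x else 0) := by
          split_ifs with h
          · exact hR0 x hx h
          · exact le_refl _
        have := hsum0 x
        linarith
    have h1 := Finset.sum_le_sum hpt
    rw [Finset.sum_add_distrib, Finset.sum_comm] at h1
    have h2 : ∑ x ∈ σ u, (if x ∈ σ u1 then R x else 0) = ∑ x ∈ σ u ∩ σ u1, R x := by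
      rw [Finset.sum_ite_mem]
    have h3 : ∑ w ∈ range w0, ∑ x ∈ σ u, θ w * B * (if x ∈ σ (insert w u) then g w x else 0) ≤ ε := by
      refine le_trans (Finset.sum_le_sum fun w _ => ?_) (hθs w0)
      rw [← Finset.mul_sum, Finset.sum_ite_mem]
      have h4 : ∑ x ∈ σ u ∩ σ (insert w u), g w x ≤ D := by
        refine le_trans (Finset.sum_le_sum_of_subset_of_nonneg Finset.inter_subset_right
          (fun x _ _ => hg0 w x)) ?_
        exact hD (σ (insert w u)) (q3 _ (Finset.insert_nonempty _ _))
      calc θ w * B * ∑ x ∈ σ u ∩ σ (insert w u), g w x ≤ θ w * B * D :=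
            mul_le_mul_of_nonneg_left h4 (mul_nonneg (hθ w).le hB)
        _ = θ w * D * B := by ring
    rw [h2] at h1
    have h5 : ∑ x ∈ σ u ∩ σ u1, R x = ∑ n ∈ σ u ∩ σ u1,
      (if lv (bel (σ u) n) ≤ lv (bel (σ u1) n) then V (bel (σ u) n) * c (lv (bel (σ u) n)) else 0) := rfl
    rw [h5] at h1
    linarith
  · -- degenerate case
    refine ⟨σ u, ∅, huW, q3 u hu, by simp, by simp, ?_⟩
    have hz : ∀ x ∈ σ u, (if Act V lv (bel (σ u) x) then V (bel (σ u) x) * c (lv (bel (σ u) x)) else 0)
        = 0 := by
      intro x hx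
      rw [if_neg]
      rcases q5 u hu x hx with ⟨-, h1'⟩ | ⟨n, hn, hbn, hxn, hInl, hbel⟩
      · exact h1'
      · exfalso
        have h1 : ∀ y ∈ u, y = w0 := by
          intro y hy
          by_contra hy'
          exact hne ⟨y, by rw [hu1]; exact Finset.mem_erase.2 ⟨hy', hy⟩⟩
        obtain ⟨y, hy⟩ := hbn
        rw [mem_bel] at hy
        have h2 := h1 y hy.1
        have h3 := h1 n hn
        omega
    rw [Finset.sum_eq_zero hz]
    simp [hε]

end Elton955.Sum
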