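import Pool.Agent.Elton955.Wf
import Pool.Agent.Elton955.Leaf
import Pool.Agent.Elton955.Compl
import Pool.Agent.Elton955.Rec
import Pool.Agent.Elton955.Props
import Pool.Agent.Elton955.Sum
open Filter Finset Topology

namespace Elton955.CLm
open Elton955
open Elton955.Wf (wf_ext)
open Elton955.Leaf (leaf_exists_aux)
open Elton955.Compl (compl_exists)
open Elton955.Rec (exists_rec)
open Elton955.Props (sigma_props)
open Elton955.Sum (cl_sum)

theorem CL (W : Finset ℕ → Prop) (V : Finset ℕ → ℝ) (lv : Finset ℕ → ℕ) (c : ℕ → ℝ)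
    (L : ℕ) (B D ε : ℝ)
    (hWext : ∀ e n, (∀ x ∈ e, x < n) → W e → W (insert n e))
    (hWinf : ∀ m : ℕ → ℕ, StrictMono m → ∃ t, W ((range t).image m))
    (hW0 : ¬ W ∅) (hA0 : ¬ Act V lv ∅)
    (hlv : ∀ e, lv e ≤ L) (hc : ∀ l, 0 ≤ c l ∧ c l ≤ B)
    (hD : ∀ e, (∀ n ∈ e, ¬ W (bel e n)) →
      ∑ n ∈ e, (open Classical in if Act V lv (bel e n) then V (bel e n) else 0) ≤ D)
    (hV : ∀ (e : Finset ℕ) (N : ℕ), e.Nonempty → (∀ x ∈ e, N ≤ x) → Act V lv e →
      V e ≤ 1 / ((N : ℝ) + 1))
    (hε : 0 < ε) :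
    ∃ T S : Finset ℕ, W T ∧ (∀ n ∈ T, ¬ W (bel T n)) ∧ (∀ n ∈ S, ¬ W (bel S n)) ∧
      (∀ n ∈ T, n ∈ S → Act V lv (bel T n) ∧ Act V lv (bel S n)) ∧
      (∑ n ∈ T, (open Classical in if Act V lv (bel T n) then V (bel T n) * c (lv (bel T n)) else 0)) - ε ≤
        ∑ n ∈ T ∩ S, (if lv (bel T n) ≤ lv (bel S n) then V (bel T n) * c (lv (bel T n)) else 0) := by
  classical
  have hwf := wf_ext W hWext hWinf
  have hD0 : 0 ≤ D := by
    have := hD ∅ (by simp)
    simpa using this
  have hB0 : 0 ≤ B := (hc 0).1.trans (hc 0).2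
  -- choose theta
  set κ : ℝ := ε / (D * B + 1) with hκ
  have hDB : 0 < D * B + 1 := by positivity
  have hκ0 : 0 < κ := div_pos hε hDB
  set θ : ℕ → ℝ := fun w => κ / 2 ^ (w + 1) with hθd
  have hθ : ∀ w, 0 < θ w := fun w => by simp only [hθd]; positivity
  have hθs : ∀ N, ∑ w ∈ range N, θ w * D * B ≤ ε := by
    intro N
    have h1 : ∑ w ∈ range N, θ w ≤ κ := by
      have h2 : ∀ N : ℕ, ∑ w ∈ range N, θ w = κ * (1 - 1 / 2 ^ N) := by
        intro N
        induction N with
        | zero => simp
        | succ N ih =>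
          rw [Finset.sum_range_succ, ih]
          simp only [hθd]
          field_simp
          ring
      rw [h2]
      have : (0 : ℝ) < 1 / 2 ^ N := by positivity
      nlinarith
    calc ∑ w ∈ range N, θ w * D * B = (∑ w ∈ range N, θ w) * (D * B) := by
          rw [Finset.sum_mul]; exact Finset.sum_congr rfl (fun w _ => by ring)
      _ ≤ κ * (D * B) := mul_le_mul_of_nonneg_right h1 (by positivity)
      _ ≤ κ * (D * B + 1) := by nlinarith
      _ = ε := by rw [hκ]; field_simp
  choose cp hcp1 hcp2 hcp3 using fun w e => compl_exists W (Act V lv) hwf w e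
  -- the state functional
  obtain ⟨σ, hσ0, hσ⟩ := exists_rec
    (fun s n u => if u = ∅ then cp n {2 * n} else
      if Inl W V lv θ s n u then cp (sInf (u : Set ℕ)) (insert (2 * n) (s u)) else s u)
    (by
      intro s s' n u hu hs
      by_cases h0 : u = ∅
      · simp [h0]
      · rw [if_neg h0, if_neg h0]
        have hsu : s u = s' u := hs u hu
        have hInc : ∀ w v, (∀ x ∈ v, x < n) → (∀ x ∈ insert w v, x < n) →
            (Inc W V lv θ s n w v ↔ Inc W V lv θ s' n w v) := by
          intro w v hv hwv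
          unfold Inc
          rw [hs v hv, hs (insert w v) hwv]
        have hInl : Inl W V lv θ s n u ↔ Inl W V lv θ s' n u := by
          unfold Inl
          have hne : u.Nonempty := Finset.nonempty_iff_ne_empty.mpr h0
          constructor
          · rintro (⟨w, v, huv, hI⟩ | ⟨w, hI⟩)
            · left
              refine ⟨w, v, huv, (hInc w v (fun x hx => hu x (by rw [huv]; exact mem_insert_of_mem hx)) (fun x hx => hu x (by rw [huv]; exact hx))).1 hI⟩
            · right
              refine ⟨w, (hInc w u hu ?_).1 hI⟩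
              intro x hx
              rcases mem_insert.1 hx with rfl | hx
              · obtain ⟨y, hy⟩ := hne
                exact (hI.1 y hy).trans (hu y hy)
              · exact hu x hx
          · rintro (⟨w, v, huv, hI⟩ | ⟨w, hI⟩)
            · left
              refine ⟨w, v, huv, (hInc w v (fun x hx => hu x (by rw [huv]; exact mem_insert_of_mem hx)) (fun x hx => hu x (by rw [huv]; exact hx))).2 hI⟩
            · right
              refine ⟨w, (hInc w u hu ?_).2 hI⟩
              intro x hx
              rcases mem_insert.1 hx with rfl | hx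
              · obtain ⟨y, hy⟩ := hne
                exact (hI.1 y hy).trans (hu y hy)
              · exact hu x hx
        rw [hsu]
        by_cases hI : Inl W V lv θ s n u
        · rw [if_pos hI, if_pos (hInl.1 hI)]
        · rw [if_neg hI, if_neg (fun h => hI (hInl.2 h))])
  have hs1 : ∀ n, σ {n} = cp n {2 * n} := by
    intro n
    have := hσ ∅ n (by simp)
    simpa using this
  have hs2 : ∀ u n, u.Nonempty → (∀ x ∈ u, x < n) → Inl W V lv θ σ n u →
      σ (insert n u) = cp (sInf (u : Set ℕ)) (insert (2 * n) (σ u)) := by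
    intro u n hu hx hI
    have := hσ u n hx
    rw [this, if_neg hu.ne_empty, if_pos hI]
  have hs3 : ∀ u n, u.Nonempty → (∀ x ∈ u, x < n) → ¬ Inl W V lv θ σ n u →
      σ (insert n u) = σ u := by
    intro u n hu hx hI
    have := hσ u n hx
    rw [this, if_neg hu.ne_empty, if_neg hI]
  obtain ⟨q1, q2, q3, q4, q5, q6⟩ := sigma_props W V lv θ σ cp hW0 hA0
    (fun w e => ⟨hcp1 w e, hcp2 w e, hcp3 w e⟩) hs1 hs2 hs3
  -- some state is a leaf
  by_cases hleaf : ∃ u : Finset ℕ, u.Nonempty ∧ W (σ u)
  · obtain ⟨u, hu, huW⟩ := hleaf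
    exact cl_sum W V lv θ σ c B D ε hc hθ hθs hD q3 q5 q6 u hu huW
  · exfalso
    push Not at hleaf
    have hact : ∀ u, u.Nonempty → Act V lv (σ u) := fun u hu => (q2 u hu).resolve_left (hleaf u hu)
    refine leaf_exists_aux σ W V lv L θ hθ hwf hlv q1 hleaf (fun u hu => (hact u hu).2) ?_ ?_
    · intro u N hu hN
      refine hV (σ u) N (q4 u hu).1 ?_ (hact u hu)
      intro x hx
      have h1 := (q4 u hu).2 x hx
      have h2 : sInf (u : Set ℕ) ∈ (u : Set ℕ) := Nat.sInf_mem hu
      have h3 := hN _ h2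
      omega
    · intro v w n hv hwv hvn hσv hσwv hl hVV heq
      have hvne : v.Nonempty := Finset.card_pos.1 (by omega)
      have hwne : (insert w v).Nonempty := Finset.insert_nonempty w v
      have hI : Inl W V lv θ σ n (insert w v) := by
        left
        exact ⟨w, v, rfl, hwv, hv, hσv, hσwv, hleaf v hvne, hleaf _ hwne, hact v hvne,
          hact _ hwne, hl, hVV⟩
      have hlt : ∀ x ∈ insert w v, x < n := by
        intro x hx
        rcases mem_insert.1 hx with rfl | hx
        · obtain ⟨y, hy⟩ := hvne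
          exact (hwv y hy).trans (hvn y hy)
        · exact hvn x hx
      have h1 := hs2 (insert w v) n hwne hlt hI
      rw [heq] at h1
      have h2 : 2 * n ∈ cp (sInf ((insert w v : Finset ℕ) : Set ℕ)) (insert (2 * n) (σ (insert w v))) :=
        (hcp1 _ _).1 (mem_insert_self _ _)
      rw [← h1] at h2
      exact absurd (hσwv _ h2) (lt_irrefl _)

end Elton955.CLm
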