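import Pool.Agent.Elton955.Defs
open Filter Finset Topology

namespace Elton955.Contra
open Elton955




theorem fs_geom (s : Finset ℕ) : ∑ i ∈ s, (1 / 100 : ℝ) / 2 ^ i ≤ 1 / 50 := by
  have h1 : Summable fun i : ℕ => (1 / 100 : ℝ) / 2 ^ i := by
    have := summable_geometric_two.mul_left (1 / 100 : ℝ)
    refine this.congr fun i => ?_
    rw [one_div_pow]
    ring
  have h2 : ∑' i : ℕ, (1 / 100 : ℝ) / 2 ^ i = 1 / 50 := by
    have h3 : ∑' i : ℕ, (1 / 100 : ℝ) / 2 ^ i = 1 / 100 * ∑' i : ℕ, ((1 : ℝ) / 2) ^ i := by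
      rw [← tsum_mul_left]
      refine tsum_congr fun i => ?_
      rw [one_div_pow]
      ring
    rw [h3, tsum_geometric_two]
    norm_num
  rw [← h2]
  exact h1.sum_le_tsum s fun i _ => by positivity

theorem fs_contra (W : Finset ℕ → Prop) (V : Finset ℕ → ℝ) (lv : Finset ℕ → ℕ)
    (f : Finset ℕ → ℕ → ℝ) (A : Finset ℕ → ℕ → ℝ) (Λ : Finset ℕ → ℕ → ℕ) (δ : ℝ) (hδ : 0 < δ)
    (k1 : ∀ S T : Finset ℕ, |∑ i ∈ S, A S i * f T i| ≤ 2)
    (k2 : ∀ e i, |A e i| ≤ 4)
    (k3 : ∀ e i, Λ e i ≠ 0 → δ * 2 ^ (Λ e i - 1) ≤ A e i ∧ A e i ≤ δ * 2 ^ (Λ e i) ∧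
        0 ≤ f e i)
    (k4 : ∀ e, W e → 6 ≤ ∑ i ∈ e, (if Λ e i ≠ 0 then A e i * f e i else 0))
    (k5 : ∀ e, (∀ n ∈ e, ¬ W (bel e n)) → ∀ i,
        (i ∈ e → |f e i - V (bel e i)| ≤ (1 / 100) / 2 ^ i ∧ Λ e i = lv (bel e i)) ∧
        (i ∉ e → |f e i| ≤ (1 / 100) / 2 ^ i))
    (T S : Finset ℕ) (hT : W T) (hT1 : ∀ n ∈ T, ¬ W (bel T n)) (hS1 : ∀ n ∈ S, ¬ W (bel S n))
    (hTS : ∀ n ∈ T, n ∈ S → Act V lv (bel T n) ∧ Act V lv (bel S n))
    (hsum : (∑ n ∈ T, (open Classical in if Act V lv (bel T n) then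
        V (bel T n) * min (δ * 2 ^ (lv (bel T n) - 1)) 4 else 0)) - 1 / 10 ≤
      ∑ n ∈ T ∩ S, (if lv (bel T n) ≤ lv (bel S n) then
        V (bel T n) * min (δ * 2 ^ (lv (bel T n) - 1)) 4 else 0)) : False := by
  classical
  have hη : ∀ i : ℕ, (0 : ℝ) < (1 / 100) / 2 ^ i := fun i => by positivity
  -- (a), (b)
  have hab : ∀ i ∈ S, (if i ∈ T then (if lv (bel T i) ≤ lv (bel S i) then
        V (bel T i) * min (δ * 2 ^ (lv (bel T i) - 1)) 4 else 0) else 0) -
        4 * ((1 / 100) / 2 ^ i) ≤ A S i * f T i := by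
    intro i hiS
    have hA := k2 S i
    by_cases hiT : i ∈ T
    · rw [if_pos hiT]
      obtain ⟨hactT, hactS⟩ := hTS i hiT hiS
      obtain ⟨hfT, hΛT⟩ := (k5 T hT1 i).1 hiT
      obtain ⟨-, hΛS⟩ := (k5 S hS1 i).1 hiS
      have hT3 := k3 T i (by rw [hΛT]; exact hactT.1)
      have hS3 := k3 S i (by rw [hΛS]; exact hactS.1)
      rw [hΛS] at hS3
      have hApos : 0 < A S i := lt_of_lt_of_le (by positivity) hS3.1
      have hη' := hη i
      split_ifs with hle
      · have hc1 : min (δ * 2 ^ (lv (bel T i) - 1)) 4 ≤ A S i := by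
          refine (min_le_left _ _).trans (le_trans ?_ hS3.1)
          refine mul_le_mul_of_nonneg_left ?_ hδ.le
          exact pow_le_pow_right₀ (by norm_num) (by omega)
        have hc2 : min (δ * 2 ^ (lv (bel T i) - 1)) 4 ≤ 4 := min_le_right _ _
        have hc0 : 0 < min (δ * 2 ^ (lv (bel T i) - 1)) 4 := lt_min (by positivity) (by norm_num)
        generalize min (δ * 2 ^ (lv (bel T i) - 1)) 4 = c at *
        have h1 : V (bel T i) - (1 / 100) / 2 ^ i ≤ f T i := by
          have := (abs_le.1 hfT).1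
          linarith
        have h2 : c * f T i ≤ A S i * f T i := mul_le_mul_of_nonneg_right hc1 hT3.2.2
        have h3 : c * (V (bel T i) - (1 / 100) / 2 ^ i) ≤ c * f T i :=
          mul_le_mul_of_nonneg_left h1 hc0.le
        have h4 : c * ((1 / 100) / 2 ^ i) ≤ 4 * ((1 / 100) / 2 ^ i) :=
          mul_le_mul_of_nonneg_right hc2 hη'.le
        linarith
      · have := mul_nonneg hApos.le hT3.2.2
        linarith
    · rw [if_neg hiT]
      have hf := (k5 T hT1 i).2 hiT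
      have h1 : |A S i * f T i| ≤ 4 * ((1 / 100) / 2 ^ i) := by
        rw [abs_mul]
        exact mul_le_mul hA hf (abs_nonneg _) (by norm_num)
      have := (abs_le.1 h1).1
      linarith
  have hcd : ∀ i ∈ T, (1 / 2) * (if Λ T i ≠ 0 then A T i * f T i else 0) -
      2 * ((1 / 100) / 2 ^ i) ≤ (if Act V lv (bel T i) then
        V (bel T i) * min (δ * 2 ^ (lv (bel T i) - 1)) 4 else 0) := by
    intro i hiT
    obtain ⟨hfT, hΛT⟩ := (k5 T hT1 i).1 hiT
    have hη' := hη i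
    have hA4 := (abs_le.1 (k2 T i)).2
    by_cases hact : Act V lv (bel T i)
    · rw [if_pos hact]
      have hne : Λ T i ≠ 0 := by rw [hΛT]; exact hact.1
      rw [if_pos hne]
      have hT3 := k3 T i hne
      rw [hΛT] at hT3
      have hApos : 0 < A T i := lt_of_lt_of_le (by positivity) hT3.1
      have hpow : δ * 2 ^ (lv (bel T i)) = 2 * (δ * 2 ^ (lv (bel T i) - 1)) := by
        obtain ⟨m, hm⟩ := Nat.exists_eq_succ_of_ne_zero hact.1
        rw [hm, Nat.succ_sub_one, pow_succ]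
        ring
      have hc : A T i / 2 ≤ min (δ * 2 ^ (lv (bel T i) - 1)) 4 := by
        refine le_min ?_ ?_
        · have := hT3.2.1
          rw [hpow] at this
          linarith
        · linarith
      generalize min (δ * 2 ^ (lv (bel T i) - 1)) 4 = c at *
      have h1 : V (bel T i) * (A T i / 2) ≤ V (bel T i) * c :=
        mul_le_mul_of_nonneg_left hc hact.2.le
      have h2 : f T i - (1 / 100) / 2 ^ i ≤ V (bel T i) := by
        have := (abs_le.1 hfT).2
        linarith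
      have h3 : (A T i / 2) * (f T i - (1 / 100) / 2 ^ i) ≤ (A T i / 2) * V (bel T i) :=
        mul_le_mul_of_nonneg_left h2 (by linarith)
      have h4 : A T i * ((1 / 100) / 2 ^ i) ≤ 4 * ((1 / 100) / 2 ^ i) :=
        mul_le_mul_of_nonneg_right hA4 hη'.le
      linarith
    · rw [if_neg hact]
      by_cases hne : Λ T i ≠ 0
      · rw [if_pos hne]
        have hT3 := k3 T i hne
        have hApos : 0 < A T i := lt_of_lt_of_le (by positivity) hT3.1
        have hV : V (bel T i) ≤ 0 := by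
          by_contra hcon
          exact hact ⟨by rw [← hΛT]; exact hne, not_le.1 hcon⟩
        have h2 : f T i ≤ (1 / 100) / 2 ^ i := by
          have := (abs_le.1 hfT).2
          linarith
        have h3 : A T i * f T i ≤ 4 * ((1 / 100) / 2 ^ i) :=
          mul_le_mul hA4 h2 hT3.2.2 (by norm_num)
        linarith
      · rw [if_neg hne]
        linarith
  have s1 := Finset.sum_le_sum hab
  have s2 := Finset.sum_le_sum hcd
  rw [Finset.sum_sub_distrib, ← Finset.mul_sum] at s1 s2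
  rw [← Finset.mul_sum] at s2
  have e1 : ∑ i ∈ S, (if i ∈ T then (if lv (bel T i) ≤ lv (bel S i) then
        V (bel T i) * min (δ * 2 ^ (lv (bel T i) - 1)) 4 else 0) else 0) =
      ∑ n ∈ T ∩ S, (if lv (bel T n) ≤ lv (bel S n) then
        V (bel T n) * min (δ * 2 ^ (lv (bel T n) - 1)) 4 else 0) := by
    rw [Finset.sum_ite_mem, Finset.inter_comm]
  rw [e1] at s1
  have g1 := fs_geom S
  have g2 := fs_geom T
  have h6 := k4 T hT
  have h2 := (abs_le.1 (k1 S T)).2
  have hsum' : (∑ n ∈ T, (if Act V lv (bel T n) then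
        V (bel T n) * min (δ * 2 ^ (lv (bel T n) - 1)) 4 else 0)) - 1 / 10 ≤
      ∑ n ∈ T ∩ S, (if lv (bel T n) ≤ lv (bel S n) then
        V (bel T n) * min (δ * 2 ^ (lv (bel T n) - 1)) 4 else 0) := by
    convert hsum
  linarith

end Elton955.Contra
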