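import Mathlib
open Filter Finset Topology

namespace Elton955

/-- the part of `e` strictly below `n` -/
def bel (e : Finset ℕ) (n : ℕ) : Finset ℕ := e.filter (fun x => x < n)

/-- `e'` is an end-extension of `e` -/
def Ini (e e' : Finset ℕ) : Prop := e ⊆ e' ∧ ∀ x ∈ e', x ∉ e → ∀ y ∈ e, y < x

/-- an element is active -/
def Act (V : Finset ℕ → ℝ) (lv : Finset ℕ → ℕ) (e : Finset ℕ) : Prop := lv e ≠ 0 ∧ 0 < V e

/-- the inclusion condition for the pair `(insert w v, v)` of states at time `n` -/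
def Inc (W : Finset ℕ → Prop) (V : Finset ℕ → ℝ) (lv : Finset ℕ → ℕ) (θ : ℕ → ℝ)
    (σ : Finset ℕ → Finset ℕ) (n w : ℕ) (v : Finset ℕ) : Prop :=
  (∀ y ∈ v, w < y) ∧ 2 ≤ v.card ∧ (∀ x ∈ σ v, x < 2 * n) ∧ (∀ x ∈ σ (insert w v), x < 2 * n) ∧
  ¬ W (σ v) ∧ ¬ W (σ (insert w v)) ∧ Act V lv (σ v) ∧ Act V lv (σ (insert w v)) ∧
  lv (σ (insert w v)) ≤ lv (σ v) ∧ V (σ v) ≤ θ w * V (σ (insert w v))

/-- the index `n` is included when extending the state of `u` -/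
def Inl (W : Finset ℕ → Prop) (V : Finset ℕ → ℝ) (lv : Finset ℕ → ℕ) (θ : ℕ → ℝ)
    (σ : Finset ℕ → Finset ℕ) (n : ℕ) (u : Finset ℕ) : Prop :=
  (∃ w v, u = insert w v ∧ Inc W V lv θ σ n w v) ∨ (∃ w, Inc W V lv θ σ n w u)

end Elton955
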