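import Pool.Agent.Elton955.Defs
open Filter Finset Topology

namespace Elton955.Extract
open Elton955



theorem extract_cut (S : Finset ℕ) (t : ℕ → ℝ) (h4 : ∀ i ∈ S, t i ≤ 4) (h : 12 ≤ ∑ i ∈ S, t i) :
    ∃ S' ⊆ S, 12 ≤ ∑ i ∈ S', t i ∧ ∑ i ∈ S', t i ≤ 16 := by
  induction S using Finset.induction_on with
  | empty =>
    rw [Finset.sum_empty] at h
    norm_num at h
  | insert i S hi ih =>
    by_cases hle : ∑ i ∈ insert i S, t i ≤ 16
    · exact ⟨_, Finset.Subset.refl _, h, hle⟩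
    · push Not at hle
      rw [Finset.sum_insert hi] at hle
      have h1 := h4 i (Finset.mem_insert_self _ _)
      obtain ⟨S', hS', h2⟩ := ih (fun j hj => h4 j (Finset.mem_insert_of_mem hj)) (by linarith)
      exact ⟨S', hS'.trans (Finset.subset_insert _ _), h2⟩

theorem extract_core {E : Type*} [NormedAddCommGroup E] [NormedSpace ℝ E] (x : ℕ → E)
    (hx1 : ∀ n, ‖x n‖ = 1)
    (hb : ∀ (a : ℕ → ℝ) (m n : ℕ), m ≤ n →
      ‖∑ i ∈ range m, a i • x i‖ ≤ 2 * ‖∑ i ∈ range n, a i • x i‖)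
    (δ D : ℝ) (hδ : 0 < δ) (hD : 16 ≤ D * δ) (h : ℕ → ℕ)
    (hh : ∀ n : ℕ, D * ((n : ℝ) + 1) ≤ h n)
    (hSch : ∀ (n : ℕ) (a : ℕ → ℝ) (G : Finset ℕ), G ⊆ range n → (∀ i ∈ G, G.card ≤ h i) →
      ‖∑ i ∈ G, a i • x i‖ ≤ 6 * ‖∑ i ∈ range n, a i • x i‖)
    (φ : ℕ → ℕ) (hφ : StrictMono φ) (n : ℕ) (a : ℕ → ℝ) (G : Finset ℕ) (hG : G ⊆ range n)
    (hy : ‖∑ i ∈ range n, a i • x (φ i)‖ ≤ 1) (f : E →L[ℝ] ℝ) (hf : ‖f‖ ≤ 1)
    (hGδ : ∀ i ∈ G, δ ≤ a i) (hGf : ∀ i ∈ G, 0 ≤ f (x (φ i)))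
    (hbad : 12 ≤ ∑ i ∈ G, a i * f (x (φ i))) :
    ∃ (f : E →L[ℝ] ℝ) (b : ℕ → ℝ) (H : Finset ℕ), ‖f‖ ≤ 1 ∧
      (∀ i, i ∉ (range n).image φ → b i = 0) ∧ ‖∑ i ∈ (range n).image φ, b i • x i‖ ≤ 1 ∧
      H ⊆ (range n).image φ ∧
      (∀ i ∈ H, δ ≤ b i ∧ 0 ≤ f (x i) ∧
        ∀ N : ℕ, (∀ y ∈ (range n).image φ, N ≤ y) → f (x i) ≤ 1 / ((N : ℝ) + 1)) ∧
      6 ≤ ∑ i ∈ H, b i * f (x i) ∧ ∑ i ∈ H, f (x i) ≤ D := by
  classical
  have hinj := hφ.injective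
  obtain ⟨b, hb1, hb0⟩ : ∃ b : ℕ → ℝ, (∀ i ∈ range n, b (φ i) = a i) ∧
      ∀ j, j ∉ (range n).image φ → b j = 0 := by
    refine ⟨Function.extend φ (fun i => if i ∈ range n then a i else 0) 0, ?_, ?_⟩
    · intro i hi
      rw [hinj.extend_apply, if_pos hi]
    · intro j hj
      by_cases hj2 : ∃ i, φ i = j
      · obtain ⟨i, rfl⟩ := hj2
        rw [hinj.extend_apply, if_neg]
        intro hi
        exact hj (Finset.mem_image_of_mem _ hi)
      · rw [Function.extend_apply' _ _ _ hj2]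
        rfl
  have hsum : ∀ S ⊆ range n, ∑ j ∈ S.image φ, b j • x j = ∑ i ∈ S, a i • x (φ i) := by
    intro S hS
    rw [Finset.sum_image (fun _ _ _ _ h => hinj h)]
    exact Finset.sum_congr rfl fun i hi => by rw [hb1 i (hS hi)]
  have hsub : (range n).image φ ⊆ range (φ n) := by
    intro j hj
    obtain ⟨i, hi, rfl⟩ := Finset.mem_image.1 hj
    exact Finset.mem_range.2 (hφ (Finset.mem_range.1 hi))
  have hSN : ∑ j ∈ range (φ n), b j • x j = ∑ i ∈ range n, a i • x (φ i) := by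
    rw [← hsum (range n) (Finset.Subset.refl _)]
    symm
    refine Finset.sum_subset hsub fun j _ hj => ?_
    rw [hb0 j hj, zero_smul]
  have ha4 : ∀ i ∈ range n, |a i| ≤ 4 := by
    intro i hi
    have h1 : φ i + 1 ≤ φ n := hφ (Finset.mem_range.1 hi)
    have h2 := hb b (φ i + 1) (φ n) h1
    have h3 := hb b (φ i) (φ n) (by omega)
    rw [hSN] at h2 h3
    have h4 : a i • x (φ i) = ∑ j ∈ range (φ i + 1), b j • x j - ∑ j ∈ range (φ i), b j • x j := by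
      rw [Finset.sum_range_succ, add_sub_cancel_left, hb1 i hi]
    have h5 : ‖a i • x (φ i)‖ = |a i| := by
      rw [norm_smul, hx1, mul_one, Real.norm_eq_abs]
    rw [← h5, h4]
    refine (norm_sub_le _ _).trans ?_
    linarith
  have hfx : ∀ j, |f (x j)| ≤ 1 := by
    intro j
    have h1 := f.le_opNorm (x j)
    rw [hx1, mul_one, Real.norm_eq_abs] at h1
    exact h1.trans hf
  have ht4 : ∀ i ∈ G, a i * f (x (φ i)) ≤ 4 := by
    intro i hi
    have h1 := (abs_le.1 (ha4 i (hG hi))).2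
    have h2 := (abs_le.1 (hfx (φ i))).2
    have h3 := hGf i hi
    have h4 := hGδ i hi
    nlinarith
  obtain ⟨G1, hG1, hlo, hhi⟩ := extract_cut G _ ht4 hbad
  have hsumf : ∑ i ∈ G1, f (x (φ i)) ≤ D := by
    have h1 : δ * ∑ i ∈ G1, f (x (φ i)) ≤ D * δ := by
      rw [Finset.mul_sum]
      refine le_trans (Finset.sum_le_sum fun i hi => ?_) (hhi.trans hD)
      exact mul_le_mul_of_nonneg_right (hGδ i (hG1 hi)) (hGf i (hG1 hi))
    rw [mul_comm D δ] at h1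
    exact le_of_mul_le_mul_left h1 hδ
  obtain ⟨H1, hH1⟩ : ∃ H1 : Finset ℕ, H1 = G1.filter (fun i => 1 / ((φ 0 : ℝ) + 1) < f (x (φ i))) :=
    ⟨_, rfl⟩
  have hH1G : H1 ⊆ G1 := by rw [hH1]; exact Finset.filter_subset _ _
  have hH1n : H1 ⊆ range n := (hH1G.trans hG1).trans hG
  have hcard : (H1.card : ℝ) ≤ D * ((φ 0 : ℝ) + 1) := by
    have h1 : (H1.card : ℝ) * (1 / ((φ 0 : ℝ) + 1)) ≤ D := by
      calc (H1.card : ℝ) * (1 / ((φ 0 : ℝ) + 1)) = ∑ i ∈ H1, (1 / ((φ 0 : ℝ) + 1)) := by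
            rw [Finset.sum_const, nsmul_eq_mul]
        _ ≤ ∑ i ∈ H1, f (x (φ i)) := by
            refine Finset.sum_le_sum fun i hi => ?_
            rw [hH1] at hi
            exact (Finset.mem_filter.1 hi).2.le
        _ ≤ ∑ i ∈ G1, f (x (φ i)) :=
            Finset.sum_le_sum_of_subset_of_nonneg hH1G fun i hi _ => hGf i (hG1 hi)
        _ ≤ D := hsumf
    have h2 : (0 : ℝ) < (φ 0 : ℝ) + 1 := by positivity
    rw [mul_one_div, div_le_iff₀ h2] at h1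
    exact h1
  have hD0 : 0 < D := by
    by_contra hcon
    push Not at hcon
    nlinarith
  have hH1sum : ∑ i ∈ H1, a i * f (x (φ i)) ≤ 6 := by
    have h1 := hSch (φ n) b (H1.image φ) ((Finset.image_subset_image hH1n).trans hsub) (by
      intro j hj
      obtain ⟨i, hi, rfl⟩ := Finset.mem_image.1 hj
      rw [Finset.card_image_of_injective _ hinj]
      have h2 : (φ 0 : ℝ) ≤ φ i := by exact_mod_cast hφ.monotone (Nat.zero_le i)
      have h3 : (H1.card : ℝ) ≤ h (φ i) := by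
        refine hcard.trans (le_trans ?_ (hh (φ i)))
        exact mul_le_mul_of_nonneg_left (by linarith) hD0.le
      exact_mod_cast h3)
    rw [hsum H1 hH1n, hSN] at h1
    have h2 : f (∑ i ∈ H1, a i • x (φ i)) = ∑ i ∈ H1, a i * f (x (φ i)) := by
      rw [map_sum]
      exact Finset.sum_congr rfl fun i _ => by rw [map_smul, smul_eq_mul]
    rw [← h2]
    have h3 := f.le_opNorm (∑ i ∈ H1, a i • x (φ i))
    have h4 : ‖f‖ * ‖∑ i ∈ H1, a i • x (φ i)‖ ≤ 1 * ‖∑ i ∈ H1, a i • x (φ i)‖ :=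
      mul_le_mul_of_nonneg_right hf (norm_nonneg _)
    have h5 := le_abs_self (f (∑ i ∈ H1, a i • x (φ i)))
    rw [Real.norm_eq_abs] at h3
    linarith
  have hsplit : ∑ i ∈ G1 \ H1, a i * f (x (φ i)) + ∑ i ∈ H1, a i * f (x (φ i)) =
      ∑ i ∈ G1, a i * f (x (φ i)) := Finset.sum_sdiff hH1G
  have hG1n : G1 \ H1 ⊆ range n := (Finset.sdiff_subset.trans hG1).trans hG
  refine ⟨f, b, (G1 \ H1).image φ, hf, hb0, ?_, Finset.image_subset_image hG1n, ?_, ?_, ?_⟩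
  · rw [hsum (range n) (Finset.Subset.refl _)]
    exact hy
  · intro j hj
    obtain ⟨i, hi, rfl⟩ := Finset.mem_image.1 hj
    have hiG1 := (Finset.mem_sdiff.1 hi).1
    have hiH1 := (Finset.mem_sdiff.1 hi).2
    refine ⟨?_, hGf i (hG1 hiG1), ?_⟩
    · rw [hb1 i (hG1n hi)]
      exact hGδ i (hG1 hiG1)
    · intro N hN
      have h1 : f (x (φ i)) ≤ 1 / ((φ 0 : ℝ) + 1) := by
        by_contra hcon
        push Not at hcon
        refine hiH1 ?_
        rw [hH1]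
        exact Finset.mem_filter.2 ⟨hiG1, hcon⟩
      have h2 : N ≤ φ 0 := hN (φ 0) (Finset.mem_image_of_mem _ (Finset.mem_range.2
        (lt_of_le_of_lt (Nat.zero_le i) (Finset.mem_range.1 (hG1n hi)))))
      have h3 : (N : ℝ) ≤ φ 0 := by exact_mod_cast h2
      refine h1.trans (one_div_le_one_div_of_le (by positivity) (by linarith))
  · rw [Finset.sum_image (fun _ _ _ _ h => hinj h)]
    have h1 : ∑ i ∈ G1 \ H1, b (φ i) * f (x (φ i)) = ∑ i ∈ G1 \ H1, a i * f (x (φ i)) :=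
      Finset.sum_congr rfl fun i hi => by rw [hb1 i (hG1n hi)]
    rw [h1]
    linarith
  · rw [Finset.sum_image (fun _ _ _ _ h => hinj h)]
    exact (Finset.sum_le_sum_of_subset_of_nonneg Finset.sdiff_subset
      fun i hi _ => hGf i (hG1 hi)).trans hsumf

theorem extract {E : Type*} [NormedAddCommGroup E] [NormedSpace ℝ E] (x : ℕ → E)
    (hx1 : ∀ n, ‖x n‖ = 1)
    (hb : ∀ (a : ℕ → ℝ) (m n : ℕ), m ≤ n →
      ‖∑ i ∈ range m, a i • x i‖ ≤ 2 * ‖∑ i ∈ range n, a i • x i‖)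
    (δ D : ℝ) (hδ : 0 < δ) (hD : 16 ≤ D * δ) (h : ℕ → ℕ)
    (hh : ∀ n : ℕ, D * ((n : ℝ) + 1) ≤ h n)
    (hSch : ∀ (n : ℕ) (a : ℕ → ℝ) (G : Finset ℕ), G ⊆ range n → (∀ i ∈ G, G.card ≤ h i) →
      ‖∑ i ∈ G, a i • x i‖ ≤ 6 * ‖∑ i ∈ range n, a i • x i‖)
    (φ : ℕ → ℕ) (hφ : StrictMono φ) (n : ℕ) (a : ℕ → ℝ) (G : Finset ℕ) (hG : G ⊆ range n)
    (hGδ : ∀ i ∈ G, δ ≤ |a i|) (hy : ‖∑ i ∈ range n, a i • x (φ i)‖ ≤ 1)
    (hbad : 24 < ‖∑ i ∈ G, a i • x (φ i)‖) :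
    ∃ (f : E →L[ℝ] ℝ) (b : ℕ → ℝ) (H : Finset ℕ), ‖f‖ ≤ 1 ∧
      (∀ i, i ∉ (range n).image φ → b i = 0) ∧ ‖∑ i ∈ (range n).image φ, b i • x i‖ ≤ 1 ∧
      H ⊆ (range n).image φ ∧
      (∀ i ∈ H, δ ≤ b i ∧ 0 ≤ f (x i) ∧
        ∀ N : ℕ, (∀ y ∈ (range n).image φ, N ≤ y) → f (x i) ≤ 1 / ((N : ℝ) + 1)) ∧
      6 ≤ ∑ i ∈ H, b i * f (x i) ∧ ∑ i ∈ H, f (x i) ≤ D := by
  classical
  have hz : ‖∑ i ∈ G, a i • x (φ i)‖ ≠ 0 := by
    intro h0
    rw [h0] at hbad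
    norm_num at hbad
  obtain ⟨f, hf, hfz⟩ := exists_dual_vector ℝ _ hz
  have hfz' : ∑ i ∈ G, a i * f (x (φ i)) = ‖∑ i ∈ G, a i • x (φ i)‖ := by
    rw [map_sum] at hfz
    simp only [map_smul, smul_eq_mul] at hfz
    exact hfz
  rw [← hfz'] at hbad
  obtain ⟨P, hP⟩ : ∃ P : Finset ℕ, P = G.filter (fun i => 0 < a i * f (x (φ i))) := ⟨_, rfl⟩
  have hsP : ∑ i ∈ G, a i * f (x (φ i)) ≤ ∑ i ∈ P, a i * f (x (φ i)) := by
    have h1 := Finset.sum_filter_add_sum_filter_not G (fun i => 0 < a i * f (x (φ i)))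
      (fun i => a i * f (x (φ i)))
    have h2 : ∑ i ∈ G.filter (fun i => ¬ 0 < a i * f (x (φ i))), a i * f (x (φ i)) ≤ 0 :=
      Finset.sum_nonpos fun i hi => not_lt.1 (Finset.mem_filter.1 hi).2
    rw [hP]
    linarith
  have h3 := Finset.sum_filter_add_sum_filter_not P (fun i => 0 < a i)
      (fun i => a i * f (x (φ i)))
  have hPG : P ⊆ G := by rw [hP]; exact Finset.filter_subset _ _
  have hPpos : ∀ i ∈ P, 0 < a i * f (x (φ i)) := by
    intro i hi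
    rw [hP] at hi
    exact (Finset.mem_filter.1 hi).2
  by_cases hc : 12 ≤ ∑ i ∈ P.filter (fun i => 0 < a i), a i * f (x (φ i))
  · refine extract_core x hx1 hb δ D hδ hD h hh hSch φ hφ n a (P.filter (fun i => 0 < a i))
      (((Finset.filter_subset _ _).trans hPG).trans hG) hy f hf.le ?_ ?_ hc
    · intro i hi
      obtain ⟨hi1, hi2⟩ := Finset.mem_filter.1 hi
      have := hGδ i (hPG hi1)
      rwa [abs_of_pos hi2] at this
    · intro i hi
      obtain ⟨hi1, hi2⟩ := Finset.mem_filter.1 hi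
      exact (pos_of_mul_pos_right (hPpos i hi1) hi2.le).le
  · push Not at hc
    have hc2 : 12 ≤ ∑ i ∈ P.filter (fun i => ¬ 0 < a i), a i * f (x (φ i)) := by linarith
    have hneg : ∀ i ∈ P.filter (fun i => ¬ 0 < a i), a i < 0 := by
      intro i hi
      obtain ⟨hi1, hi2⟩ := Finset.mem_filter.1 hi
      have h4 := hPpos i hi1
      rcases lt_trichotomy (a i) 0 with h5 | h5 | h5
      · exact h5
      · rw [h5, zero_mul] at h4
        exact absurd h4 (lt_irrefl _)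
      · exact absurd h5 hi2
    refine extract_core x hx1 hb δ D hδ hD h hh hSch φ hφ n (fun i => - a i)
      (P.filter (fun i => ¬ 0 < a i))
      (((Finset.filter_subset _ _).trans hPG).trans hG) ?_ (-f) (by rw [norm_neg]; exact hf.le)
      ?_ ?_ ?_
    · simp only [neg_smul, Finset.sum_neg_distrib, norm_neg]
      exact hy
    · intro i hi
      have h4 := hGδ i (hPG (Finset.mem_filter.1 hi).1)
      rwa [abs_of_neg (hneg i hi)] at h4
    · intro i hi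
      have h4 := hPpos i (Finset.mem_filter.1 hi).1
      have h5 := hneg i hi
      rw [_root_.neg_apply]
      nlinarith
    · simp only [_root_.neg_apply, neg_mul_neg]
      exact hc2


end Elton955.Extract
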