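import Pool.Agent.Elton955.Defs
open Filter Finset Topology

namespace Elton955.Tree
open Elton955



theorem tree_limit_aux {e : Finset ℕ} {n : ℕ} (h : ∀ x ∈ e, x < n) :
    Ini e (insert n e) ∧ e ≠ insert n e := by
  refine ⟨⟨Finset.subset_insert _ _, ?_⟩, ?_⟩
  · intro x hx hxe y hy
    rcases Finset.mem_insert.1 hx with rfl | hx
    · exact h y hy
    · exact absurd hx hxe
  · intro heq
    have : n ∈ e := by rw [heq]; exact Finset.mem_insert_self _ _
    exact lt_irrefl _ (h n this)

theorem tree_limit {X : Type*} [TopologicalSpace X] [CompactSpace X] [Nonempty X]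
    (U : Ultrafilter ℕ) (hU : ∀ N : ℕ, ∀ᶠ n in (U : Filter ℕ), N < n)
    (W : Finset ℕ → Prop) (ch : Finset ℕ → X)
    (hwf : WellFounded (fun e' e : Finset ℕ => Ini e e' ∧ e ≠ e' ∧ ¬ W e)) :
    ∃ d : Finset ℕ → X, (∀ e, W e → d e = ch e) ∧
      ∀ e, ¬ W e → Tendsto (fun n => d (insert n e)) (U : Filter ℕ) (𝓝 (d e)) := by
  classical
  let F : ∀ e : Finset ℕ, (∀ e', (Ini e e' ∧ e ≠ e' ∧ ¬ W e) → X) → X := fun e rec =>
    if hW : W e then ch e else
      (U.map (fun n => if h : ∀ x ∈ e, x < n then
        rec (insert n e) ⟨(tree_limit_aux h).1, (tree_limit_aux h).2, hW⟩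
        else Classical.arbitrary X)).lim
  let d : Finset ℕ → X := fun e => hwf.fix (C := fun _ => X) F e
  have hd : ∀ e, d e = F e (fun e' _ => d e') := fun e => hwf.fix_eq F e
  refine ⟨d, ?_, ?_⟩
  · intro e he
    rw [hd]
    simp only [F, dif_pos he]
  · intro e he
    have h1 : d e = (U.map (fun n => if h : ∀ x ∈ e, x < n then d (insert n e)
        else Classical.arbitrary X)).lim := by
      rw [hd]
      simp only [F, dif_neg he]
    rw [h1]
    have h2 := (U.map (fun n => if h : ∀ x ∈ e, x < n then d (insert n e)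
        else Classical.arbitrary X)).le_nhds_lim
    have h3 : Tendsto (fun n => if h : ∀ x ∈ e, x < n then d (insert n e)
        else Classical.arbitrary X) (U : Filter ℕ) (𝓝 (U.map (fun n => if h : ∀ x ∈ e, x < n then d (insert n e)
        else Classical.arbitrary X)).lim) := h2
    refine h3.congr' ?_
    filter_upwards [hU (e.sup id)] with n hn
    rw [dif_pos]
    intro x hx
    exact lt_of_le_of_lt (Finset.le_sup (f := id) hx) hn

end Elton955.Tree
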