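import Pool.Agent.Elton955.Defs
import Pool.Agent.Elton955.Tree
open Filter Finset Topology

namespace Elton955.GoodSys
open Elton955
open Elton955.Tree



theorem lev (δ : ℝ) (L : ℕ) (hL : 4 < δ * 2 ^ L) (c : ℝ) (h1 : δ ≤ c) (h2 : c ≤ 4) :
    ∃ l : ℕ, l ≤ L ∧ l ≠ 0 ∧ δ * 2 ^ (l - 1) ≤ c ∧ c ≤ δ * 2 ^ l := by
  classical
  have hex : ∃ l : ℕ, c < δ * 2 ^ l := ⟨L, lt_of_le_of_lt h2 hL⟩
  refine ⟨Nat.find hex, Nat.find_min' hex (lt_of_le_of_lt h2 hL), ?_, ?_, (Nat.find_spec hex).le⟩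
  · intro h0
    have := Nat.find_spec hex
    rw [h0] at this
    simp at this
    linarith
  · have h0 : Nat.find hex ≠ 0 := by
      intro h0
      have := Nat.find_spec hex
      rw [h0] at this
      simp at this
      linarith
    have := Nat.find_min hex (m := Nat.find hex - 1) (by omega)
    exact not_lt.mp this

theorem ini_insert (e : Finset ℕ) (n : ℕ) (hn : ∀ y ∈ e, y < n) :
    Ini e (insert n e) ∧ e ≠ insert n e := by
  refine ⟨⟨subset_insert _ _, fun x hx hxe y hy => ?_⟩, fun h => ?_⟩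
  · rcases mem_insert.mp hx with h | h
    · rw [h]; exact hn y hy
    · exact absurd h hxe
  · have : n ∈ e := by rw [h]; exact mem_insert_self _ _
    exact lt_irrefl _ (hn n this)

theorem good_sys {E : Type*} [NormedAddCommGroup E] [NormedSpace ℝ E] (x : ℕ → E)
    (hx1 : ∀ n, ‖x n‖ = 1)
    (hb : ∀ (a : ℕ → ℝ) (m n : ℕ), m ≤ n →
      ‖∑ i ∈ range m, a i • x i‖ ≤ 2 * ‖∑ i ∈ range n, a i • x i‖)
    (δ D : ℝ) (hδ : 0 < δ)
    (U : Ultrafilter ℕ) (hU : ∀ N : ℕ, ∀ᶠ n in (U : Filter ℕ), N < n)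
    (W : Finset ℕ → Prop)
    (hwf : WellFounded (fun e' e : Finset ℕ => Ini e e' ∧ e ≠ e' ∧ ¬ W e))
    (hW : ∀ e, W e → ∃ (f : E →L[ℝ] ℝ) (a : ℕ → ℝ) (G : Finset ℕ), ‖f‖ ≤ 1 ∧
      (∀ i, i ∉ e → a i = 0) ∧ ‖∑ i ∈ e, a i • x i‖ ≤ 1 ∧ G ⊆ e ∧
      (∀ i ∈ G, δ ≤ a i ∧ 0 ≤ f (x i) ∧
        ∀ N : ℕ, (∀ y ∈ e, N ≤ y) → f (x i) ≤ 1 / ((N : ℝ) + 1)) ∧
      6 ≤ ∑ i ∈ G, a i * f (x i) ∧ ∑ i ∈ G, f (x i) ≤ D) :
    ∃ (L : ℕ) (F : Finset ℕ → (E →L[ℝ] ℝ)) (A : Finset ℕ → ℕ → ℝ) (Λ : Finset ℕ → ℕ → ℕ),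
      (∀ e, ‖F e‖ ≤ 1) ∧ (∀ e i, i ∉ e → A e i = 0) ∧ (∀ e i, i ∉ e → Λ e i = 0) ∧
      (∀ e, ‖∑ i ∈ e, A e i • x i‖ ≤ 2) ∧ (∀ e i, |A e i| ≤ 4) ∧ (∀ e i, Λ e i ≤ L) ∧
      (∀ e i, Λ e i ≠ 0 → δ * 2 ^ (Λ e i - 1) ≤ A e i ∧ A e i ≤ δ * 2 ^ (Λ e i) ∧
        0 ≤ F e (x i) ∧ ∀ N : ℕ, (∀ y ∈ e, N ≤ y) → F e (x i) ≤ 1 / ((N : ℝ) + 1)) ∧
      (∀ e, ∑ i ∈ e, (if Λ e i ≠ 0 then F e (x i) else 0) ≤ D) ∧
      (∀ e, W e → 6 ≤ ∑ i ∈ e, (if Λ e i ≠ 0 then A e i * F e (x i) else 0)) ∧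
      (∀ e, ¬ W e → ∀ i, Tendsto (fun n => F (insert n e) (x i)) (U : Filter ℕ)
        (𝓝 (F e (x i)))) ∧
      (∀ e, ¬ W e → ∀ i, ∀ᶠ n in (U : Filter ℕ), Λ (insert n e) i = Λ e i) := by
  classical
  -- leaf data
  have hW' : ∀ e, ∃ (f : E →L[ℝ] ℝ) (a : ℕ → ℝ) (G : Finset ℕ), W e → (‖f‖ ≤ 1 ∧
      (∀ i, i ∉ e → a i = 0) ∧ ‖∑ i ∈ e, a i • x i‖ ≤ 1 ∧ G ⊆ e ∧
      (∀ i ∈ G, δ ≤ a i ∧ 0 ≤ f (x i) ∧
        ∀ N : ℕ, (∀ y ∈ e, N ≤ y) → f (x i) ≤ 1 / ((N : ℝ) + 1)) ∧
      6 ≤ ∑ i ∈ G, a i * f (x i) ∧ ∑ i ∈ G, f (x i) ≤ D) := by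
    intro e
    by_cases he : W e
    · obtain ⟨f, a, G, h⟩ := hW e he
      exact ⟨f, a, G, fun _ => h⟩
    · exact ⟨0, 0, ∅, fun h => absurd h he⟩
  choose f a G hfa using hW'
  obtain ⟨L, hL⟩ : ∃ L : ℕ, 4 < δ * 2 ^ L := by
    obtain ⟨L, hL⟩ := pow_unbounded_of_one_lt (4 / δ) (one_lt_two)
    refine ⟨L, ?_⟩
    rw [div_lt_iff₀ hδ] at hL
    linarith
  -- partial sums at leaves
  have hps : ∀ e, W e → ∀ N, ‖∑ i ∈ range N, a e i • x i‖ ≤ 2 := by
    intro e he N
    obtain ⟨-, h2, h3, -⟩ := hfa e he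
    set M := max N (e.sup id + 1) with hM
    have h4 : ∑ i ∈ range M, a e i • x i = ∑ i ∈ e, a e i • x i := by
      symm
      apply sum_subset
      · intro i hi
        rw [mem_range]
        have h5 : i ≤ e.sup id := Finset.le_sup (f := id) hi
        have h6 : e.sup id + 1 ≤ M := le_max_right _ _
        omega
      · intro i _ hi
        rw [h2 i hi, zero_smul]
    have h5 := hb (a e) N M (le_max_left _ _)
    rw [h4] at h5
    linarith
  have habs : ∀ e, W e → ∀ i, |a e i| ≤ 4 := by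
    intro e he i
    have h1 := hps e he i
    have h2 := hps e he (i + 1)
    have h3 : a e i • x i = ∑ j ∈ range (i + 1), a e j • x j - ∑ j ∈ range i, a e j • x j := by
      rw [sum_range_succ]; abel
    have h4 : ‖a e i • x i‖ = |a e i| := by rw [norm_smul, hx1, mul_one, Real.norm_eq_abs]
    rw [← h4, h3]
    refine (norm_sub_le _ _).trans ?_
    linarith
  -- labels at leaves
  have hlam : ∀ e i, ∃ l : Fin (L + 1), (W e → i ∈ G e → ((l : ℕ) ≠ 0 ∧
      δ * 2 ^ ((l : ℕ) - 1) ≤ a e i ∧ a e i ≤ δ * 2 ^ (l : ℕ))) ∧ (i ∉ G e → (l : ℕ) = 0) := by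
    intro e i
    by_cases h : W e ∧ i ∈ G e
    · obtain ⟨l, hl1, hl2, hl3, hl4⟩ := lev δ L hL (a e i) ((hfa e h.1).2.2.2.2.1 i h.2).1
        ((abs_le.mp (habs e h.1 i)).2)
      exact ⟨⟨l, by omega⟩, fun _ _ => ⟨hl2, hl3, hl4⟩, fun h' => absurd h.2 h'⟩
    · exact ⟨0, fun h1 h2 => absurd ⟨h1, h2⟩ h, fun _ => rfl⟩
  choose lam hlam1 hlam2 using hlam
  -- the compact space
  let K : Set (WeakDual ℝ E) := WeakDual.toStrongDual ⁻¹' Metric.closedBall 0 1
  have hK : IsCompact K := WeakDual.isCompact_closedBall 0 1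
  haveI : CompactSpace K := isCompact_iff_compactSpace.mp hK
  have h0K : (0 : WeakDual ℝ E) ∈ K := by
    show WeakDual.toStrongDual (0 : WeakDual ℝ E) ∈ Metric.closedBall 0 1
    rw [map_zero]
    exact Metric.mem_closedBall_self zero_le_one
  haveI : Nonempty K := ⟨⟨0, h0K⟩⟩
  haveI : Nonempty (Set.Icc (-4 : ℝ) 4) := ⟨⟨0, by norm_num⟩⟩
  have hfK : ∀ e, W e → StrongDual.toWeakDual (f e) ∈ K := by
    intro e he
    show f e ∈ Metric.closedBall (0 : StrongDual ℝ E) 1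
    rw [mem_closedBall_zero_iff]
    exact (hfa e he).1
  let ch : Finset ℕ → K × (ℕ → Set.Icc (-4 : ℝ) 4) × (ℕ → Fin (L + 1)) := fun e =>
    (if h : W e then ⟨StrongDual.toWeakDual (f e), hfK e h⟩ else ⟨0, h0K⟩,
     fun i => if h : W e then ⟨a e i, abs_le.mp (habs e h i)⟩ else ⟨0, by norm_num⟩,
     fun i => lam e i)
  obtain ⟨d, hd1, hd2⟩ := tree_limit U hU W ch hwf
  let F : Finset ℕ → (E →L[ℝ] ℝ) := fun e => WeakDual.toStrongDual ((d e).1 : WeakDual ℝ E)
  let A : Finset ℕ → ℕ → ℝ := fun e i => ((d e).2.1 i : ℝ)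
  let Λ : Finset ℕ → ℕ → ℕ := fun e i => ((d e).2.2 i : ℕ)
  have hF1 : ∀ e, ‖F e‖ ≤ 1 := by
    intro e
    have := (d e).1.2
    have h : WeakDual.toStrongDual ((d e).1 : WeakDual ℝ E) ∈ Metric.closedBall 0 1 := this
    rwa [mem_closedBall_zero_iff] at h
  have hA4 : ∀ e i, |A e i| ≤ 4 := fun e i => abs_le.mpr ((d e).2.1 i).2
  have hΛL : ∀ e i, Λ e i ≤ L := fun e i => Nat.lt_succ_iff.mp ((d e).2.2 i).2
  have leafF : ∀ e, W e → F e = f e := by
    intro e he
    show WeakDual.toStrongDual ((d e).1 : WeakDual ℝ E) = f e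
    rw [hd1 e he]
    simp only [ch, dif_pos he]
    rfl
  have leafA : ∀ e, W e → ∀ i, A e i = a e i := by
    intro e he i
    show (((d e).2.1 i : Set.Icc (-4 : ℝ) 4) : ℝ) = a e i
    rw [hd1 e he]
    simp only [ch, dif_pos he]
  have leafΛ : ∀ e, W e → ∀ i, Λ e i = lam e i := by
    intro e he i
    show (((d e).2.2 i : Fin (L + 1)) : ℕ) = lam e i
    rw [hd1 e he]
  have tF : ∀ e, ¬ W e → ∀ i, Tendsto (fun n => F (insert n e) (x i)) (U : Filter ℕ)
      (𝓝 (F e (x i))) := by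
    intro e he i
    have h1 := hd2 e he
    have h2 : Continuous (fun p : K × (ℕ → Set.Icc (-4 : ℝ) 4) × (ℕ → Fin (L + 1)) =>
        (p.1 : WeakDual ℝ E) (x i)) :=
      (WeakDual.eval_continuous (x i)).comp (continuous_subtype_val.comp continuous_fst)
    exact (h2.tendsto (d e)).comp h1
  have tA : ∀ e, ¬ W e → ∀ i, Tendsto (fun n => A (insert n e) i) (U : Filter ℕ)
      (𝓝 (A e i)) := by
    intro e he i
    have h1 := hd2 e he
    have h2 : Continuous (fun p : K × (ℕ → Set.Icc (-4 : ℝ) 4) × (ℕ → Fin (L + 1)) =>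
        ((p.2.1 i : Set.Icc (-4 : ℝ) 4) : ℝ)) :=
      continuous_subtype_val.comp ((continuous_apply i).comp (continuous_fst.comp continuous_snd))
    exact (h2.tendsto (d e)).comp h1
  have tΛ : ∀ e, ¬ W e → ∀ i, ∀ᶠ n in (U : Filter ℕ), Λ (insert n e) i = Λ e i := by
    intro e he i
    have h1 := hd2 e he
    have h2 : Continuous (fun p : K × (ℕ → Set.Icc (-4 : ℝ) 4) × (ℕ → Fin (L + 1)) => p.2.2 i) :=
      (continuous_apply i).comp (continuous_snd.comp continuous_snd)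
    have h3 := (h2.tendsto (d e)).comp h1
    rw [nhds_discrete, tendsto_pure] at h3
    filter_upwards [h3] with n hn
    exact congrArg Fin.val hn
  have evb : ∀ e : Finset ℕ, ∀ᶠ n in (U : Filter ℕ), ∀ y ∈ e, y < n := by
    intro e
    filter_upwards [hU (e.sup id)] with n hn y hy
    exact lt_of_le_of_lt (Finset.le_sup (f := id) hy) hn
  -- the induction
  let Q : Finset ℕ → Prop := fun e =>
    (∀ i, i ∉ e → A e i = 0 ∧ Λ e i = 0) ∧ (∀ N, ‖∑ i ∈ range N, A e i • x i‖ ≤ 2) ∧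
    (∀ i, Λ e i ≠ 0 → δ * 2 ^ (Λ e i - 1) ≤ A e i ∧ A e i ≤ δ * 2 ^ (Λ e i) ∧
        0 ≤ F e (x i) ∧ ∀ N : ℕ, (∀ y ∈ e, N ≤ y) → F e (x i) ≤ 1 / ((N : ℝ) + 1)) ∧
    (∑ i ∈ e, (if Λ e i ≠ 0 then F e (x i) else 0) ≤ D)
  have hQ : ∀ e, Q e := by
    intro e
    induction e using hwf.induction with
    | _ e ih =>
      by_cases he : W e
      · obtain ⟨h1, h2, h3, h4, h5, h6, h7⟩ := hfa e he
        refine ⟨fun i hi => ?_, fun N => ?_, fun i hi => ?_, ?_⟩
        · rw [leafA e he, leafΛ e he]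
          exact ⟨h2 i hi, hlam2 e i (fun h => hi (h4 h))⟩
        · simp only [leafA e he]
          exact hps e he N
        · rw [leafΛ e he] at hi
          rw [leafA e he, leafΛ e he, leafF e he]
          have hiG : i ∈ G e := by
            by_contra hcon
            exact hi (hlam2 e i hcon)
          obtain ⟨-, g2, g3⟩ := hlam1 e i he hiG
          obtain ⟨k1, k2, k3⟩ := h5 i hiG
          exact ⟨g2, g3, k2, k3⟩
        · refine le_trans (le_of_eq ?_) h7
          rw [← sum_subset h4]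
          · apply sum_congr rfl
            intro i hi
            rw [leafΛ e he, leafF e he, if_pos (hlam1 e i he hi).1]
          · intro i _ hi
            rw [leafΛ e he, if_neg (not_not.mpr (hlam2 e i hi))]
      · have hev : ∀ᶠ n in (U : Filter ℕ), (∀ y ∈ e, y < n) ∧ Q (insert n e) := by
          filter_upwards [evb e] with n hn
          obtain ⟨g1, g2⟩ := ini_insert e n hn
          exact ⟨hn, ih _ ⟨g1, g2, he⟩⟩
        have hA0 : ∀ i, i ∉ e → A e i = 0 ∧ Λ e i = 0 := by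
          intro i hi
          have h1 : ∀ᶠ n in (U : Filter ℕ), A (insert n e) i = 0 ∧ Λ (insert n e) i = 0 := by
            filter_upwards [hev, hU i] with n hn hin
            apply hn.2.1 i
            rw [mem_insert, not_or]
            exact ⟨by omega, hi⟩
          constructor
          · refine tendsto_nhds_unique (tA e he i) ?_
            exact tendsto_const_nhds.congr' (by filter_upwards [h1] with n hn; exact hn.1.symm)
          · obtain ⟨n, hn1, hn2⟩ := (h1.and (tΛ e he i)).exists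
            rw [← hn2]; exact hn1.2
        refine ⟨hA0, fun N => ?_, fun i hi => ?_, ?_⟩
        · have h1 : Tendsto (fun n => ‖∑ i ∈ range N, A (insert n e) i • x i‖) (U : Filter ℕ)
              (𝓝 ‖∑ i ∈ range N, A e i • x i‖) := by
            apply Tendsto.norm
            apply tendsto_finset_sum
            intro i _
            exact (tA e he i).smul_const (x i)
          refine le_of_tendsto h1 ?_
          filter_upwards [hev] with n hn
          exact hn.2.2.1 N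
        · have hie : i ∈ e := by
            by_contra hcon
            exact hi (hA0 i hcon).2
          have h1 : ∀ᶠ n in (U : Filter ℕ), δ * 2 ^ (Λ e i - 1) ≤ A (insert n e) i ∧
              A (insert n e) i ≤ δ * 2 ^ (Λ e i) ∧ 0 ≤ F (insert n e) (x i) ∧
              ∀ N : ℕ, (∀ y ∈ insert n e, N ≤ y) → F (insert n e) (x i) ≤ 1 / ((N : ℝ) + 1) := by
            filter_upwards [hev, tΛ e he i] with n hn hn2
            have := hn.2.2.2.1 i (by rw [hn2]; exact hi)
            rw [hn2] at this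
            exact this
          refine ⟨ge_of_tendsto (tA e he i) (h1.mono fun n hn => hn.1),
            le_of_tendsto (tA e he i) (h1.mono fun n hn => hn.2.1),
            ge_of_tendsto (tF e he i) (h1.mono fun n hn => hn.2.2.1), fun N hN => ?_⟩
          refine le_of_tendsto (tF e he i) ?_
          filter_upwards [h1, evb e] with n hn hn2
          apply hn.2.2.2 N
          intro y hy
          rcases mem_insert.mp hy with h | h
          · rw [h]
            exact (hN i hie).trans (hn2 i hie).le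
          · exact hN y h
        · have h1 : Tendsto (fun n => ∑ i ∈ e, (if Λ (insert n e) i ≠ 0 then F (insert n e) (x i)
              else 0)) (U : Filter ℕ) (𝓝 (∑ i ∈ e, (if Λ e i ≠ 0 then F e (x i) else 0))) := by
            apply tendsto_finset_sum
            intro i _
            by_cases h0 : Λ e i ≠ 0
            · rw [if_pos h0]
              refine (tF e he i).congr' ?_
              filter_upwards [tΛ e he i] with n hn
              rw [hn, if_pos h0]
            · rw [if_neg h0]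
              refine tendsto_const_nhds.congr' ?_
              filter_upwards [tΛ e he i] with n hn
              rw [hn, if_neg h0]
          refine le_of_tendsto h1 ?_
          filter_upwards [hev] with n hn
          have h2 := hn.2.2.2.2
          have hne : n ∉ e := fun h => lt_irrefl _ (hn.1 n h)
          rw [sum_insert hne] at h2
          have h3 : (0 : ℝ) ≤ if Λ (insert n e) n ≠ 0 then F (insert n e) (x n) else 0 := by
            split_ifs with h4
            · exact (hn.2.2.2.1 n h4).2.2.1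
            · exact le_rfl
          linarith
  refine ⟨L, F, A, Λ, hF1, fun e i hi => ((hQ e).1 i hi).1, fun e i hi => ((hQ e).1 i hi).2,
    fun e => ?_, hA4, hΛL, fun e i hi => (hQ e).2.2.1 i hi, fun e => (hQ e).2.2.2, fun e he => ?_,
    tF, tΛ⟩
  · have h1 := (hQ e).2.1 (e.sup id + 1)
    have h2 : ∑ i ∈ range (e.sup id + 1), A e i • x i = ∑ i ∈ e, A e i • x i := by
      symm
      apply sum_subset
      · intro i hi
        rw [mem_range]
        have h5 : i ≤ e.sup id := Finset.le_sup (f := id) hi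
        omega
      · intro i _ hi
        rw [((hQ e).1 i hi).1, zero_smul]
    rwa [h2] at h1
  · obtain ⟨h1, h2, h3, h4, h5, h6, h7⟩ := hfa e he
    refine le_trans h6 (le_of_eq ?_)
    rw [← sum_subset h4]
    · apply sum_congr rfl
      intro i hi
      rw [leafΛ e he, leafF e he, leafA e he, if_pos (hlam1 e i he hi).1]
    · intro i _ hi
      rw [leafΛ e he, if_neg (not_not.mpr (hlam2 e i hi))]

end Elton955.GoodSys
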