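import Pool.Agent.Elton955.Defs
open Filter Finset Topology

namespace Elton955.Grun
open Elton955



/-- Grünblum's criterion: uniformly bounded initial-segment projections give a basic sequence. -/
theorem grunblum {X : Type*} [NormedAddCommGroup X] [NormedSpace ℝ X] [CompleteSpace X]
    (x : ℕ → X) (hx : ∀ n, x n ≠ 0) (K : ℝ)
    (h : ∀ (a : ℕ → ℝ) (m n : ℕ), m ≤ n →
      ‖∑ i ∈ range m, a i • x i‖ ≤ K * ‖∑ i ∈ range n, a i • x i‖) :
    ∀ y ∈ closure (Submodule.span ℝ (Set.range x) : Set X),
      ∃! a : ℕ → ℝ, Tendsto (fun n => ∑ i ∈ range n, a i • x i) atTop (𝓝 y) := by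
  intro y hy
  have hK : 1 ≤ K := by
    have h1 := h (fun _ => 1) 1 1 le_rfl
    simp only [range_one, sum_singleton, one_smul] at h1
    have h2 : 0 < ‖x 0‖ := norm_pos_iff.2 (hx 0)
    by_contra hcon
    push Not at hcon
    nlinarith
  have hK0 : 0 ≤ K := by linarith
  have hspan : ∀ z ∈ Submodule.span ℝ (Set.range x), ∃ (a : ℕ → ℝ) (N : ℕ),
      ∀ n, N ≤ n → ∑ i ∈ range n, a i • x i = z := by
    intro z hz
    rw [Finsupp.mem_span_range_iff_exists_finsupp] at hz
    obtain ⟨c, hc⟩ := hz
    refine ⟨c, c.support.sup id + 1, ?_⟩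
    intro n hn
    rw [← hc, Finsupp.sum]
    symm
    apply sum_subset
    · intro i hi
      rw [mem_range]
      have : i ≤ c.support.sup id := le_sup (f := id) hi
      omega
    · intro i _ hi
      rw [Finsupp.notMem_support_iff.1 hi, zero_smul]
  obtain ⟨Y, hYmem, hYlim⟩ := mem_closure_iff_seq_limit.1 hy
  choose A N hA using fun k => hspan (Y k) (hYmem k)
  have hdiff : ∀ k l m, ‖∑ i ∈ range m, A k i • x i - ∑ i ∈ range m, A l i • x i‖
      ≤ K * ‖Y k - Y l‖ := by
    intro k l m
    have h1 := h (fun i => A k i - A l i) m (max m (max (N k) (N l))) (le_max_left _ _)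
    simp only [sub_smul, sum_sub_distrib] at h1
    rw [hA k (max m (max (N k) (N l))) (by simp), hA l (max m (max (N k) (N l))) (by simp)] at h1
    exact h1
  have hYc : CauchySeq Y := hYlim.cauchySeq
  have hcoef : ∀ i, ∃ c : ℝ, Tendsto (fun k => A k i) atTop (𝓝 c) := by
    intro i
    apply cauchySeq_tendsto_of_complete
    rw [Metric.cauchySeq_iff'] at hYc ⊢
    intro ε hε
    have hxi : 0 < ‖x i‖ := norm_pos_iff.2 (hx i)
    obtain ⟨M, hM⟩ := hYc (ε * ‖x i‖ / (2 * K)) (by positivity)
    refine ⟨M, fun k hk => ?_⟩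
    have h1 := hM k hk
    rw [dist_eq_norm] at h1
    rw [Real.dist_eq]
    have h2 : (A k i - A M i) • x i = (∑ j ∈ range (i + 1), A k j • x j
        - ∑ j ∈ range (i + 1), A M j • x j) - (∑ j ∈ range i, A k j • x j
        - ∑ j ∈ range i, A M j • x j) := by
      rw [sum_range_succ, sum_range_succ, sub_smul]
      abel
    have h3 : |A k i - A M i| * ‖x i‖ ≤ 2 * K * ‖Y k - Y M‖ := by
      rw [← Real.norm_eq_abs, ← norm_smul, h2]
      refine (norm_sub_le _ _).trans ?_
      have := hdiff k M (i + 1)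
      have := hdiff k M i
      linarith
    have h4 : 2 * K * ‖Y k - Y M‖ < ε * ‖x i‖ := by
      rw [lt_div_iff₀ (by positivity)] at h1
      linarith
    exact lt_of_mul_lt_mul_right (h3.trans_lt h4) hxi.le
  choose a ha using hcoef
  have hS : ∀ m, Tendsto (fun k => ∑ i ∈ range m, A k i • x i) atTop
      (𝓝 (∑ i ∈ range m, a i • x i)) := by
    intro m
    apply tendsto_finsetSum
    intro i _
    exact (ha i).smul_const (x i)
  have hlim : ∀ k m, ‖∑ i ∈ range m, A k i • x i - ∑ i ∈ range m, a i • x i‖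
      ≤ K * ‖Y k - y‖ := by
    intro k m
    have h1 : Tendsto (fun l => ‖∑ i ∈ range m, A k i • x i - ∑ i ∈ range m, A l i • x i‖) atTop
        (𝓝 ‖∑ i ∈ range m, A k i • x i - ∑ i ∈ range m, a i • x i‖) :=
      ((hS m).const_sub _).norm
    have h2 : Tendsto (fun l => K * ‖Y k - Y l‖) atTop (𝓝 (K * ‖Y k - y‖)) :=
      ((hYlim.const_sub _).norm).const_mul K
    exact le_of_tendsto_of_tendsto' h1 h2 (fun l => hdiff k l m)
  refine ⟨a, ?_, ?_⟩
  · simp only
    rw [Metric.tendsto_atTop]
    intro ε hε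
    rw [Metric.tendsto_atTop] at hYlim
    obtain ⟨k, hk⟩ := hYlim (ε / (K + 1)) (by positivity)
    have hk' := hk k le_rfl
    rw [dist_eq_norm, lt_div_iff₀ (by positivity)] at hk'
    refine ⟨N k, fun m hm => ?_⟩
    rw [dist_eq_norm]
    have h1 := hlim k m
    rw [hA k m hm] at h1
    have h2 : ∑ i ∈ range m, a i • x i - y = (Y k - y) - (Y k - ∑ i ∈ range m, a i • x i) := by
      abel
    rw [h2]
    refine (norm_sub_le _ _).trans_lt ?_
    linarith
  · intro b hb
    have hgoal : Tendsto (fun n => ∑ i ∈ range n, a i • x i) atTop (𝓝 y) := by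
      rw [Metric.tendsto_atTop]
      intro ε hε
      rw [Metric.tendsto_atTop] at hYlim
      obtain ⟨k, hk⟩ := hYlim (ε / (K + 1)) (by positivity)
      have hk' := hk k le_rfl
      rw [dist_eq_norm, lt_div_iff₀ (by positivity)] at hk'
      refine ⟨N k, fun m hm => ?_⟩
      rw [dist_eq_norm]
      have h1 := hlim k m
      rw [hA k m hm] at h1
      have h2 : ∑ i ∈ range m, a i • x i - y = (Y k - y) - (Y k - ∑ i ∈ range m, a i • x i) := by
        abel
      rw [h2]
      refine (norm_sub_le _ _).trans_lt ?_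
      linarith
    have hz : Tendsto (fun n => ∑ i ∈ range n, (b i - a i) • x i) atTop (𝓝 0) := by
      have := hb.sub hgoal
      rw [sub_self] at this
      refine this.congr ?_
      intro n
      rw [← sum_sub_distrib]
      simp only [sub_smul]
    have hzero : ∀ m, ∑ i ∈ range m, (b i - a i) • x i = 0 := by
      intro m
      have h1 : Tendsto (fun n => K * ‖∑ i ∈ range n, (b i - a i) • x i‖) atTop (𝓝 0) := by
        have := (hz.norm).const_mul K
        rwa [norm_zero, mul_zero] at this
      have h2 : ‖∑ i ∈ range m, (b i - a i) • x i‖ ≤ 0 := by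
        apply ge_of_tendsto h1
        filter_upwards [eventually_ge_atTop m] with n hn
        exact h (fun i => b i - a i) m n hn
      exact norm_le_zero_iff.1 h2
    funext i
    have h1 := hzero (i + 1)
    rw [sum_range_succ, hzero i, zero_add, smul_eq_zero] at h1
    rcases h1 with h1 | h1
    · linarith
    · exact absurd h1 (hx i)

end Elton955.Grun
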