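import Pool.Agent.Elton955.Defs
open Filter Finset Topology

namespace Elton955.Mazur
open Elton955



theorem mazur_net {E : Type*} [NormedAddCommGroup E] [NormedSpace ℝ E] (V : Submodule ℝ E)
    [FiniteDimensional ℝ V] (δ : ℝ) (hδ : 0 < δ) :
    ∃ Φ : Set (E →L[ℝ] ℝ), Φ.Finite ∧ (∀ f ∈ Φ, ‖f‖ ≤ 1) ∧
      ∀ y ∈ V, ∃ f ∈ Φ, (1 - δ) * ‖y‖ ≤ |f y| := by
  have : ProperSpace V := FiniteDimensional.proper ℝ V
  obtain ⟨t, hts, htf, htc⟩ := (isCompact_sphere (0 : V) 1).finite_cover_balls hδ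
  choose F hF1 hF2 using fun y : E => exists_dual_vector'' ℝ y
  refine ⟨insert 0 ((fun y : V => F (y : E)) '' t), (htf.image _).insert _, ?_, ?_⟩
  · rintro f (rfl | ⟨y, _, rfl⟩)
    · simp
    · exact hF1 _
  · intro y hy
    by_cases hy0 : y = 0
    · exact ⟨0, Or.inl rfl, by simp [hy0]⟩
    have hn : 0 < ‖y‖ := norm_pos_iff.2 hy0
    obtain ⟨z, hz⟩ : ∃ z : V, z = ‖y‖⁻¹ • (⟨y, hy⟩ : V) := ⟨_, rfl⟩
    have hzE : (z : E) = ‖y‖⁻¹ • y := by rw [hz]; rfl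
    have hzn : ‖(z : E)‖ = 1 := by
      rw [hzE, norm_smul, norm_inv, norm_norm]; exact inv_mul_cancel₀ hn.ne'
    have hzS : z ∈ Metric.sphere (0 : V) 1 := by
      rw [mem_sphere_zero_iff_norm]; exact hzn
    obtain ⟨w, hw, hzw⟩ := Set.mem_iUnion₂.1 (htc hzS)
    refine ⟨F w, Or.inr ⟨w, hw, rfl⟩, ?_⟩
    have hwn : ‖(w : E)‖ = 1 := by
      have := hts hw
      rw [mem_sphere_zero_iff_norm] at this
      exact this
    have h1 : F w (w : E) = 1 := by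
      rw [hF2, hwn]; rfl
    have h2 : |F w ((z : E) - w)| ≤ δ := by
      have h3 := (F w).le_opNorm ((z : E) - w)
      rw [Real.norm_eq_abs] at h3
      have h4 : ‖(z : E) - w‖ < δ := by
        rw [Metric.mem_ball, dist_eq_norm] at hzw
        exact hzw
      calc |F w ((z : E) - w)| ≤ ‖F w‖ * ‖(z : E) - w‖ := h3
        _ ≤ 1 * δ := mul_le_mul (hF1 _) h4.le (norm_nonneg _) zero_le_one
        _ = δ := one_mul δ
    have h5 : F w y = ‖y‖ * F w (z : E) := by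
      rw [hzE, map_smul, smul_eq_mul, ← mul_assoc, mul_inv_cancel₀ hn.ne', one_mul]
    rw [h5, abs_mul, abs_norm, mul_comm]
    apply mul_le_mul_of_nonneg_left _ hn.le
    rw [map_sub, h1, abs_le] at h2
    have := le_abs_self (F w (z : E))
    linarith [h2.1]

theorem mazur_step {E : Type*} [NormedAddCommGroup E] [NormedSpace ℝ E] (x : ℕ → E)
    (hx1 : ∀ n, ‖x n‖ = 1)
    (hx0 : ∀ f : E →L[ℝ] ℝ, Tendsto (fun n => f (x n)) atTop (𝓝 0))
    (V : Submodule ℝ E) [FiniteDimensional ℝ V] (δ : ℝ) (hδ : 0 < δ) (N : ℕ) :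
    ∃ n > N, ∀ y ∈ V, ∀ t : ℝ, (1 - δ) * ‖y‖ ≤ ‖y + t • x n‖ := by
  obtain ⟨Φ, hΦf, hΦ1, hΦ⟩ := mazur_net V (δ / 3) (by positivity)
  have hev : ∀ᶠ n in atTop, ∀ f ∈ Φ, |f (x n)| < δ / 3 := by
    rw [Filter.eventually_all_finite hΦf]
    intro f _
    have h1 := (hx0 f).abs
    rw [abs_zero] at h1
    exact (tendsto_order.1 h1).2 _ (by positivity)
  obtain ⟨n, hn, hnN⟩ := (hev.and (eventually_gt_atTop N)).exists
  refine ⟨n, hnN, fun y hy t => ?_⟩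
  have hn0 : 0 ≤ ‖y‖ := norm_nonneg y
  rcases le_or_gt |t| (2 * ‖y‖) with ht | ht
  · obtain ⟨f, hf, hfy⟩ := hΦ y hy
    have h1 : |f (y + t • x n)| ≤ ‖y + t • x n‖ := by
      have h2 := f.le_opNorm (y + t • x n)
      rw [Real.norm_eq_abs] at h2
      calc |f (y + t • x n)| ≤ ‖f‖ * ‖y + t • x n‖ := h2
        _ ≤ 1 * ‖y + t • x n‖ := mul_le_mul_of_nonneg_right (hΦ1 f hf) (norm_nonneg _)
        _ = _ := one_mul _
    have h3 : |f y| ≤ |f (y + t • x n)| + |t| * |f (x n)| := by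
      have h4 : f y = f (y + t • x n) - t * f (x n) := by
        rw [map_add, map_smul, smul_eq_mul]; ring
      calc |f y| = |f (y + t • x n) - t * f (x n)| := by rw [← h4]
        _ ≤ |f (y + t • x n)| + |t * f (x n)| := abs_sub _ _
        _ = _ := by rw [abs_mul]
    have h5 : |t| * |f (x n)| ≤ (2 * ‖y‖) * (δ / 3) :=
      mul_le_mul ht (hn f hf).le (abs_nonneg _) (by positivity)
    nlinarith
  · have h1 : ‖t • x n‖ ≤ ‖y + t • x n‖ + ‖y‖ := by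
      have h2 := norm_sub_le (y + t • x n) y
      rwa [add_sub_cancel_left] at h2
    rw [norm_smul, hx1, mul_one, Real.norm_eq_abs] at h1
    nlinarith

theorem mazur {E : Type*} [NormedAddCommGroup E] [NormedSpace ℝ E] (x : ℕ → E)
    (hx1 : ∀ n, ‖x n‖ = 1)
    (hx0 : ∀ f : E →L[ℝ] ℝ, Tendsto (fun n => f (x n)) atTop (𝓝 0)) :
    ∃ φ : ℕ → ℕ, StrictMono φ ∧ ∀ (a : ℕ → ℝ) (m n : ℕ), m ≤ n →
      ‖∑ i ∈ range m, a i • x (φ i)‖ ≤ 2 * ‖∑ i ∈ range n, a i • x (φ i)‖ := by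
  have hg : ∀ (k N : ℕ), ∃ n > N, ∀ y ∈ Submodule.span ℝ (x '' Set.Iic N), ∀ t : ℝ,
      (1 - (1 / 2 : ℝ) ^ (k + 2)) * ‖y‖ ≤ ‖y + t • x n‖ := by
    intro k N
    have : FiniteDimensional ℝ (Submodule.span ℝ (x '' Set.Iic N)) :=
      FiniteDimensional.span_of_finite ℝ ((Set.finite_Iic N).image x)
    exact mazur_step x hx1 hx0 _ _ (by positivity) N
  choose g hg1 hg2 using hg
  obtain ⟨φ, hφ⟩ : ∃ φ : ℕ → ℕ, ∀ k, φ (k + 1) = g (k + 1) (φ k) :=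
    ⟨fun k => Nat.rec 0 (fun k v => g (k + 1) v) k, fun _ => rfl⟩
  have hmono : StrictMono φ := strictMono_nat_of_lt_succ fun k => by
    rw [hφ]; exact hg1 _ _
  refine ⟨φ, hmono, fun a m n hmn => ?_⟩
  have hstep : ∀ k, (1 - (1 / 2 : ℝ) ^ (k + 2)) * ‖∑ i ∈ range k, a i • x (φ i)‖ ≤
      ‖∑ i ∈ range (k + 1), a i • x (φ i)‖ := by
    intro k
    rw [sum_range_succ]
    rcases Nat.eq_zero_or_pos k with rfl | hk
    · simp
    · obtain ⟨l, rfl⟩ : ∃ l, k = l + 1 := ⟨k - 1, by omega⟩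
      rw [hφ l]
      apply hg2
      refine Submodule.sum_mem _ fun i hi => Submodule.smul_mem _ _ (Submodule.subset_span ?_)
      exact ⟨φ i, hmono.monotone (Nat.lt_succ_iff.1 (mem_range.1 hi)), rfl⟩
  have key : ∀ n, m ≤ n → (1 / 2 + (1 / 2 : ℝ) ^ (n + 1)) * ‖∑ i ∈ range m, a i • x (φ i)‖ ≤
      ‖∑ i ∈ range n, a i • x (φ i)‖ := by
    intro n hn
    induction n, hn using Nat.le_induction with
    | base =>
      have h1 : (1 / 2 : ℝ) ^ (m + 1) ≤ 1 / 2 := by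
        rw [pow_succ]
        have : (1 / 2 : ℝ) ^ m ≤ 1 := pow_le_one₀ (by norm_num) (by norm_num)
        linarith
      have h2 : 0 ≤ ‖∑ i ∈ range m, a i • x (φ i)‖ := norm_nonneg _
      nlinarith
    | succ n hn ih =>
      refine le_trans ?_ (hstep n)
      have h2 : 0 ≤ ‖∑ i ∈ range m, a i • x (φ i)‖ := norm_nonneg _
      obtain ⟨q, hq⟩ : ∃ q : ℝ, q = (1 / 2 : ℝ) ^ n := ⟨_, rfl⟩
      have hq0 : 0 < q := by rw [hq]; positivity
      have hq1 : q ≤ 1 := by rw [hq]; exact pow_le_one₀ (by norm_num) (by norm_num)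
      have e1 : (1 / 2 : ℝ) ^ (n + 1) = q / 2 := by rw [pow_succ, ← hq]; ring
      have e2 : (1 / 2 : ℝ) ^ (n + 2) = q / 4 := by rw [pow_add, ← hq]; ring
      rw [e1] at ih
      rw [e2]
      have h3 : (1 - q / 4) * ((1 / 2 + q / 2) * ‖∑ i ∈ range m, a i • x (φ i)‖) ≤
          (1 - q / 4) * ‖∑ i ∈ range n, a i • x (φ i)‖ :=
        mul_le_mul_of_nonneg_left ih (by linarith)
      refine le_trans ?_ h3
      rw [← mul_assoc]
      apply mul_le_mul_of_nonneg_right _ h2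
      nlinarith
  have h1 := key n hmn
  have h2 : 0 ≤ ‖∑ i ∈ range m, a i • x (φ i)‖ := norm_nonneg _
  have h3 : (0 : ℝ) ≤ (1 / 2 : ℝ) ^ (n + 1) := by positivity
  nlinarith [mul_nonneg h3 h2]

end Elton955.Mazur
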