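import Pool.Agent.Elton955.Defs
open Filter Finset Topology

namespace Elton955.Sel
open Elton955



theorem selection (U : Ultrafilter ℕ) (hU : ∀ N : ℕ, ∀ᶠ n in (U : Filter ℕ), N < n)
    (Q : Finset ℕ → ℕ → ℕ → Prop) (hQ : ∀ F t, ∀ᶠ n in (U : Filter ℕ), Q F t n) :
    ∃ m : ℕ → ℕ, StrictMono m ∧ ∀ t, Q ((range t).image m) t (m t) := by
  have hex : ∀ (t : ℕ) (F : Finset ℕ), ∃ n, Q F t n ∧ ∀ x ∈ F, x < n := by
    intro t F
    obtain ⟨n, h1, h2⟩ := ((hQ F t).and (hU (F.sup id))).exists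
    exact ⟨n, h1, fun x hx => lt_of_le_of_lt (Finset.le_sup (f := id) hx) h2⟩
  choose G hG1 hG2 using hex
  let S : ℕ → Finset ℕ := fun t => Nat.rec ∅ (fun t F => insert (G t F) F) t
  have hS0 : S 0 = ∅ := rfl
  have hS1 : ∀ t, S (t + 1) = insert (G t (S t)) (S t) := fun t => rfl
  let m : ℕ → ℕ := fun t => G t (S t)
  have hm : ∀ t, m t = G t (S t) := fun t => rfl
  have hS : ∀ t, S t = (range t).image m := by
    intro t
    induction t with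
    | zero => rw [hS0]; rfl
    | succ t ih => rw [hS1, ← hm, range_add_one, image_insert, ← ih]
  refine ⟨m, strictMono_nat_of_lt_succ fun t => ?_, fun t => ?_⟩
  · rw [hm (t + 1)]
    refine hG2 (t + 1) (S (t + 1)) (m t) ?_
    rw [hS1, hm]
    exact mem_insert_self _ _
  · rw [← hS, hm]
    exact hG1 t (S t)

/-- diagonal subsequences -/
theorem diag (P : ℕ → (ℕ → ℕ) → Prop)
    (hered : ∀ (j : ℕ) (φ ψ : ℕ → ℕ), StrictMono φ → StrictMono ψ → P j φ → P j (φ ∘ ψ))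
    (dense : ∀ (j : ℕ) (φ : ℕ → ℕ), StrictMono φ → ∃ ψ : ℕ → ℕ, StrictMono ψ ∧ P j (φ ∘ ψ)) :
    ∃ φ : ℕ → ℕ, StrictMono φ ∧ ∀ j, P j (fun i => φ (j + i)) := by
  have hd : ∀ (j : ℕ) (φ : {φ : ℕ → ℕ // StrictMono φ}), ∃ ψ : ℕ → ℕ, StrictMono ψ ∧
      P j (φ.1 ∘ ψ) := fun j φ => dense j φ.1 φ.2
  choose Ψ hΨ1 hΨ2 using hd
  let M : ℕ → {φ : ℕ → ℕ // StrictMono φ} := fun j =>
    Nat.rec ⟨id ∘ Ψ 0 ⟨id, strictMono_id⟩, strictMono_id.comp (hΨ1 _ _)⟩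
      (fun j φ => ⟨φ.1 ∘ Ψ (j + 1) φ, φ.2.comp (hΨ1 _ _)⟩) j
  let ψ : ℕ → ℕ → ℕ := fun j => Ψ (j + 1) (M j)
  have hψ : ∀ j, StrictMono (ψ j) := fun j => hΨ1 _ _
  have hM1 : ∀ j, (M (j + 1)).1 = (M j).1 ∘ ψ j := fun j => rfl
  have hPM : ∀ j, P j (M j).1 := by
    intro j
    cases j with
    | zero => exact hΨ2 0 ⟨id, strictMono_id⟩
    | succ j => exact hΨ2 (j + 1) (M j)
  let C : ℕ → ℕ → ℕ → ℕ := fun j i => Nat.rec id (fun i c => c ∘ ψ (j + i)) i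
  have hC0 : ∀ j, C j 0 = id := fun j => rfl
  have hC1 : ∀ j i, C j (i + 1) = C j i ∘ ψ (j + i) := fun j i => rfl
  have hCm : ∀ j i, StrictMono (C j i) := by
    intro j i
    induction i with
    | zero => rw [hC0]; exact strictMono_id
    | succ i ih => rw [hC1]; exact ih.comp (hψ _)
  have hMC : ∀ j i, (M (j + i)).1 = (M j).1 ∘ C j i := by
    intro j i
    induction i with
    | zero => rw [hC0]; rfl
    | succ i ih => rw [← Nat.add_assoc, hM1, hC1, ih]; rfl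
  have hlt : ∀ j, j < ψ j (j + 1) := fun j => lt_of_lt_of_le (Nat.lt_succ_self j) ((hψ j).id_le _)
  refine ⟨fun j => (M j).1 j, strictMono_nat_of_lt_succ fun j => ?_, fun j => ?_⟩
  · rw [hM1]
    exact (M j).2 (hlt j)
  · have h1 : (fun i => (M (j + i)).1 (j + i)) = (M j).1 ∘ fun i => C j i (j + i) := by
      funext i
      rw [hMC]
      rfl
    rw [h1]
    refine hered j _ _ (M j).2 (strictMono_nat_of_lt_succ fun i => ?_) (hPM j)
    rw [hC1, ← Nat.add_assoc]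
    exact hCm j i (hlt (j + i))

end Elton955.Sel
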