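import Pool.Agent.Elton955.Defs
import Pool.Agent.Elton955.Sel
open Filter Finset Topology

namespace Elton955.Scales
open Elton955
open Elton955.Sel




theorem ext_sum {E : Type*} [NormedAddCommGroup E] [NormedSpace ℝ E] (z : ℕ → E) (φ : ℕ → ℕ)
    (hφ : StrictMono φ) (a : ℕ → ℝ) (G : Finset ℕ) :
    ∑ j ∈ G.image φ, (Function.extend φ a 0) j • z j = ∑ i ∈ G, a i • z (φ i) := by
  rw [Finset.sum_image (fun _ _ _ _ h => hφ.injective h)]
  apply Finset.sum_congr rfl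
  intro i _
  rw [hφ.injective.extend_apply]

theorem ext_sum_range {E : Type*} [NormedAddCommGroup E] [NormedSpace ℝ E] (z : ℕ → E)
    (φ : ℕ → ℕ) (hφ : StrictMono φ) (a : ℕ → ℝ) (m : ℕ) :
    ∑ j ∈ range (φ m), (Function.extend φ a 0) j • z j = ∑ i ∈ range m, a i • z (φ i) := by
  rw [← ext_sum z φ hφ a (range m)]
  symm
  apply Finset.sum_subset
  · intro j hj
    obtain ⟨i, hi, rfl⟩ := Finset.mem_image.mp hj
    exact Finset.mem_range.mpr (hφ (Finset.mem_range.mp hi))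
  · intro j hj hj'
    have : ¬ ∃ i, φ i = j := by
      rintro ⟨i, rfl⟩
      apply hj'
      exact Finset.mem_image_of_mem φ (Finset.mem_range.mpr
        (hφ.lt_iff_lt.mp (Finset.mem_range.mp hj)))
    rw [Function.extend_apply' _ _ _ this]
    simp

/-- the fixed-scale property -/
def Qsc {E : Type*} [NormedAddCommGroup E] [NormedSpace ℝ E] (x : ℕ → E) (δ ν : ℝ)
    (φ : ℕ → ℕ) : Prop :=
  ∀ (n : ℕ) (a : ℕ → ℝ) (G : Finset ℕ), G ⊆ range n → (∀ i ∈ G, δ ≤ |a i|) →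
    ‖∑ i ∈ range n, a i • x (φ i)‖ ≤ ν → ‖∑ i ∈ G, a i • x (φ i)‖ ≤ 24 * ν

theorem Qsc.comp {E : Type*} [NormedAddCommGroup E] [NormedSpace ℝ E] {x : ℕ → E} {δ ν : ℝ}
    {φ : ℕ → ℕ} (h : Qsc x δ ν φ) {ψ : ℕ → ℕ} (hψ : StrictMono ψ) : Qsc x δ ν (φ ∘ ψ) := by
  intro n a G hG hδ hn
  have h1 := h (ψ n) (Function.extend ψ a 0) (G.image ψ) (by
    intro j hj
    obtain ⟨i, hi, rfl⟩ := Finset.mem_image.mp hj
    exact Finset.mem_range.mpr (hψ (Finset.mem_range.mp (hG hi)))) (by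
    intro j hj
    obtain ⟨i, hi, rfl⟩ := Finset.mem_image.mp hj
    rw [hψ.injective.extend_apply]
    exact hδ i hi) (by
    rw [ext_sum_range (fun i => x (φ i)) ψ hψ a n]
    exact hn)
  rw [ext_sum (fun i => x (φ i)) ψ hψ a G] at h1
  exact h1

theorem Qsc.exists {E : Type*} [NormedAddCommGroup E] [NormedSpace ℝ E] (x : ℕ → E)
    (hFS : ∀ δ : ℝ, 0 < δ → ∀ φ : ℕ → ℕ, StrictMono φ → ∃ ψ : ℕ → ℕ, StrictMono ψ ∧
      ∀ (n : ℕ) (a : ℕ → ℝ) (G : Finset ℕ), G ⊆ range n → (∀ i ∈ G, δ ≤ |a i|) →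
        ‖∑ i ∈ range n, a i • x (φ (ψ i))‖ ≤ 1 → ‖∑ i ∈ G, a i • x (φ (ψ i))‖ ≤ 24)
    (δ : ℝ) (hδ : 0 < δ) (ν : ℝ) (hν : 0 < ν) (φ : ℕ → ℕ) (hφ : StrictMono φ) :
    ∃ ψ : ℕ → ℕ, StrictMono ψ ∧ Qsc x δ ν (φ ∘ ψ) := by
  obtain ⟨ψ, hψ, h⟩ := hFS (δ / ν) (div_pos hδ hν) φ hφ
  refine ⟨ψ, hψ, fun n a G hG hd hn => ?_⟩
  have hsc : ∀ s : Finset ℕ, ∑ i ∈ s, (ν⁻¹ * a i) • x (φ (ψ i)) =
      ν⁻¹ • ∑ i ∈ s, a i • x (φ (ψ i)) := by
    intro s
    rw [Finset.smul_sum]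
    exact Finset.sum_congr rfl fun i _ => mul_smul _ _ _
  have h1 := h n (fun i => ν⁻¹ * a i) G hG (by
    intro i hi
    rw [abs_mul, abs_of_pos (inv_pos.mpr hν), div_eq_inv_mul]
    exact mul_le_mul_of_nonneg_left (hd i hi) (inv_pos.mpr hν).le) (by
    rw [hsc, norm_smul, Real.norm_eq_abs, abs_of_pos (inv_pos.mpr hν), inv_mul_le_iff₀ hν, mul_one]
    exact hn)
  rw [hsc, norm_smul, Real.norm_eq_abs, abs_of_pos (inv_pos.mpr hν), inv_mul_le_iff₀ hν] at h1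
  have h2 : ‖∑ i ∈ G, a i • x ((φ ∘ ψ) i)‖ ≤ ν * 24 := h1
  linarith

theorem Qsc.dense {E : Type*} [NormedAddCommGroup E] [NormedSpace ℝ E] (x : ℕ → E)
    (hFS : ∀ δ : ℝ, 0 < δ → ∀ φ : ℕ → ℕ, StrictMono φ → ∃ ψ : ℕ → ℕ, StrictMono ψ ∧
      ∀ (n : ℕ) (a : ℕ → ℝ) (G : Finset ℕ), G ⊆ range n → (∀ i ∈ G, δ ≤ |a i|) →
        ‖∑ i ∈ range n, a i • x (φ (ψ i))‖ ≤ 1 → ‖∑ i ∈ G, a i • x (φ (ψ i))‖ ≤ 24)
    (δ : ℝ) (hδ : 0 < δ) (ν : ℕ → ℝ) (hν : ∀ i, 0 < ν i) (φ : ℕ → ℕ) (hφ : StrictMono φ) (M : ℕ) :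
    ∃ ψ : ℕ → ℕ, StrictMono ψ ∧ ∀ i < M, Qsc x δ (ν i) (φ ∘ ψ) := by
  induction M with
  | zero => exact ⟨id, strictMono_id, fun i hi => absurd hi (Nat.not_lt_zero i)⟩
  | succ M ih =>
    obtain ⟨ψ, hψ, h⟩ := ih
    obtain ⟨ψ', hψ', h'⟩ := Qsc.exists x hFS δ hδ (ν M) (hν M) (φ ∘ ψ) (hφ.comp hψ)
    refine ⟨ψ ∘ ψ', hψ.comp hψ', fun i hi => ?_⟩
    rcases Nat.lt_succ_iff_lt_or_eq.mp hi with h1 | h1
    · exact (h i h1).comp hψ'
    · subst h1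
      exact h'

theorem scales_final {E : Type*} [NormedAddCommGroup E] [NormedSpace ℝ E] (x : ℕ → E)
    (hx1 : ∀ n, ‖x n‖ = 1)
    (hb : ∀ (a : ℕ → ℝ) (m n : ℕ), m ≤ n →
      ‖∑ i ∈ range m, a i • x i‖ ≤ 2 * ‖∑ i ∈ range n, a i • x i‖)
    (δ : ℝ) (hδ : 0 < δ) (K : ℕ) (hK : 1 ≤ δ * 2 ^ K) (φ : ℕ → ℕ) (hφ : StrictMono φ)
    (hP : ∀ j, ∀ i ≤ j + K + 2, Qsc x δ (2 ^ i * δ / 4) (fun i => φ (j + i)))
    (n : ℕ) (a : ℕ → ℝ) (G : Finset ℕ) (ha : ∀ i < n, |a i| ≤ 1)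
    (hG : G ⊆ range n) (hGδ : ∀ i ∈ G, δ ≤ |a i|) :
    ‖∑ i ∈ G, a i • x (φ i)‖ ≤ 200 * ‖∑ i ∈ range n, a i • x (φ i)‖ := by
  have hbφ : ∀ m m' : ℕ, m ≤ m' →
      ‖∑ i ∈ range m, a i • x (φ i)‖ ≤ 2 * ‖∑ i ∈ range m', a i • x (φ i)‖ := by
    intro m m' hm
    have := hb (Function.extend φ a 0) (φ m) (φ m') (hφ.monotone hm)
    rwa [ext_sum_range x φ hφ, ext_sum_range x φ hφ] at this
  rcases G.eq_empty_or_nonempty with hGe | ⟨g, hg⟩
  · subst hGe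
    rw [Finset.sum_empty, norm_zero]
    positivity
  set Y := ‖∑ i ∈ range n, a i • x (φ i)‖ with hY
  have hY0 : 0 ≤ Y := norm_nonneg _
  have hgn : g < n := Finset.mem_range.mp (hG hg)
  have hYδ : δ / 4 ≤ Y := by
    have h1 : a g • x (φ g) = ∑ i ∈ range (g + 1), a i • x (φ i) -
        ∑ i ∈ range g, a i • x (φ i) := by
      rw [Finset.sum_range_succ]; abel
    have h2 : |a g| = ‖a g • x (φ g)‖ := by
      rw [norm_smul, hx1, mul_one, Real.norm_eq_abs]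
    have h3 := norm_sub_le (∑ i ∈ range (g + 1), a i • x (φ i)) (∑ i ∈ range g, a i • x (φ i))
    rw [← h1, ← h2] at h3
    have h4 := hbφ (g + 1) n hgn
    have h5 := hbφ g n hgn.le
    have h6 := hGδ g hg
    linarith
  have hex : ∃ i : ℕ, Y ≤ 2 ^ i * δ / 4 := by
    obtain ⟨i, hi⟩ := pow_unbounded_of_one_lt (Y * 4 / δ) (one_lt_two : (1 : ℝ) < 2)
    refine ⟨i, ?_⟩
    rw [div_lt_iff₀ hδ] at hi
    linarith
  classical
  obtain ⟨i, hi, hmin⟩ : ∃ i : ℕ, Y ≤ 2 ^ i * δ / 4 ∧ ∀ k < i, ¬ (Y ≤ 2 ^ k * δ / 4) :=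
    ⟨Nat.find hex, Nat.find_spec hex, fun k hk => Nat.find_min hex hk⟩
  have hi2 : 2 ^ i * δ / 4 ≤ 2 * Y := by
    rcases Nat.eq_zero_or_pos i with h0 | h0
    · subst h0
      rw [pow_zero, one_mul]
      linarith
    · obtain ⟨k, rfl⟩ : ∃ k, i = k + 1 := ⟨i - 1, by omega⟩
      have := hmin k (Nat.lt_succ_self k)
      push Not at this
      rw [pow_succ]
      linarith
  set j0 := i - K with hj0
  -- split `G`
  have hsplit : ∑ k ∈ G, a k • x (φ k) = ∑ k ∈ G.filter (fun k => k < j0), a k • x (φ k) +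
      ∑ k ∈ G.filter (fun k => ¬ k < j0), a k • x (φ k) :=
    (Finset.sum_filter_add_sum_filter_not G _ _).symm
  have hpart1 : ‖∑ k ∈ G.filter (fun k => k < j0), a k • x (φ k)‖ ≤ 8 * Y := by
    have h1 : ‖∑ k ∈ G.filter (fun k => k < j0), a k • x (φ k)‖ ≤
        ∑ k ∈ G.filter (fun k => k < j0), (1 : ℝ) := by
      refine norm_sum_le_of_le _ fun k hk => ?_
      rw [norm_smul, hx1, mul_one, Real.norm_eq_abs]
      exact ha k (Finset.mem_range.mp (hG (Finset.mem_filter.mp hk).1))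
    have h2 : (G.filter (fun k => k < j0)).card ≤ j0 := by
      have : G.filter (fun k => k < j0) ⊆ range j0 := by
        intro k hk
        exact Finset.mem_range.mpr (Finset.mem_filter.mp hk).2
      simpa using Finset.card_le_card this
    rw [Finset.sum_const, nsmul_eq_mul, mul_one] at h1
    have h3 : ((G.filter (fun k => k < j0)).card : ℝ) ≤ (j0 : ℝ) := by exact_mod_cast h2
    rcases Nat.eq_zero_or_pos j0 with h0 | h0
    · have h4 : (j0 : ℝ) = 0 := by rw [h0, Nat.cast_zero]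
      linarith
    · have hiK : i = j0 + K := by omega
      have h4 : (j0 : ℝ) ≤ 2 ^ j0 := by
        have := (Nat.lt_two_pow_self (n := j0)).le
        exact_mod_cast this
      have h5 : (2 : ℝ) ^ j0 ≤ 2 ^ i * δ := by
        rw [hiK, pow_add]
        have : (2 : ℝ) ^ j0 * 1 ≤ 2 ^ j0 * (δ * 2 ^ K) :=
          mul_le_mul_of_nonneg_left hK (by positivity)
        linarith
      linarith
  have hpart2 : ‖∑ k ∈ G.filter (fun k => ¬ k < j0), a k • x (φ k)‖ ≤ 192 * Y := by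
    rcases le_total j0 n with hjn | hjn
    · have hidx : i + 2 ≤ j0 + K + 2 := by omega
      have hQ := hP j0 (i + 2) hidx (n - j0) (fun k => a (j0 + k))
        ((range (n - j0)).filter (fun k => j0 + k ∈ G)) (Finset.filter_subset _ _) (by
          intro k hk
          exact hGδ _ (Finset.mem_filter.mp hk).2) (by
          have h1 : ∑ k ∈ range (n - j0), a (j0 + k) • x (φ (j0 + k)) =
              ∑ k ∈ range n, a k • x (φ k) - ∑ k ∈ range j0, a k • x (φ k) := by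
            rw [← Finset.sum_Ico_eq_sum_range (fun k => a k • x (φ k)) j0 n,
              Finset.sum_Ico_eq_sub _ hjn]
          show ‖∑ k ∈ range (n - j0), a (j0 + k) • x (φ (j0 + k))‖ ≤ _
          rw [h1]
          have h2 := norm_sub_le (∑ k ∈ range n, a k • x (φ k)) (∑ k ∈ range j0, a k • x (φ k))
          have h3 := hbφ j0 n hjn
          rw [← hY] at h2 h3
          have h4 : (2 : ℝ) ^ (i + 2) * δ / 4 = 4 * (2 ^ i * δ / 4) := by
            rw [pow_add]; ring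
          rw [h4]
          linarith)
      have heq : ∑ k ∈ (range (n - j0)).filter (fun k => j0 + k ∈ G),
          (fun k => a (j0 + k)) k • x ((fun i => φ (j0 + i)) k) =
          ∑ k ∈ G.filter (fun k => ¬ k < j0), a k • x (φ k) := by
        refine Finset.sum_nbij' (fun k => j0 + k) (fun k => k - j0) ?_ ?_ ?_ ?_ ?_
        · intro k hk
          have := (Finset.mem_filter.mp hk).2
          exact Finset.mem_filter.mpr ⟨this, by omega⟩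
        · intro k hk
          obtain ⟨h1, h2⟩ := Finset.mem_filter.mp hk
          have h3 := Finset.mem_range.mp (hG h1)
          refine Finset.mem_filter.mpr ⟨Finset.mem_range.mpr (by omega), ?_⟩
          rw [show j0 + (k - j0) = k by omega]
          exact h1
        · intro k _
          show j0 + k - j0 = k
          omega
        · intro k hk
          obtain ⟨h1, h2⟩ := Finset.mem_filter.mp hk
          show j0 + (k - j0) = k
          omega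
        · intro k _
          rfl
      rw [heq] at hQ
      have h4 : (2 : ℝ) ^ (i + 2) * δ / 4 = 4 * (2 ^ i * δ / 4) := by
        rw [pow_add]; ring
      rw [h4] at hQ
      linarith
    · have : G.filter (fun k => ¬ k < j0) = ∅ := by
        apply Finset.filter_eq_empty_iff.mpr
        intro k hk
        have := Finset.mem_range.mp (hG hk)
        omega
      rw [this, Finset.sum_empty, norm_zero]
      positivity
  rw [hsplit]
  have := norm_add_le (∑ k ∈ G.filter (fun k => k < j0), a k • x (φ k))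
    (∑ k ∈ G.filter (fun k => ¬ k < j0), a k • x (φ k))
  linarith

theorem scales {E : Type*} [NormedAddCommGroup E] [NormedSpace ℝ E] (x : ℕ → E)
    (hx1 : ∀ n, ‖x n‖ = 1)
    (hb : ∀ (a : ℕ → ℝ) (m n : ℕ), m ≤ n →
      ‖∑ i ∈ range m, a i • x i‖ ≤ 2 * ‖∑ i ∈ range n, a i • x i‖)
    (hFS : ∀ δ : ℝ, 0 < δ → ∀ φ : ℕ → ℕ, StrictMono φ → ∃ ψ : ℕ → ℕ, StrictMono ψ ∧
      ∀ (n : ℕ) (a : ℕ → ℝ) (G : Finset ℕ), G ⊆ range n → (∀ i ∈ G, δ ≤ |a i|) →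
        ‖∑ i ∈ range n, a i • x (φ (ψ i))‖ ≤ 1 → ‖∑ i ∈ G, a i • x (φ (ψ i))‖ ≤ 24)
    (δ : ℝ) (hδ : 0 < δ) :
    ∃ φ : ℕ → ℕ, StrictMono φ ∧ ∀ (n : ℕ) (a : ℕ → ℝ) (G : Finset ℕ), (∀ i < n, |a i| ≤ 1) →
      G ⊆ range n → (∀ i ∈ G, δ ≤ |a i|) →
      ‖∑ i ∈ G, a i • x (φ i)‖ ≤ 200 * ‖∑ i ∈ range n, a i • x (φ i)‖ := by
  obtain ⟨K, hK⟩ := pow_unbounded_of_one_lt (1 / δ) (one_lt_two : (1 : ℝ) < 2)
  have hK' : 1 ≤ δ * 2 ^ K := by
    rw [div_lt_iff₀ hδ] at hK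
    linarith
  have hν : ∀ i : ℕ, 0 < 2 ^ i * δ / 4 := fun i => by positivity
  obtain ⟨φ, hφ, hP⟩ := diag (fun j φ => ∀ i ≤ j + K + 2, Qsc x δ (2 ^ i * δ / 4) φ)
    (fun j φ ψ _ hψ h i hi => (h i hi).comp hψ)
    (fun j φ hφ => by
      obtain ⟨ψ, hψ, h⟩ := Qsc.dense x hFS δ hδ (fun i => 2 ^ i * δ / 4) hν φ hφ (j + K + 3)
      exact ⟨ψ, hψ, fun i hi => h i (by omega)⟩)
  exact ⟨φ, hφ, fun n a G ha hG hGδ => scales_final x hx1 hb δ hδ K hK' φ hφ hP n a G ha hG hGδ⟩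

end Elton955.Scales
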