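import Pool.Agent.Elton955.Defs
open Filter Finset Topology

namespace Elton955.Wf
open Elton955



theorem ini_W (W : Finset ℕ → Prop)
    (hWext : ∀ e n, (∀ x ∈ e, x < n) → W e → W (insert n e)) (e : Finset ℕ) (he : W e) :
    ∀ (n : ℕ) (e' : Finset ℕ), (e' \ e).card = n → Ini e e' → W e' := by
  intro n
  induction n with
  | zero =>
    intro e' hc hI
    have h1 : e' \ e = ∅ := Finset.card_eq_zero.1 hc
    have h2 : e' ⊆ e := Finset.sdiff_eq_empty_iff_subset.1 h1
    rw [Finset.Subset.antisymm h2 hI.1]
    exact he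
  | succ n ih =>
    intro e' hc hI
    have hne : (e' \ e).Nonempty := Finset.card_pos.1 (by omega)
    set x := (e' \ e).max' hne with hx
    have hxm : x ∈ e' \ e := Finset.max'_mem _ _
    rw [Finset.mem_sdiff] at hxm
    have hlt : ∀ z ∈ e'.erase x, z < x := by
      intro z hz
      rw [Finset.mem_erase] at hz
      by_cases hze : z ∈ e
      · exact hI.2 x hxm.1 hxm.2 z hze
      · have := Finset.le_max' (e' \ e) z (Finset.mem_sdiff.2 ⟨hz.2, hze⟩)
        exact lt_of_le_of_ne this hz.1
    have hW : W (e'.erase x) := by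
      apply ih
      · have : e'.erase x \ e = (e' \ e).erase x := by
          ext z; simp only [Finset.mem_sdiff, Finset.mem_erase]; tauto
        rw [this, Finset.card_erase_of_mem (Finset.mem_sdiff.2 hxm), hc]
        rfl
      · refine ⟨fun y hy => ?_, fun z hz hze y hy => hI.2 z (Finset.mem_of_mem_erase hz) hze y hy⟩
        rw [Finset.mem_erase]
        exact ⟨fun h => hxm.2 (h ▸ hy), hI.1 hy⟩
    have := hWext _ x hlt hW
    rwa [Finset.insert_erase hxm.1] at this

theorem wf_ext (W : Finset ℕ → Prop)
    (hWext : ∀ e n, (∀ x ∈ e, x < n) → W e → W (insert n e))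
    (hWinf : ∀ m : ℕ → ℕ, StrictMono m → ∃ t, W ((range t).image m)) :
    WellFounded (fun e' e : Finset ℕ => Ini e e' ∧ e ≠ e' ∧ ¬ W e) := by
  rw [wellFounded_iff_isEmpty_descending_chain]
  refine ⟨fun ⟨f, hf⟩ => ?_⟩
  have hsub : ∀ k l, k ≤ l → f k ⊆ f l := by
    intro k l hkl
    induction hkl with
    | refl => exact Finset.Subset.refl _
    | step _ ih => exact ih.trans (hf _).1.1
  have hini : ∀ k l, k ≤ l → Ini (f k) (f l) := by
    intro k l hkl
    refine ⟨hsub k l hkl, ?_⟩
    induction hkl with
    | refl => intro x hx hx'; exact absurd hx hx'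
    | @step m hm ih =>
      intro x hx hx' y hy
      by_cases hxm : x ∈ f m
      · exact ih x hxm hx' y hy
      · exact (hf m).1.2 x hx hxm y (hsub k m hm hy)
  have hcard : ∀ k, k ≤ (f k).card := by
    intro k
    induction k with
    | zero => exact Nat.zero_le _
    | succ k ih =>
      have : f k ⊂ f (k + 1) := lt_of_le_of_ne (hf k).1.1 (hf k).2.1
      have := Finset.card_lt_card this
      omega
  set M : ℕ → Prop := fun x => ∃ k, x ∈ f k with hM
  have hMinf : (setOf M).Infinite := by
    intro hfin
    have h1 : ∀ k, (f k).card ≤ hfin.toFinset.card := fun k =>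
      Finset.card_le_card fun x hx => by
        rw [Set.Finite.mem_toFinset]; exact ⟨k, hx⟩
    have h2 := h1 (hfin.toFinset.card + 1)
    have h3 := hcard (hfin.toFinset.card + 1)
    omega
  have hseg : ∀ k, ∀ x ∈ f k, ∀ y, M y → y < x → y ∈ f k := by
    rintro k x hx y ⟨l, hl⟩ hyx
    by_contra hyk
    rcases le_total k l with h | h
    · exact absurd ((hini k l h).2 y hl hyk x hx) (by omega)
    · exact hyk (hsub l k h hl)
  have hmono : StrictMono (Nat.nth M) := Nat.nth_strictMono hMinf
  have hmem : ∀ i, M (Nat.nth M i) := fun i => Nat.nth_mem_of_infinite hMinf i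
  have hsurj : ∀ x, M x → ∃ i, Nat.nth M i = x := by
    intro x hx
    have h1 : x ∈ Set.range (Nat.nth M) := by
      rw [Nat.range_nth_of_infinite hMinf]; exact hx
    exact h1
  obtain ⟨t, ht⟩ := hWinf _ hmono
  have hIt : Ini ((range t).image (Nat.nth M)) (f t) := by
    constructor
    · intro x hx
      obtain ⟨i, hi, rfl⟩ := Finset.mem_image.1 hx
      rw [Finset.mem_range] at hi
      by_contra hxk
      have h1 : f t ⊆ (range i).image (Nat.nth M) := by
        intro y hy
        obtain ⟨j, rfl⟩ := hsurj y ⟨t, hy⟩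
        rw [Finset.mem_image]
        refine ⟨j, ?_, rfl⟩
        rw [Finset.mem_range]
        by_contra hji
        rcases Nat.lt_or_ge i j with h | h
        · exact hxk (hseg t _ hy _ (hmem i) (hmono h))
        · have : i = j := by omega
          subst this
          exact hxk hy
      have h2 := Finset.card_le_card h1
      have h3 : ((range i).image (Nat.nth M)).card ≤ i := by
        simpa using Finset.card_image_le (s := range i) (f := Nat.nth M)
      have h4 := hcard t
      omega
    · intro x hx hx' y hy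
      obtain ⟨i, hi, rfl⟩ := Finset.mem_image.1 hy
      obtain ⟨j, rfl⟩ := hsurj x ⟨t, hx⟩
      rw [Finset.mem_range] at hi
      apply hmono
      by_contra hij
      exact hx' (Finset.mem_image.2 ⟨j, Finset.mem_range.2 (by omega), rfl⟩)
  exact (hf t).2.2 (ini_W W hWext _ ht _ _ rfl hIt)

end Elton955.Wf
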