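import Pool.Agent.Elton955.Defs
import Pool.Agent.Elton955.Tree
import Pool.Agent.Elton955.Sel
import Pool.Agent.Elton955.Wf
open Filter Finset Topology

namespace Elton955.SchK
open Elton955
open Elton955.Tree
open Elton955.Sel
open Elton955.Wf



theorem sk_ext {E : Type*} [NormedAddCommGroup E] [NormedSpace ℝ E] (x : ℕ → E)
    (φ : ℕ → ℕ) (hφ : StrictMono φ) (a : ℕ → ℝ) (n : ℕ) :
    ∑ i ∈ range (φ n), (Function.extend φ a 0) i • x i = ∑ i ∈ range n, a i • x (φ i) := by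
  have h1 : ∑ i ∈ (range n).image φ, (Function.extend φ a 0) i • x i =
      ∑ i ∈ range n, a i • x (φ i) := by
    rw [Finset.sum_image (fun i _ j _ h => hφ.injective h)]
    exact Finset.sum_congr rfl fun i _ => by rw [hφ.injective.extend_apply]
  rw [← h1]
  symm
  apply Finset.sum_subset
  · intro i hi
    obtain ⟨j, hj, rfl⟩ := Finset.mem_image.mp hi
    exact Finset.mem_range.mpr (hφ (Finset.mem_range.mp hj))
  · intro i hi hni
    by_cases h : ∃ j, φ j = i
    · obtain ⟨j, rfl⟩ := h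
      exfalso
      apply hni
      exact Finset.mem_image.mpr
        ⟨j, Finset.mem_range.mpr (hφ.lt_iff_lt.mp (Finset.mem_range.mp hi)), rfl⟩
    · rw [Function.extend_apply' _ _ _ h]
      simp

theorem sk_sub {E : Type*} [NormedAddCommGroup E] [NormedSpace ℝ E] (x : ℕ → E)
    (hb : ∀ (a : ℕ → ℝ) (m n : ℕ), m ≤ n →
      ‖∑ i ∈ range m, a i • x i‖ ≤ 2 * ‖∑ i ∈ range n, a i • x i‖)
    (φ : ℕ → ℕ) (hφ : StrictMono φ) (a : ℕ → ℝ) (m n : ℕ) (hmn : m ≤ n) :
      ‖∑ i ∈ range m, a i • x (φ i)‖ ≤ 2 * ‖∑ i ∈ range n, a i • x (φ i)‖ := by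
  rw [← sk_ext x φ hφ a m, ← sk_ext x φ hφ a n]
  exact hb _ _ _ (hφ.monotone hmn)

theorem sk_tree {E : Type*} [NormedAddCommGroup E] [NormedSpace ℝ E]
    (U : Ultrafilter ℕ) (hU : ∀ N : ℕ, ∀ᶠ n in (U : Filter ℕ), N < n) (j : ℕ)
    (ch : Finset ℕ → (E →L[ℝ] ℝ)) (hch : ∀ e, ‖ch e‖ ≤ 1) :
    ∃ d : Finset ℕ → (E →L[ℝ] ℝ), (∀ e, ‖d e‖ ≤ 1) ∧ (∀ e, j ≤ e.card → d e = ch e) ∧
      ∀ e, e.card < j → ∀ y : E,
        Tendsto (fun n => d (insert n e) y) (U : Filter ℕ) (𝓝 (d e y)) := by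
  classical
  have hcomp : IsCompact (WeakDual.toStrongDual ⁻¹'
      Metric.closedBall (0 : StrongDual ℝ E) 1) := WeakDual.isCompact_closedBall (𝕜 := ℝ) (E := E) 0 1
  haveI : CompactSpace (WeakDual.toStrongDual ⁻¹'
      Metric.closedBall (0 : StrongDual ℝ E) 1 : Set (WeakDual ℝ E)) :=
    isCompact_iff_compactSpace.mp hcomp
  have hmem : ∀ g : E →L[ℝ] ℝ, ‖g‖ ≤ 1 → StrongDual.toWeakDual g ∈ (WeakDual.toStrongDual ⁻¹'
      Metric.closedBall (0 : StrongDual ℝ E) 1 : Set (WeakDual ℝ E)) := by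
    intro g hg
    rw [Set.mem_preimage, mem_closedBall_zero_iff]
    exact hg
  haveI : Nonempty (WeakDual.toStrongDual ⁻¹'
      Metric.closedBall (0 : StrongDual ℝ E) 1 : Set (WeakDual ℝ E)) :=
    ⟨⟨_, hmem 0 (by simp)⟩⟩
  obtain ⟨d, hd1, hd2⟩ := tree_limit U hU (fun e : Finset ℕ => j ≤ e.card)
    (fun e => (⟨_, hmem (ch e) (hch e)⟩ : (WeakDual.toStrongDual ⁻¹'
      Metric.closedBall (0 : StrongDual ℝ E) 1 : Set (WeakDual ℝ E))))
    (wf_ext _ (fun e n _ he => he.trans (Finset.card_le_card (Finset.subset_insert n e)))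
      (fun m hm => ⟨j, by rw [Finset.card_image_of_injective _ hm.injective, card_range]⟩))
  refine ⟨fun e => WeakDual.toStrongDual (d e).1, ?_, ?_, ?_⟩
  · intro e
    have h := (d e).2
    rw [Set.mem_preimage, mem_closedBall_zero_iff] at h
    exact h
  · intro e he
    show WeakDual.toStrongDual (d e).1 = ch e
    rw [hd1 e he]
    rfl
  · intro e he y
    have h1 := hd2 e (not_le.mpr he)
    have h2 : Continuous (fun g : (WeakDual.toStrongDual ⁻¹'
      Metric.closedBall (0 : StrongDual ℝ E) 1 : Set (WeakDual ℝ E)) => g.1 y) :=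
      (WeakDual.eval_continuous y).comp continuous_subtype_val
    exact (h2.tendsto (d e)).comp h1

theorem bel_lt {e : Finset ℕ} {i : ℕ} (hi : i ∈ e) : (bel e i).card < e.card := by
  apply Finset.card_lt_card
  exact Finset.filter_ssubset.mpr ⟨i, hi, lt_irrefl i⟩

theorem bel_mono {e : Finset ℕ} {i k : ℕ} (hi : i ∈ e) (h : i < k) :
    (bel e i).card < (bel e k).card := by
  apply Finset.card_lt_card
  rw [Finset.ssubset_iff_of_subset]
  · exact ⟨i, Finset.mem_filter.mpr ⟨hi, h⟩, by simp [bel]⟩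
  · intro y hy
    rw [bel, Finset.mem_filter] at hy ⊢
    exact ⟨hy.1, hy.2.trans h⟩

theorem bel_inj {e : Finset ℕ} {i k : ℕ} (hi : i ∈ e) (hk : k ∈ e)
    (h : (bel e i).card = (bel e k).card) : i = k := by
  rcases lt_trichotomy i k with h1 | h1 | h1
  · exact absurd h (bel_mono hi h1).ne
  · exact h1
  · exact absurd h.symm (bel_mono hk h1).ne

theorem sk_fixed {E : Type*} [NormedAddCommGroup E] [NormedSpace ℝ E] (x : ℕ → E)
    (hx1 : ∀ n, ‖x n‖ = 1)
    (hx0 : ∀ f : E →L[ℝ] ℝ, Tendsto (fun n => f (x n)) atTop (𝓝 0))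
    (hb : ∀ (a : ℕ → ℝ) (m n : ℕ), m ≤ n →
      ‖∑ i ∈ range m, a i • x i‖ ≤ 2 * ‖∑ i ∈ range n, a i • x i‖) (j : ℕ) :
    ∃ φ : ℕ → ℕ, StrictMono φ ∧ ∀ (n : ℕ) (a : ℕ → ℝ) (G : Finset ℕ), G ⊆ range n → G.card = j →
      ‖∑ i ∈ G, a i • x (φ i)‖ ≤ 2 * ‖∑ i ∈ range n, a i • x (φ i)‖ := by
  classical
  obtain ⟨eps, heps⟩ : ∃ eps : ℝ, eps = 1 / (8 * (j + 1)) := ⟨_, rfl⟩
  have heps0 : 0 < eps := by rw [heps]; positivity
  have heps1 : eps * (8 * (j + 1)) = 1 := by
    rw [heps]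
    field_simp
  obtain ⟨t, _, htf, htc⟩ := finite_cover_balls_of_compact (isCompact_Icc (a := (-1:ℝ)) (b := 1)) heps0
  have hnet : ∀ y : ℝ, |y| ≤ 1 → ∃ z ∈ t, |y - z| ≤ eps := by
    intro y hy
    have h1 := htc (Set.mem_Icc.mpr (abs_le.mp hy))
    rw [Set.mem_iUnion₂] at h1
    obtain ⟨z, hz, hyz⟩ := h1
    refine ⟨z, hz, ?_⟩
    rw [Metric.mem_ball, Real.dist_eq] at hyz
    exact hyz.le
  haveI : Finite t := htf
  have hU : ∀ N : ℕ, ∀ᶠ n in ((hyperfilter ℕ : Ultrafilter ℕ) : Filter ℕ), N < n := fun N =>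
    (eventually_gt_atTop N).filter_mono Nat.hyperfilter_le_atTop
  -- the functionals
  have hch : ∀ (v : Fin j → t) (e : Finset ℕ), ∃ g : E →L[ℝ] ℝ, ‖g‖ ≤ 1 ∧
      ((∃ g' : E →L[ℝ] ℝ, ‖g'‖ ≤ 1 ∧ ∀ i ∈ e, ∀ r : Fin j, (bel e i).card = r →
        |g' (x i) - v r| ≤ eps) → ∀ i ∈ e, ∀ r : Fin j, (bel e i).card = r →
        |g (x i) - v r| ≤ eps) := by
    intro v e
    by_cases h : ∃ g' : E →L[ℝ] ℝ, ‖g'‖ ≤ 1 ∧ ∀ i ∈ e, ∀ r : Fin j, (bel e i).card = r →
        |g' (x i) - v r| ≤ eps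
    · obtain ⟨g', h1, h2⟩ := h
      exact ⟨g', h1, fun _ => h2⟩
    · exact ⟨0, by simp, fun h' => absurd h' h⟩
  choose ch hch1 hch2 using hch
  have htree := fun v : Fin j → t => sk_tree (hyperfilter ℕ) hU j (ch v) (hch1 v)
  choose d hd1 hd2 hd3 using htree
  obtain ⟨m, hm, hQ⟩ := selection (hyperfilter ℕ) hU
    (fun F s n => ∀ v : Fin j → t, ∀ e ∈ F.powerset, |d v e (x n)| ≤ eps * (1 / 2 ^ (s + 1)) ∧
      (e.card < j → ∀ r ∈ F, |d v (insert n e) (x r) - d v e (x r)| ≤ eps * (1 / 2 ^ (s + 1)))) (by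
    intro F s
    have hpos : 0 < eps * (1 / 2 ^ (s + 1)) := by positivity
    rw [Filter.eventually_all]
    intro v
    rw [Filter.eventually_all_finset]
    intro e _
    refine Filter.Eventually.and ?_ ?_
    · have h1 := (hx0 (d v e)).mono_left Nat.hyperfilter_le_atTop
      have h2 := h1.eventually (Metric.closedBall_mem_nhds (0:ℝ) hpos)
      filter_upwards [h2] with n hn
      rw [Real.dist_eq, sub_zero] at hn
      exact hn
    · by_cases he : e.card < j
      · have h3 : ∀ r ∈ F, ∀ᶠ n in ((hyperfilter ℕ : Ultrafilter ℕ) : Filter ℕ),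
            |d v (insert n e) (x r) - d v e (x r)| ≤ eps * (1 / 2 ^ (s + 1)) := by
          intro r _
          have h2 := (hd3 v e he (x r)).eventually (Metric.closedBall_mem_nhds _ hpos)
          filter_upwards [h2] with n hn
          rw [Real.dist_eq] at hn
          exact hn
        rw [← Filter.eventually_all_finset] at h3
        filter_upwards [h3] with n hn _
        exact hn
      · exact Filter.Eventually.of_forall fun n h => absurd h he)
  refine ⟨m, hm, fun n a G hG hGj => ?_⟩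
  have hinj := hm.injective
  -- smallness off `G`
  have hsmall : ∀ (v : Fin j → t) (i N : ℕ), i < N → ∀ G : Finset ℕ, G ⊆ range N → G.card ≤ j →
      i ∉ G → |d v (G.image m) (x (m i))| ≤ eps * (1 / 2 ^ i - 1 / 2 ^ N) := by
    intro v i N hiN
    induction N, hiN using Nat.le_induction with
    | base =>
      intro G hG _ hi
      have h1 : G ⊆ range i := by
        intro y hy
        have h2 := Finset.mem_range.mp (hG hy)
        rw [Finset.mem_range]
        rcases Nat.lt_succ_iff_lt_or_eq.mp h2 with h3 | h3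
        · exact h3
        · rw [h3] at hy
          exact absurd hy hi
      have h3 := (hQ i v (G.image m) (Finset.mem_powerset.mpr (Finset.image_subset_image h1))).1
      refine h3.trans (le_of_eq ?_)
      congr 1
      rw [Nat.succ_eq_add_one, pow_succ]
      field_simp
      ring
    | succ N hiN ih =>
      intro G hG hGc hi
      have hp : (0:ℝ) < 1 / 2 ^ N := by positivity
      have hps : (1:ℝ) / 2 ^ (N + 1) = 1 / 2 ^ N / 2 := by
        rw [pow_succ]
        field_simp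
      by_cases hN : N ∈ G
      · have h1 : G.erase N ⊆ range N := by
          intro y hy
          rw [Finset.mem_erase] at hy
          have h2 := Finset.mem_range.mp (hG hy.2)
          rw [Finset.mem_range]
          omega
        have hcard : (G.erase N).card < G.card := Finset.card_erase_lt_of_mem hN
        have h2 := ih (G.erase N) h1 (by omega) (fun h => hi (Finset.mem_of_mem_erase h))
        have h3 := (hQ N v ((G.erase N).image m)
          (Finset.mem_powerset.mpr (Finset.image_subset_image h1))).2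
          (by rw [Finset.card_image_of_injective _ hinj]; omega) (m i)
          (Finset.mem_image.mpr ⟨i, Finset.mem_range.mpr hiN, rfl⟩)
        have h4 : insert (m N) ((G.erase N).image m) = G.image m := by
          rw [← Finset.image_insert, Finset.insert_erase hN]
        rw [h4] at h3
        have h5 := abs_le.mp h2
        have h6 := abs_le.mp h3
        rw [abs_le]
        rw [hps] at h6 ⊢
        constructor <;> nlinarith [h5.1, h5.2, h6.1, h6.2]
      · have h1 : G ⊆ range N := by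
          intro y hy
          have h2 := Finset.mem_range.mp (hG hy)
          rw [Finset.mem_range]
          have h3 : y ≠ N := fun h => hN (h ▸ hy)
          omega
        refine (ih G h1 hGc hi).trans ?_
        rw [hps]
        nlinarith
  -- the coefficients
  obtain ⟨Y, hY⟩ : ∃ Y : ℝ, Y = ‖∑ i ∈ range n, a i • x (m i)‖ := ⟨_, rfl⟩
  have hY0 : 0 ≤ Y := by rw [hY]; exact norm_nonneg _
  have hcoef : ∀ i < n, |a i| ≤ 4 * Y := by
    intro i hi
    have h1 := sk_sub x hb m hm a i n hi.le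
    have h2 := sk_sub x hb m hm a (i + 1) n hi
    rw [← hY] at h1 h2
    have h3 : a i • x (m i) = (∑ i ∈ range (i + 1), a i • x (m i)) - ∑ i ∈ range i, a i • x (m i) := by
      rw [Finset.sum_range_succ]
      abel
    have h4 : ‖a i • x (m i)‖ ≤ 4 * Y := by
      rw [h3]
      refine (norm_sub_le _ _).trans ?_
      linarith
    rwa [norm_smul, hx1, mul_one, Real.norm_eq_abs] at h4
  rw [← hY]
  obtain ⟨f, hf1, hf2⟩ := exists_dual_vector'' ℝ (∑ i ∈ G, a i • x (m i))
  have hfx : ∀ i, |f (x i)| ≤ 1 := by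
    intro i
    have h1 := f.le_opNorm (x i)
    rw [hx1, mul_one, Real.norm_eq_abs] at h1
    exact h1.trans hf1
  have hv : ∀ r : Fin j, ∃ z : t, ∀ i ∈ G.image m, (bel (G.image m) i).card = r →
      |f (x i) - z| ≤ eps := by
    intro r
    by_cases h : ∃ i ∈ G.image m, (bel (G.image m) i).card = r
    · obtain ⟨i, hi, hir⟩ := h
      obtain ⟨z, hz, hz2⟩ := hnet (f (x i)) (hfx i)
      refine ⟨⟨z, hz⟩, fun i' hi' hir' => ?_⟩
      have h1 : i' = i := bel_inj hi' hi (hir'.trans hir.symm)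
      rw [h1]
      exact hz2
    · obtain ⟨z, hz, _⟩ := hnet 0 (by simp)
      exact ⟨⟨z, hz⟩, fun i hi hir => absurd ⟨i, hi, hir⟩ h⟩
  choose v hv using hv
  have hcardG : (G.image m).card = j := by rw [Finset.card_image_of_injective _ hinj, hGj]
  obtain ⟨g, hg⟩ : ∃ g : E →L[ℝ] ℝ, g = d v (G.image m) := ⟨_, rfl⟩
  have hgn : ‖g‖ ≤ 1 := by rw [hg]; exact hd1 v _
  have hgG : ∀ i ∈ G, |g (x (m i)) - f (x (m i))| ≤ 2 * eps := by
    intro i hi
    have hmi : m i ∈ G.image m := Finset.mem_image.mpr ⟨i, hi, rfl⟩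
    have hlt : (bel (G.image m) (m i)).card < j := by
      have := bel_lt hmi
      rwa [hcardG] at this
    have h1 := hv ⟨_, hlt⟩ (m i) hmi rfl
    have h2 := hch2 v (G.image m) ⟨f, hf1, fun i hi r hr => hv r i hi hr⟩ (m i) hmi ⟨_, hlt⟩ rfl
    rw [← hd2 v (G.image m) hcardG.ge, ← hg] at h2
    rw [abs_le] at h1 h2 ⊢
    constructor <;> linarith [h1.1, h1.2, h2.1, h2.2]
  have hgo : ∀ i ∈ range n \ G, |g (x (m i))| ≤ eps * (1 / 2) ^ i := by
    intro i hi
    rw [Finset.mem_sdiff, Finset.mem_range] at hi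
    have h1 := hsmall v i n hi.1 G hG hGj.le hi.2
    rw [← hg] at h1
    refine h1.trans ?_
    have h2 : (0:ℝ) ≤ 1 / 2 ^ n := by positivity
    have h3 : (1:ℝ) / 2 ^ i = (1 / 2) ^ i := by rw [one_div_pow]
    rw [h3]
    nlinarith
  -- final computation
  have e1 : g (∑ i ∈ range n, a i • x (m i)) = ∑ i ∈ range n \ G, a i * g (x (m i)) +
      ∑ i ∈ G, a i * g (x (m i)) := by
    rw [Finset.sum_sdiff hG, map_sum]
    simp only [map_smul, smul_eq_mul]
  have e2 : g (∑ i ∈ range n, a i • x (m i)) ≤ Y := by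
    have h1 := (le_abs_self _).trans (g.le_opNorm (∑ i ∈ range n, a i • x (m i)))
    rw [← hY] at h1
    nlinarith
  have e3 : ‖∑ i ∈ G, a i • x (m i)‖ = ∑ i ∈ G, a i * f (x (m i)) := by
    have h1 : f (∑ i ∈ G, a i • x (m i)) = ∑ i ∈ G, a i * f (x (m i)) := by
      rw [map_sum]
      simp only [map_smul, smul_eq_mul]
    rw [← h1, hf2]
    rfl
  have e4 : |∑ i ∈ G, (a i * g (x (m i)) - a i * f (x (m i)))| ≤ j * (4 * Y * (2 * eps)) := by
    rw [← hGj, ← nsmul_eq_mul, ← Finset.sum_const]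
    refine (Finset.abs_sum_le_sum_abs _ _).trans (Finset.sum_le_sum fun i hi => ?_)
    rw [← mul_sub, abs_mul]
    exact mul_le_mul (hcoef i (Finset.mem_range.mp (hG hi))) (hgG i hi) (abs_nonneg _) (by positivity)
  have e5 : |∑ i ∈ range n \ G, a i * g (x (m i))| ≤ 4 * Y * (eps * 2) := by
    refine (Finset.abs_sum_le_sum_abs _ _).trans ?_
    have h1 : ∑ i ∈ range n \ G, |a i * g (x (m i))| ≤
        ∑ i ∈ range n \ G, 4 * Y * (eps * (1 / 2) ^ i) := by
      refine Finset.sum_le_sum fun i hi => ?_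
      rw [abs_mul]
      exact mul_le_mul (hcoef i (Finset.mem_range.mp (Finset.mem_sdiff.mp hi).1)) (hgo i hi)
        (abs_nonneg _) (by positivity)
    refine h1.trans ?_
    rw [← Finset.mul_sum, ← Finset.mul_sum]
    have h2 : ∑ i ∈ range n \ G, ((1:ℝ) / 2) ^ i ≤ 2 := by
      have h3 := (summable_geometric_two).sum_le_tsum (range n \ G) (fun i _ => by positivity)
      rwa [tsum_geometric_two] at h3
    gcongr
  rw [Finset.sum_sub_distrib] at e4
  rw [e3]
  have e4' := abs_le.mp e4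
  have e5' := abs_le.mp e5
  have e6 : (j : ℝ) * (4 * Y * (2 * eps)) + 4 * Y * (eps * 2) = Y := by
    linear_combination Y * heps1
  linarith [e4'.1, e5'.1]

theorem schreier_k {E : Type*} [NormedAddCommGroup E] [NormedSpace ℝ E] (x : ℕ → E)
    (hx1 : ∀ n, ‖x n‖ = 1)
    (hx0 : ∀ f : E →L[ℝ] ℝ, Tendsto (fun n => f (x n)) atTop (𝓝 0))
    (hb : ∀ (a : ℕ → ℝ) (m n : ℕ), m ≤ n →
      ‖∑ i ∈ range m, a i • x i‖ ≤ 2 * ‖∑ i ∈ range n, a i • x i‖) (k : ℕ) :
    ∃ φ : ℕ → ℕ, StrictMono φ ∧ ∀ (n : ℕ) (a : ℕ → ℝ) (G : Finset ℕ), G ⊆ range n → G.card ≤ k →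
      ‖∑ i ∈ G, a i • x (φ i)‖ ≤ 2 * ‖∑ i ∈ range n, a i • x (φ i)‖ := by
  classical
  induction k with
  | zero =>
    refine ⟨id, strictMono_id, fun n a G _ hG => ?_⟩
    have h1 : G = ∅ := Finset.card_eq_zero.mp (Nat.le_zero.mp hG)
    rw [h1, Finset.sum_empty, norm_zero]
    positivity
  | succ k ih =>
    obtain ⟨φ, hφ, h1⟩ := ih
    obtain ⟨ψ, hψ, h2⟩ := sk_fixed (fun i => x (φ i)) (fun n => hx1 _)
      (fun f => (hx0 f).comp hφ.tendsto_atTop) (fun a m n hmn => sk_sub x hb φ hφ a m n hmn) (k + 1)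
    refine ⟨φ ∘ ψ, hφ.comp hψ, fun n a G hG hGk => ?_⟩
    rcases Nat.le_succ_iff.mp hGk with h | h
    · have h3 := h1 (ψ n) (Function.extend ψ a 0) (G.image ψ) (by
        intro y hy
        obtain ⟨z, hz, rfl⟩ := Finset.mem_image.mp hy
        exact Finset.mem_range.mpr (hψ (Finset.mem_range.mp (hG hz))))
        (by rwa [Finset.card_image_of_injective _ hψ.injective])
      rw [sk_ext (fun i => x (φ i)) ψ hψ a n, Finset.sum_image (fun i _ j _ h => hψ.injective h)] at h3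
      have h4 : ∑ i ∈ G, (Function.extend ψ a 0) (ψ i) • x (φ (ψ i)) =
          ∑ i ∈ G, a i • x ((φ ∘ ψ) i) :=
        Finset.sum_congr rfl fun i _ => by rw [hψ.injective.extend_apply]; rfl
      rw [h4] at h3
      exact h3
    · exact h2 n a G hG h

end Elton955.SchK
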