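import Pool.Agent.Elton955.Defs
import Pool.Agent.Elton955.Sel
open Filter Finset Topology

namespace Elton955.Select
open Elton955
open Elton955.Sel



theorem sel0_833 (U : Ultrafilter ℕ) (g : ℕ → ℝ) (hg : ∀ n, |g n| ≤ 1) :
    ∃ v, Tendsto g (U : Filter ℕ) (𝓝 v) := by
  have h1 : ((U.map g : Ultrafilter ℝ) : Filter ℝ) ≤ 𝓟 (Set.Icc (-1) 1) := by
    rw [le_principal_iff]
    exact Filter.mem_map.2 (Filter.univ_mem' (fun n => abs_le.1 (hg n)))
  obtain ⟨v, _, hv⟩ := isCompact_Icc.ultrafilter_le_nhds (U.map g) h1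
  exact ⟨v, hv⟩

theorem sel1_833 (U : Ultrafilter ℕ) (g : ℕ → ℕ) (L : ℕ) (hg : ∀ n, g n ≤ L) :
    ∃ l ≤ L, ∀ᶠ n in (U : Filter ℕ), g n = l := by
  have h1 : ((U.map g : Ultrafilter ℕ) : Filter ℕ) ≤ 𝓟 (Set.Iic L) := by
    rw [le_principal_iff]
    exact Filter.mem_map.2 (Filter.univ_mem' (fun n => hg n))
  obtain ⟨l, hl, hv⟩ := (Set.finite_Iic L).isCompact.ultrafilter_le_nhds (U.map g) h1
  refine ⟨l, hl, ?_⟩
  rw [nhds_discrete] at hv
  have h2 : ({l} : Set ℕ) ∈ ((U.map g : Ultrafilter ℕ) : Filter ℕ) := hv (mem_pure.2 rfl)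
  exact h2

theorem bel_succ_mem833 (e : Finset ℕ) (k : ℕ) (hk : k ∈ e) :
    bel e (k + 1) = insert k (bel e k) := by
  ext y
  unfold bel
  rw [Finset.mem_insert, Finset.mem_filter, Finset.mem_filter]
  constructor
  · rintro ⟨h1, h2⟩
    by_cases h3 : y = k
    · exact Or.inl h3
    · exact Or.inr ⟨h1, by omega⟩
  · rintro (h1 | h1)
    · rw [h1]; exact ⟨hk, by omega⟩
    · exact ⟨h1.1, by omega⟩

theorem bel_succ_notMem833 (e : Finset ℕ) (k : ℕ) (hk : k ∉ e) :
    bel e (k + 1) = bel e k := by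
  ext y
  unfold bel
  rw [Finset.mem_filter, Finset.mem_filter]
  constructor
  · rintro ⟨h1, h2⟩
    refine ⟨h1, ?_⟩
    have h3 : y ≠ k := fun h => hk (h ▸ h1)
    omega
  · rintro ⟨h1, h2⟩
    exact ⟨h1, by omega⟩

theorem bel_large833 (e : Finset ℕ) : ∃ k0, ∀ k ≥ k0, bel e k = e := by
  refine ⟨e.sup id + 1, fun k hk => ?_⟩
  unfold bel
  rw [Finset.filter_eq_self]
  intro y hy
  have : id y ≤ e.sup id := Finset.le_sup hy
  simp only [id] at this
  omega

theorem bel_image833 (e : Finset ℕ) (m : ℕ → ℕ) (k : ℕ) :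
    (bel e k).image m ⊆ (range k).image m := by
  apply Finset.image_subset_image
  intro y hy
  unfold bel at hy
  rw [Finset.mem_filter] at hy
  exact mem_range.2 hy.2

theorem select_sys {E : Type*} [NormedAddCommGroup E] [NormedSpace ℝ E] (x : ℕ → E)
    (hx1 : ∀ n, ‖x n‖ = 1)
    (hx0 : ∀ f : E →L[ℝ] ℝ, Tendsto (fun n => f (x n)) atTop (𝓝 0))
    (δ D η : ℝ) (hδ : 0 < δ) (hη : 0 < η)
    (U : Ultrafilter ℕ) (hU : ∀ N : ℕ, ∀ᶠ n in (U : Filter ℕ), N < n)
    (W : Finset ℕ → Prop)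
    (hWext : ∀ e n, (∀ x ∈ e, x < n) → W e → W (insert n e))
    (hWinf : ∀ m : ℕ → ℕ, StrictMono m → ∃ t, W ((range t).image m))
    (hW0 : ¬ W ∅)
    (L : ℕ) (F : Finset ℕ → (E →L[ℝ] ℝ)) (A : Finset ℕ → ℕ → ℝ) (Λ : Finset ℕ → ℕ → ℕ)
    (g1 : ∀ e, ‖F e‖ ≤ 1) (g2 : ∀ e i, i ∉ e → A e i = 0) (g3 : ∀ e i, i ∉ e → Λ e i = 0)
    (g4 : ∀ e, ‖∑ i ∈ e, A e i • x i‖ ≤ 2) (g5 : ∀ e i, |A e i| ≤ 4) (g6 : ∀ e i, Λ e i ≤ L)
    (g7 : ∀ e i, Λ e i ≠ 0 → δ * 2 ^ (Λ e i - 1) ≤ A e i ∧ A e i ≤ δ * 2 ^ (Λ e i) ∧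
        0 ≤ F e (x i) ∧ ∀ N : ℕ, (∀ y ∈ e, N ≤ y) → F e (x i) ≤ 1 / ((N : ℝ) + 1))
    (g8 : ∀ e, ∑ i ∈ e, (if Λ e i ≠ 0 then F e (x i) else 0) ≤ D)
    (g9 : ∀ e, W e → 6 ≤ ∑ i ∈ e, (if Λ e i ≠ 0 then A e i * F e (x i) else 0))
    (g10 : ∀ e, ¬ W e → ∀ i, Tendsto (fun n => F (insert n e) (x i)) (U : Filter ℕ)
        (𝓝 (F e (x i))))
    (g11 : ∀ e, ¬ W e → ∀ i, ∀ᶠ n in (U : Filter ℕ), Λ (insert n e) i = Λ e i) :
    ∃ (W' : Finset ℕ → Prop) (V : Finset ℕ → ℝ) (lv : Finset ℕ → ℕ)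
      (f : Finset ℕ → ℕ → ℝ) (A' : Finset ℕ → ℕ → ℝ) (Λ' : Finset ℕ → ℕ → ℕ),
      (∀ e n, (∀ x ∈ e, x < n) → W' e → W' (insert n e)) ∧
      (∀ m : ℕ → ℕ, StrictMono m → ∃ t, W' ((range t).image m)) ∧
      (¬ W' ∅) ∧ (∀ e, lv e ≤ L) ∧ (¬ (lv ∅ ≠ 0 ∧ 0 < V ∅)) ∧
      (∀ (e : Finset ℕ) (N : ℕ), e.Nonempty → (∀ x ∈ e, N ≤ x) → lv e ≠ 0 → 0 < V e →
        V e ≤ 1 / ((N : ℝ) + 1)) ∧
      (∀ S T : Finset ℕ, |∑ i ∈ S, A' S i * f T i| ≤ 2) ∧
      (∀ e i, |A' e i| ≤ 4) ∧
      (∀ e i, Λ' e i ≠ 0 → δ * 2 ^ (Λ' e i - 1) ≤ A' e i ∧ A' e i ≤ δ * 2 ^ (Λ' e i) ∧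
        0 ≤ f e i) ∧
      (∀ e, ∑ i ∈ e, (if Λ' e i ≠ 0 then f e i else 0) ≤ D) ∧
      (∀ e, W' e → 6 ≤ ∑ i ∈ e, (if Λ' e i ≠ 0 then A' e i * f e i else 0)) ∧
      (∀ e, (∀ n ∈ e, ¬ W' (bel e n)) → ∀ i,
        (i ∈ e → |f e i - V (bel e i)| ≤ η / 2 ^ i ∧ Λ' e i = lv (bel e i)) ∧
        (i ∉ e → |f e i| ≤ η / 2 ^ i)) := by
  classical
  have hid : Tendsto (fun n : ℕ => n) (U : Filter ℕ) atTop :=
    tendsto_atTop.2 (fun N => (hU N).mono (fun n hn => le_of_lt hn))
  have hFx : ∀ e n, |F e (x n)| ≤ 1 := by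
    intro e n
    have h1 := (F e).le_opNorm (x n)
    rw [hx1 n, mul_one] at h1
    rw [← Real.norm_eq_abs]
    exact h1.trans (g1 e)
  have hex : ∀ e, ∃ (v : ℝ) (l : ℕ), l ≤ L ∧ (¬ W e →
      Tendsto (fun n => F (insert n e) (x n)) (U : Filter ℕ) (𝓝 v) ∧
      ∀ᶠ n in (U : Filter ℕ), Λ (insert n e) n = l) ∧ (W e → l = 0) := by
    intro e
    by_cases hW : W e
    · exact ⟨0, 0, Nat.zero_le _, fun h => absurd hW h, fun _ => rfl⟩
    · obtain ⟨v, hv⟩ := sel0_833 U (fun n => F (insert n e) (x n)) (fun n => hFx _ _)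
      obtain ⟨l, hl, hl2⟩ := sel1_833 U (fun n => Λ (insert n e) n) L (fun n => g6 _ _)
      exact ⟨v, l, hl, fun _ => ⟨hv, hl2⟩, fun h => absurd h hW⟩
  choose V0 lv0 hlv hVl hlW using hex
  obtain ⟨m, hm, hQm⟩ := selection U hU
    (fun Fs t n => (∀ r ∈ Fs, r < n) ∧ ∀ e ∈ Fs.powerset, |F e (x n)| ≤ η / 2 ^ (t + 1) ∧
      (¬ W e → |F (insert n e) (x n) - V0 e| ≤ η / 2 ^ (t + 1) ∧ Λ (insert n e) n = lv0 e ∧
        ∀ r ∈ Fs, |F (insert n e) (x r) - F e (x r)| ≤ η / 2 ^ (t + 1) ∧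
          Λ (insert n e) r = Λ e r))
    (by
      intro Fs t
      have hpos : (0 : ℝ) < η / 2 ^ (t + 1) := by positivity
      have habs : ∀ (g : ℕ → ℝ) (v : ℝ), Tendsto g (U : Filter ℕ) (𝓝 v) →
          ∀ᶠ n in (U : Filter ℕ), |g n - v| ≤ η / 2 ^ (t + 1) := by
        intro g v hg
        have h1 := (Metric.tendsto_nhds.1 hg) _ hpos
        refine h1.mono (fun n hn => ?_)
        rw [Real.dist_eq] at hn
        exact hn.le
      apply Filter.Eventually.and
      · rw [Filter.eventually_all_finset]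
        intro r _
        exact hU r
      · rw [Filter.eventually_all_finset]
        intro e _
        apply Filter.Eventually.and
        · have h1 := habs _ _ ((hx0 (F e)).comp hid)
          refine h1.mono (fun n hn => ?_)
          simpa using hn
        · by_cases hW : W e
          · exact Filter.Eventually.of_forall (fun n h => absurd hW h)
          · obtain ⟨h1, h2⟩ := hVl e hW
            have h3 := habs _ _ h1
            have h4 : ∀ᶠ n in (U : Filter ℕ), ∀ r ∈ Fs,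
                |F (insert n e) (x r) - F e (x r)| ≤ η / 2 ^ (t + 1) ∧
                Λ (insert n e) r = Λ e r := by
              rw [Filter.eventually_all_finset]
              intro r _
              exact (habs _ _ (g10 e hW r)).and (g11 e hW r)
            exact (h3.and (h2.and h4)).mono (fun n hn _ => hn))
  beta_reduce at hQm
  have himg : ∀ (e : Finset ℕ) (n : ℕ), (insert n e).image m = insert (m n) (e.image m) :=
    fun e n => Finset.image_insert _ _ _
  have hminj : ∀ e : Finset ℕ, Set.InjOn m e := fun e => hm.injective.injOn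
  refine ⟨fun e => W (e.image m), fun e => V0 (e.image m), fun e => lv0 (e.image m),
    fun e i => F (e.image m) (x (m i)), fun e i => A (e.image m) (m i),
    fun e i => Λ (e.image m) (m i), ?_, ?_, ?_, ?_, ?_, ?_, ?_, ?_, ?_, ?_, ?_, ?_⟩
  · intro e n hn hW
    beta_reduce at hW ⊢
    rw [himg]
    apply hWext _ _ _ hW
    intro y hy
    obtain ⟨z, hz, rfl⟩ := Finset.mem_image.1 hy
    exact hm (hn z hz)
  · intro m' hm'
    obtain ⟨t, ht⟩ := hWinf (m ∘ m') (hm.comp hm')
    refine ⟨t, ?_⟩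
    beta_reduce
    rw [Finset.image_image]
    exact ht
  · beta_reduce
    rw [Finset.image_empty]
    exact hW0
  · intro e
    exact hlv _
  · beta_reduce
    rw [Finset.image_empty]
    rintro ⟨h1, h2⟩
    obtain ⟨h3, h4⟩ := hVl ∅ hW0
    have h5 : ∀ N : ℕ, V0 ∅ ≤ 1 / ((N : ℝ) + 1) := by
      intro N
      apply le_of_tendsto h3
      filter_upwards [h4, hU N] with n hn1 hn2
      have h6 := (g7 (insert n ∅) n (by rw [hn1]; exact h1)).2.2.2 N
      apply h6
      intro y hy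
      rw [Finset.mem_insert] at hy
      rcases hy with hy | hy
      · rw [hy]; exact hn2.le
      · simp at hy
    obtain ⟨N, hN⟩ := exists_nat_one_div_lt h2
    linarith [h5 N]
  · intro e N _ hN h1 _
    beta_reduce at h1 ⊢
    have hW : ¬ W (e.image m) := fun h => h1 (hlW _ h)
    obtain ⟨h3, h4⟩ := hVl _ hW
    apply le_of_tendsto h3
    filter_upwards [h4, hU N] with n hn1 hn2
    have h6 := (g7 (insert n (e.image m)) n (by rw [hn1]; exact h1)).2.2.2 N
    apply h6
    intro y hy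
    rw [Finset.mem_insert] at hy
    rcases hy with hy | hy
    · rw [hy]; exact hn2.le
    · obtain ⟨z, hz, rfl⟩ := Finset.mem_image.1 hy
      exact (hN z hz).trans (hm.le_apply)
  · intro S T
    beta_reduce
    have h1 : ∑ i ∈ S, A (S.image m) (m i) * F (T.image m) (x (m i))
        = F (T.image m) (∑ j ∈ S.image m, A (S.image m) j • x j) := by
      rw [map_sum, Finset.sum_image (hminj S)]
      apply Finset.sum_congr rfl
      intro i _
      rw [map_smul, smul_eq_mul]
    rw [h1, ← Real.norm_eq_abs]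
    refine ((F (T.image m)).le_opNorm _).trans ?_
    have h2 := g4 (S.image m)
    have h3 := g1 (T.image m)
    have h4 := norm_nonneg (∑ j ∈ S.image m, A (S.image m) j • x j)
    have h5 := norm_nonneg (F (T.image m))
    nlinarith
  · intro e i
    exact g5 _ _
  · intro e i h1
    obtain ⟨h2, h3, h4, _⟩ := g7 _ _ h1
    exact ⟨h2, h3, h4⟩
  · intro e
    have h1 := g8 (e.image m)
    rw [Finset.sum_image (hminj e)] at h1
    exact h1
  · intro e hW
    have h1 := g9 (e.image m) hW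
    rw [Finset.sum_image (hminj e)] at h1
    exact h1
  · intro e he i
    beta_reduce at he ⊢
    have hmem : ∀ k, (bel e k).image m ∈ ((range k).image m).powerset := fun k =>
      Finset.mem_powerset.2 (bel_image833 e m k)
    have hhalf : ∀ k : ℕ, η / 2 ^ k = η / 2 ^ (k + 1) + η / 2 ^ (k + 1) := by
      intro k
      rw [pow_succ]
      ring
    have hbound : ∀ k : ℕ, (0 : ℝ) < η / 2 ^ k := fun k => by positivity
    obtain ⟨k0, hk0⟩ := bel_large833 e
    constructor
    · intro hi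
      have key : ∀ k, i + 1 ≤ k →
          |F ((bel e k).image m) (x (m i)) - V0 ((bel e i).image m)| ≤ η / 2 ^ i - η / 2 ^ k ∧
          Λ ((bel e k).image m) (m i) = lv0 ((bel e i).image m) := by
        intro k hk
        induction k, hk using Nat.le_induction with
        | base =>
          have h1 := ((hQm i).2 _ (hmem i)).2 (he i hi)
          rw [bel_succ_mem833 e i hi, himg]
          refine ⟨?_, h1.2.1⟩
          have := hhalf i
          linarith [h1.1]
        | succ k hk ih =>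
          by_cases hke : k ∈ e
          · have h1 := ((hQm k).2 _ (hmem k)).2 (he k hke)
            have h2 := h1.2.2 (m i) (Finset.mem_image_of_mem _ (mem_range.2 (by omega)))
            rw [bel_succ_mem833 e k hke, himg]
            refine ⟨?_, h2.2.trans ih.2⟩
            have h3 := abs_sub_le (F (insert (m k) ((bel e k).image m)) (x (m i)))
              (F ((bel e k).image m) (x (m i))) (V0 ((bel e i).image m))
            have := hhalf k
            linarith [h2.1, ih.1]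
          · rw [bel_succ_notMem833 e k hke]
            refine ⟨?_, ih.2⟩
            have := hhalf k
            have := hbound (k + 1)
            linarith [ih.1]
      have h1 := key (max k0 (i + 1)) (le_max_right _ _)
      rw [hk0 _ (le_max_left _ _)] at h1
      refine ⟨?_, h1.2⟩
      have := hbound (max k0 (i + 1))
      linarith [h1.1]
    · intro hi
      have key : ∀ k, i + 1 ≤ k →
          |F ((bel e k).image m) (x (m i))| ≤ η / 2 ^ i - η / 2 ^ k := by
        intro k hk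
        induction k, hk using Nat.le_induction with
        | base =>
          have h1 := ((hQm i).2 _ (hmem i)).1
          rw [bel_succ_notMem833 e i hi]
          have := hhalf i
          linarith
        | succ k hk ih =>
          by_cases hke : k ∈ e
          · have h1 := ((hQm k).2 _ (hmem k)).2 (he k hke)
            have h2 := h1.2.2 (m i) (Finset.mem_image_of_mem _ (mem_range.2 (by omega)))
            rw [bel_succ_mem833 e k hke, himg]
            have h3 := abs_sub_abs_le_abs_sub (F (insert (m k) ((bel e k).image m)) (x (m i)))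
              (F ((bel e k).image m) (x (m i)))
            have := hhalf k
            linarith [h2.1]
          · rw [bel_succ_notMem833 e k hke]
            have := hhalf k
            have := hbound (k + 1)
            linarith
      have h1 := key (max k0 (i + 1)) (le_max_right _ _)
      rw [hk0 _ (le_max_left _ _)] at h1
      have := hbound (max k0 (i + 1))
      linarith

end Elton955.Select
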