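import Pool.Agent.Elton955.CL
import Pool.Agent.Elton955.SchK
import Pool.Agent.Elton955.Scales
import Pool.Agent.Elton955.GoodSys
import Pool.Agent.Elton955.Select
import Pool.Agent.Elton955.Mazur
import Pool.Agent.Elton955.Extract
import Pool.Agent.Elton955.Contra
import Pool.Agent.Elton955.Grun
open Filter Finset Topology

namespace Elton955.Fin
open Elton955

section
variable {E : Type*} [NormedAddCommGroup E] [NormedSpace ℝ E]

/-- coefficients transported along an injection -/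
theorem transport (x : ℕ → E) (ψ : ℕ → ℕ) (hψ : StrictMono ψ) (a : ℕ → ℝ) (n : ℕ) :
    ∃ b : ℕ → ℝ, ∀ G : Finset ℕ, G ⊆ range n →
      ∑ i ∈ G, a i • x (ψ i) = ∑ j ∈ G.image ψ, b j • x j ∧
      (∀ m, m ≤ n → ∑ i ∈ range m, a i • x (ψ i) = ∑ j ∈ range (ψ m), b j • x j) := by
  classical
  refine ⟨fun j => ∑ i ∈ range n, if ψ i = j then a i else 0, ?_⟩
  have hb : ∀ i < n, (∑ i' ∈ range n, if ψ i' = ψ i then a i' else 0) = a i := by
    intro i hi
    rw [Finset.sum_eq_single i]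
    · simp
    · intro b _ hbi
      rw [if_neg]
      intro h; exact hbi (hψ.injective h)
    · intro h; exact absurd (mem_range.2 hi) h
  intro G hG
  constructor
  · rw [Finset.sum_image (fun i _ j _ h => hψ.injective h)]
    exact Finset.sum_congr rfl (fun i hi => by
      show _ = (∑ i' ∈ range n, if ψ i' = ψ i then a i' else 0) • x (ψ i)
      rw [hb i (mem_range.1 (hG hi))])
  · intro m hm
    have h1 : (range m).image ψ ⊆ range (ψ m) := by
      intro j hj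
      obtain ⟨i, hi, rfl⟩ := mem_image.1 hj
      exact mem_range.2 (hψ (mem_range.1 hi))
    rw [← Finset.sum_subset h1]
    · rw [Finset.sum_image (fun i _ j _ h => hψ.injective h)]
      exact Finset.sum_congr rfl (fun i hi => by
        show _ = (∑ i' ∈ range n, if ψ i' = ψ i then a i' else 0) • x (ψ i)
        rw [hb i ((mem_range.1 hi).trans_le hm)])
    · intro j hj hj2
      have : (∑ i ∈ range n, if ψ i = j then a i else 0) = 0 := by
        refine Finset.sum_eq_zero (fun i _ => if_neg ?_)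
        rintro rfl
        apply hj2
        refine mem_image.2 ⟨i, ?_, rfl⟩
        exact mem_range.2 (hψ.lt_iff_lt.1 (mem_range.1 hj))
      simp only [this, zero_smul]

theorem hb_sub {x : ℕ → E} (hb : ∀ (a : ℕ → ℝ) (m n : ℕ), m ≤ n →
      ‖∑ i ∈ range m, a i • x i‖ ≤ 2 * ‖∑ i ∈ range n, a i • x i‖)
    {ψ : ℕ → ℕ} (hψ : StrictMono ψ) :
    ∀ (a : ℕ → ℝ) (m n : ℕ), m ≤ n →
      ‖∑ i ∈ range m, a i • x (ψ i)‖ ≤ 2 * ‖∑ i ∈ range n, a i • x (ψ i)‖ := by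
  intro a m n hmn
  obtain ⟨b, hb'⟩ := transport x ψ hψ a n
  have h := (hb' ∅ (by simp)).2
  rw [h m hmn, h n le_rfl]
  exact hb b _ _ (hψ.monotone hmn)

/-- Schreier unconditionality with a growth function -/
theorem schreier_h (x : ℕ → E) (hx1 : ∀ n, ‖x n‖ = 1)
    (hx0 : ∀ f : E →L[ℝ] ℝ, Tendsto (fun n => f (x n)) atTop (𝓝 0))
    (hb : ∀ (a : ℕ → ℝ) (m n : ℕ), m ≤ n →
      ‖∑ i ∈ range m, a i • x i‖ ≤ 2 * ‖∑ i ∈ range n, a i • x i‖) (h : ℕ → ℕ) :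
    ∃ φ : ℕ → ℕ, StrictMono φ ∧ ∀ (n : ℕ) (a : ℕ → ℝ) (G : Finset ℕ), G ⊆ range n →
      (∀ i ∈ G, G.card ≤ h i) →
      ‖∑ i ∈ G, a i • x (φ i)‖ ≤ 6 * ‖∑ i ∈ range n, a i • x (φ i)‖ := by
  obtain ⟨φ, hφ, hP⟩ := Elton955.Sel.diag
    (fun j φ => ∀ (n : ℕ) (a : ℕ → ℝ) (G : Finset ℕ), G ⊆ range n → G.card ≤ h j →
      ‖∑ i ∈ G, a i • x (φ i)‖ ≤ 2 * ‖∑ i ∈ range n, a i • x (φ i)‖)
    (by
      intro j φ ψ hφ hψ hP n a G hG hc
      obtain ⟨b, hb'⟩ := transport (fun i => x (φ i)) ψ hψ a n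
      obtain ⟨h1, h2⟩ := hb' G hG
      simp only [Function.comp] at *
      rw [h1, h2 n le_rfl]
      refine hP (ψ n) b (G.image ψ) ?_ ?_
      · intro j hj
        obtain ⟨i, hi, rfl⟩ := mem_image.1 hj
        exact mem_range.2 (hψ (mem_range.1 (hG hi)))
      · exact card_image_le.trans hc)
    (by
      intro j φ hφ
      obtain ⟨ψ, hψ, hP⟩ := Elton955.SchK.schreier_k (fun i => x (φ i)) (fun i => hx1 _)
        (fun f => (hx0 f).comp hφ.tendsto_atTop) (hb_sub hb hφ) (h j)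
      exact ⟨ψ, hψ, fun n a G hG hc => hP n a G hG hc⟩)
  refine ⟨φ, hφ, ?_⟩
  intro n a G hG hc
  rcases G.eq_empty_or_nonempty with rfl | hne
  · simp
  set j := G.min' hne with hj
  have hjG : j ∈ G := G.min'_mem hne
  have hjn : j ≤ n := (mem_range.1 (hG hjG)).le
  -- the remainder
  have hrem : ‖∑ i ∈ range (n - j), a (j + i) • x (φ (j + i))‖ ≤
      3 * ‖∑ i ∈ range n, a i • x (φ i)‖ := by
    have h1 : ∑ i ∈ range n, a i • x (φ i) =
        ∑ i ∈ range j, a i • x (φ i) + ∑ i ∈ range (n - j), a (j + i) • x (φ (j + i)) := by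
      rw [← Finset.sum_range_add]
      rw [Nat.add_sub_cancel' hjn]
    have h2 := hb_sub hb hφ a j n hjn
    have h3 : ∑ i ∈ range (n - j), a (j + i) • x (φ (j + i)) =
        ∑ i ∈ range n, a i • x (φ i) - ∑ i ∈ range j, a i • x (φ i) := by
      rw [h1]; abel
    rw [h3]
    calc _ ≤ ‖∑ i ∈ range n, a i • x (φ i)‖ + ‖∑ i ∈ range j, a i • x (φ i)‖ := norm_sub_le _ _
      _ ≤ _ := by linarith
  -- the shifted set
  have hGs : ∑ i ∈ G, a i • x (φ i) =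
      ∑ i ∈ G.image (fun i => i - j), a (j + i) • x (φ (j + i)) := by
    rw [Finset.sum_image]
    · refine Finset.sum_congr rfl (fun i hi => ?_)
      have : j ≤ i := G.min'_le i hi
      rw [Nat.add_sub_cancel' this]
    · intro i hi i' hi' h
      have h1 : j ≤ i := G.min'_le i hi
      have h2 : j ≤ i' := G.min'_le i' hi'
      simp only at h
      omega
  have hmain := hP j (n - j) (fun i => a (j + i)) (G.image (fun i => i - j))
    (by
      intro k hk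
      obtain ⟨i, hi, rfl⟩ := mem_image.1 hk
      have h1 : j ≤ i := G.min'_le i hi
      have h2 := mem_range.1 (hG hi)
      simp only [mem_range]
      omega)
    (card_image_le.trans (hc j hjG))
  rw [hGs]
  calc _ ≤ 2 * ‖∑ i ∈ range (n - j), a (j + i) • x (φ (j + i))‖ := hmain
    _ ≤ 2 * (3 * ‖∑ i ∈ range n, a i • x (φ i)‖) := by gcongr
    _ = _ := by ring

/-- the fixed-scale theorem -/
theorem fs_one (x : ℕ → E) (hx1 : ∀ n, ‖x n‖ = 1)
    (hx0 : ∀ f : E →L[ℝ] ℝ, Tendsto (fun n => f (x n)) atTop (𝓝 0))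
    (hb : ∀ (a : ℕ → ℝ) (m n : ℕ), m ≤ n →
      ‖∑ i ∈ range m, a i • x i‖ ≤ 2 * ‖∑ i ∈ range n, a i • x i‖) (δ : ℝ) (hδ : 0 < δ) :
    ∃ ψ : ℕ → ℕ, StrictMono ψ ∧
      ∀ (n : ℕ) (a : ℕ → ℝ) (G : Finset ℕ), G ⊆ range n → (∀ i ∈ G, δ ≤ |a i|) →
        ‖∑ i ∈ range n, a i • x (ψ i)‖ ≤ 1 → ‖∑ i ∈ G, a i • x (ψ i)‖ ≤ 24 := by
  classical
  set D : ℝ := 16 / δ with hD
  set h : ℕ → ℕ := fun n => ⌈D * ((n : ℝ) + 1)⌉₊ with hh
  have hD16 : 16 ≤ D * δ := by rw [hD]; field_simp; rfl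
  obtain ⟨ψ0, hψ0, hSch⟩ := schreier_h x hx1 hx0 hb h
  -- pass to the Schreier subsequence
  set z : ℕ → E := fun i => x (ψ0 i) with hz
  have hz1 : ∀ n, ‖z n‖ = 1 := fun n => hx1 _
  have hz0 : ∀ f : E →L[ℝ] ℝ, Tendsto (fun n => f (z n)) atTop (𝓝 0) :=
    fun f => (hx0 f).comp hψ0.tendsto_atTop
  have hzb : ∀ (a : ℕ → ℝ) (m n : ℕ), m ≤ n →
      ‖∑ i ∈ range m, a i • z i‖ ≤ 2 * ‖∑ i ∈ range n, a i • z i‖ := hb_sub hb hψ0
  suffices hmain : ∃ ψ : ℕ → ℕ, StrictMono ψ ∧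
      ∀ (n : ℕ) (a : ℕ → ℝ) (G : Finset ℕ), G ⊆ range n → (∀ i ∈ G, δ ≤ |a i|) →
        ‖∑ i ∈ range n, a i • z (ψ i)‖ ≤ 1 → ‖∑ i ∈ G, a i • z (ψ i)‖ ≤ 24 by
    obtain ⟨ψ, hψ, hP⟩ := hmain
    exact ⟨fun i => ψ0 (ψ i), hψ0.comp hψ, hP⟩
  by_contra hcon
  push Not at hcon
  -- the family of leaves
  set W : Finset ℕ → Prop := fun e => e.Nonempty ∧
    ∃ (f : E →L[ℝ] ℝ) (a : ℕ → ℝ) (G : Finset ℕ), ‖f‖ ≤ 1 ∧
      (∀ i, i ∉ e → a i = 0) ∧ ‖∑ i ∈ e, a i • z i‖ ≤ 1 ∧ G ⊆ e ∧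
      (∀ i ∈ G, δ ≤ a i ∧ 0 ≤ f (z i) ∧
        ∀ N : ℕ, (∀ y ∈ e, N ≤ y) → f (z i) ≤ 1 / ((N : ℝ) + 1)) ∧
      6 ≤ ∑ i ∈ G, a i * f (z i) ∧ ∑ i ∈ G, f (z i) ≤ D with hWdef
  have hWext : ∀ e n, (∀ x ∈ e, x < n) → W e → W (insert n e) := by
    rintro e n hen ⟨hne, f, a, G, hf, ha, hy, hGe, hG, h6, hDD⟩
    have hn : n ∉ e := fun h => lt_irrefl _ (hen n h)
    refine ⟨insert_nonempty _ _, f, a, G, hf, ?_, ?_, ?_, ?_, h6, hDD⟩
    · intro i hi
      exact ha i (fun h => hi (mem_insert_of_mem h))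
    · rw [sum_insert hn, ha n hn, zero_smul, zero_add]
      exact hy
    · exact hGe.trans (subset_insert _ _)
    · intro i hi
      refine ⟨(hG i hi).1, (hG i hi).2.1, fun N hN => (hG i hi).2.2 N (fun y hy => hN y (mem_insert_of_mem hy))⟩
  have hWinf : ∀ m : ℕ → ℕ, StrictMono m → ∃ t, W ((range t).image m) := by
    intro m hm
    obtain ⟨n, a, G, hG, hGδ, hy, hbad⟩ := hcon m hm
    obtain ⟨f, b, H, h1, h2, h3, h4, h5, h6, h7⟩ := Elton955.Extract.extract z hz1 hzb δ D hδ hD16 h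
      (fun n => Nat.le_ceil _) hSch m hm n a G hG hGδ hy hbad
    refine ⟨n, ?_, f, b, H, h1, h2, h3, h4, h5, h6, h7⟩
    have hGne : G.Nonempty := by
      rw [Finset.nonempty_iff_ne_empty]
      rintro rfl
      simp at hbad
      linarith
    obtain ⟨i, hi⟩ := hGne
    exact ⟨m i, mem_image_of_mem _ (hG hi)⟩
  have hW0 : ¬ W ∅ := by
    rintro ⟨h, _⟩
    simp at h
  have hwf := Elton955.Wf.wf_ext W hWext hWinf
  set U : Ultrafilter ℕ := Filter.hyperfilter ℕ with hUdef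
  have hU : ∀ N : ℕ, ∀ᶠ n in (U : Filter ℕ), N < n := by
    intro N
    have h1 : (U : Filter ℕ) ≤ atTop := by
      rw [← Nat.cofinite_eq_atTop]
      exact Filter.hyperfilter_le_cofinite
    exact h1 (eventually_gt_atTop N)
  obtain ⟨L, F, A, Λ, g1, g2, g3, g4, g5, g6, g7, g8, g9, g10, g11⟩ :=
    Elton955.GoodSys.good_sys z hz1 hzb δ D hδ U hU W hwf (fun e he => he.2)
  obtain ⟨W', V, lv, f, A', Λ', s1, s2, s3, s4, s5, s6, s7, s8, s9, s10, s11, s12⟩ :=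
    Elton955.Select.select_sys z hz1 hz0 δ D (1 / 100) hδ (by norm_num) U hU W hWext hWinf hW0
      L F A Λ g1 g2 g3 g4 g5 g6 g7 g8 g9 g10 g11
  obtain ⟨T, S, hT, hT1, hS1, hTS, hsum⟩ := Elton955.CLm.CL W' V lv
    (fun l => min (δ * 2 ^ (l - 1)) 4) L 4 (D + 1) (1 / 10) s1 s2 s3 s5 s4
    (fun l => ⟨le_min (by positivity) (by norm_num), min_le_right _ _⟩)
    (by
      intro e he
      have hterm : ∀ n ∈ e, (if Act V lv (bel e n) then V (bel e n) else 0) ≤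
          (if Λ' e n ≠ 0 then f e n else 0) + (1 / 100) / 2 ^ n := by
        intro n hn
        obtain ⟨k1, k2⟩ := (s12 e he n).1 hn
        have hpow : (0 : ℝ) < (1 / 100) / 2 ^ n := by positivity
        by_cases hA : Act V lv (bel e n)
        · rw [if_pos hA]
          have : Λ' e n ≠ 0 := by rw [k2]; exact hA.1
          rw [if_pos this]
          have := abs_le.1 k1
          linarith
        · rw [if_neg hA]
          by_cases hL : Λ' e n ≠ 0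
          · rw [if_pos hL]
            have := (s9 e n hL).2.2
            linarith
          · rw [if_neg hL]; linarith
      have hgeo : ∀ s : Finset ℕ, ∑ n ∈ s, ((1 : ℝ) / 100) / 2 ^ n ≤ 1 := by
        intro s
        have h1 : ∀ N : ℕ, ∑ n ∈ range N, ((1 : ℝ) / 100) / 2 ^ n ≤ 1 := by
          intro N
          have h2 : ∀ N : ℕ, ∑ n ∈ range N, ((1 : ℝ) / 100) / 2 ^ n = (1 / 50) * (1 - 1 / 2 ^ N) := by
            intro N
            induction N with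
            | zero => simp
            | succ N ih =>
              rw [Finset.sum_range_succ, ih]
              field_simp
              ring
          rw [h2]
          have : (0 : ℝ) < 1 / 2 ^ N := by positivity
          nlinarith
        refine le_trans (Finset.sum_le_sum_of_subset_of_nonneg (t := range (s.sup id + 1)) ?_ ?_) (h1 _)
        · intro i hi
          exact mem_range.2 (Nat.lt_succ_of_le (Finset.le_sup (f := id) hi))
        · intro i _ _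
          positivity
      calc ∑ n ∈ e, (if Act V lv (bel e n) then V (bel e n) else 0)
          ≤ ∑ n ∈ e, ((if Λ' e n ≠ 0 then f e n else 0) + (1 / 100) / 2 ^ n) :=
            Finset.sum_le_sum hterm
        _ = ∑ n ∈ e, (if Λ' e n ≠ 0 then f e n else 0) + ∑ n ∈ e, ((1 : ℝ) / 100) / 2 ^ n :=
            Finset.sum_add_distrib
        _ ≤ D + 1 := add_le_add (s10 e) (hgeo e))
    (fun e N hne hN hA => s6 e N hne hN hA.1 hA.2) (by norm_num)
  exact Elton955.Contra.fs_contra W' V lv f A' Λ' δ hδ s7 s8 s9 s11 s12 T S hT hT1 hS1 hTS hsum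

theorem main (x : ℕ → E) (hx1 : ∀ n, ‖x n‖ = 1)
    (hx0 : ∀ f : E →L[ℝ] ℝ, Tendsto (fun n => f (x n)) atTop (𝓝 0)) (δ : ℝ) (hδ : 0 < δ) :
    ∃ φ : ℕ → ℕ, StrictMono φ ∧
      (∀ (a : ℕ → ℝ) (m n : ℕ), m ≤ n →
        ‖∑ i ∈ range m, a i • x (φ i)‖ ≤ 2 * ‖∑ i ∈ range n, a i • x (φ i)‖) ∧
      ∀ (n : ℕ) (a : ℕ → ℝ) (G : Finset ℕ), (∀ i < n, |a i| ≤ 1) →
        G ⊆ range n → (∀ i ∈ G, δ ≤ |a i|) →
        ‖∑ i ∈ G, a i • x (φ i)‖ ≤ 200 * ‖∑ i ∈ range n, a i • x (φ i)‖ := by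
  obtain ⟨φ0, hφ0, hb⟩ := Elton955.Mazur.mazur x hx1 hx0
  obtain ⟨φ, hφ, hP⟩ := Elton955.Scales.scales (fun i => x (φ0 i)) (fun i => hx1 _) hb
    (by
      intro δ' hδ' φ hφ
      obtain ⟨ψ, hψ, h⟩ := fs_one (fun i => x (φ0 (φ i))) (fun i => hx1 _)
        (fun f => (hx0 f).comp (hφ0.comp hφ).tendsto_atTop)
        (hb_sub (x := fun i => x (φ0 i)) hb hφ) δ' hδ'
      exact ⟨ψ, hψ, h⟩) δ hδ
  exact ⟨fun i => φ0 (φ i), hφ0.comp hφ, hb_sub (x := fun i => x (φ0 i)) hb hφ, hP⟩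

end

end Elton955.Fin
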